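import Mathlib
import Pool.Agent.FCE.Defs

section

set_option autoImplicit false

namespace Pool.Agent.OPG

open Polynomial Finset

/-- A functional which is constant on `m + 1` of the elements `1 / (α - c)` is zero. -/
theorem functional_eq_zero {F K : Type*} [Field F] [Field K] [Algebra F K] (α : K) (m : ℕ)
    (hα : ∀ y : K, ∃ g : F[X], g.natDegree < m ∧ aeval α g = y)
    (hne : ∀ c : F, α - algebraMap F K c ≠ 0) (S : Finset F) (hS : S.card = m + 1)
    (L : K →ₗ[F] F) (δ : F) (hL : ∀ c ∈ S, L ((α - algebraMap F K c)⁻¹) = δ) : L = 0 := by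
  classical
  ext y
  rw [LinearMap.zero_apply]
  obtain ⟨g, hg, hgy⟩ := hα (y * ∏ c ∈ S, (α - algebraMap F K c))
  have hdeg : g.degree < (S.card : WithBot ℕ) := by
    rw [hS]
    refine lt_of_le_of_lt degree_le_natDegree ?_
    exact_mod_cast (by omega : g.natDegree < m + 1)
  have hinj : Set.InjOn (id : F → F) S := Function.injective_id.injOn
  set a : F → F := fun i => g.eval i / ∏ j ∈ S.erase i, (i - j) with ha
  have hsum : ∑ i ∈ S, a i = 0 := by
    have := Lagrange.coeff_eq_sum hinj hdeg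
    simp only [id] at this
    rw [ha, ← this, hS, Nat.add_sub_cancel]
    exact coeff_eq_zero_of_natDegree_lt hg
  have hint := Lagrange.eq_interpolate hinj hdeg
  rw [Lagrange.interpolate_apply] at hint
  have hprod : ∏ c ∈ S, (α - algebraMap F K c) ≠ 0 := Finset.prod_ne_zero_iff.2 fun c _ => hne c
  have hy : y = ∑ i ∈ S, a i • (α - algebraMap F K i)⁻¹ := by
    apply mul_right_cancel₀ hprod
    rw [← hgy, Finset.sum_mul, hint, map_sum]
    apply Finset.sum_congr rfl
    intro i hi
    rw [map_mul, aeval_C, Lagrange.basis, map_prod]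
    have e1 : ∀ j, aeval α (Lagrange.basisDivisor (id i) (id j))
        = algebraMap F K (i - j)⁻¹ * (α - algebraMap F K j) := by
      intro j
      rw [Lagrange.basisDivisor, map_mul, aeval_C, map_sub, aeval_X, aeval_C]
      rfl
    simp_rw [e1]
    rw [Finset.prod_mul_distrib, ← Finset.mul_prod_erase S _ hi, Algebra.smul_def, ha]
    simp only [id]
    rw [div_eq_mul_inv, map_mul, ← Finset.prod_inv_distrib, map_prod]
    have h0 := hne i
    field_simp
  rw [hy, map_sum]
  have e2 : ∀ i ∈ S, L (a i • (α - algebraMap F K i)⁻¹) = a i * δ := by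
    intro i hi
    rw [map_smul, hL i hi, smul_eq_mul]
  rw [Finset.sum_congr rfl e2, ← Finset.sum_mul, hsum, zero_mul]

/-- Number of `c` with `L (1 / (α - c)) = δ`. -/
theorem card_le {F K : Type*} [Field F] [Field K] [Algebra F K] (α : K) (m : ℕ)
    (hα : ∀ y : K, ∃ g : F[X], g.natDegree < m ∧ aeval α g = y)
    (hne : ∀ c : F, α - algebraMap F K c ≠ 0)
    (L : K →ₗ[F] F) (hL0 : L ≠ 0) (δ : F) (S : Finset F)
    (hL : ∀ c ∈ S, L ((α - algebraMap F K c)⁻¹) = δ) : S.card ≤ m := by
  by_contra h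
  push Not at h
  obtain ⟨T, hTS, hT⟩ := Finset.exists_subset_card_eq (s := S) (n := m + 1) h
  exact hL0 (functional_eq_zero α m hα hne T hT L δ fun c hc => hL c (hTS hc))

end Pool.Agent.OPG
end

section

set_option autoImplicit false

namespace Pool.Agent.OPG

open Finset

/-- The nontrivial real character of `ZMod 2`. -/
def sg (a : ZMod 2) : ℝ := if a = 0 then 1 else -1

theorem sg_zero : sg 0 = 1 := by simp [sg]

theorem zmod2_cases (a : ZMod 2) : a = 0 ∨ a = 1 := by
  fin_cases a
  · left; rfl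
  · right; rfl

theorem sg_add (a b : ZMod 2) : sg (a + b) = sg a * sg b := by
  have h2 : (1 : ZMod 2) + 1 = 0 := by decide
  rcases zmod2_cases a with rfl | rfl <;> rcases zmod2_cases b with rfl | rfl <;>
    simp [sg, h2]

theorem sg_sq (a : ZMod 2) : sg a * sg a = 1 := by
  unfold sg
  split_ifs <;> norm_num

theorem sg_ne (a : ZMod 2) (h : a ≠ 0) : sg a = -1 := by
  simp [sg, h]

theorem abs_sg (a : ZMod 2) : |sg a| = 1 := by
  unfold sg
  split_ifs <;> norm_num

/-- Sum of a nontrivial character. -/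
theorem sum_sg {G : Type*} [AddGroup G] [Fintype G] (h : G →+ ZMod 2) (g₀ : G) (hg : h g₀ ≠ 0) :
    ∑ g, sg (h g) = 0 := by
  have h1 : ∑ g, sg (h g) = ∑ g, sg (h (g + g₀)) :=
    (Equiv.sum_comp (Equiv.addRight g₀) (fun g => sg (h g))).symm
  have h2 : ∑ g, sg (h (g + g₀)) = -∑ g, sg (h g) := by
    rw [← Finset.sum_neg_distrib]
    apply Finset.sum_congr rfl
    intro g _
    rw [map_add, sg_add, sg_ne _ hg]
    ring
  linarith

/-- If `l (δ u) = 0` for all `u` in the kernel of `l` then `δ` is `0` or `1`. -/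
theorem delta_cases {F : Type*} [Field F] (l : F →+ ZMod 2) (v : F) (hv : l v ≠ 0) (δ : F)
    (h : ∀ u, l u = 0 → l (δ * u) = 0) : δ = 0 ∨ δ = 1 := by
  have hv1 : l v = 1 := (zmod2_cases (l v)).resolve_left hv
  rcases zmod2_cases (l (δ * v)) with h0 | h1
  · left
    by_contra hδ
    have hall : ∀ w, l (δ * w) = 0 := by
      intro w
      rcases zmod2_cases (l w) with hw | hw
      · exact h w hw
      · have h2 : l (w - v) = 0 := by rw [map_sub, hw, hv1, sub_self]
        have h3 := h _ h2
        rw [mul_sub, map_sub, h0, sub_zero] at h3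
        exact h3
    have := hall (δ⁻¹ * v)
    rw [← mul_assoc, mul_inv_cancel₀ hδ, one_mul] at this
    exact hv this
  · right
    by_contra hδ
    have hδ' : δ - 1 ≠ 0 := sub_ne_zero.2 hδ
    have hall : ∀ w, l (δ * w) = l w := by
      intro w
      rcases zmod2_cases (l w) with hw | hw
      · rw [h w hw, hw]
      · have h2 : l (w - v) = 0 := by rw [map_sub, hw, hv1, sub_self]
        have h3 := h _ h2
        rw [mul_sub, map_sub, h1, sub_eq_zero] at h3
        rw [h3, hw]
    have := hall ((δ - 1)⁻¹ * v)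
    rw [← sub_eq_zero, ← map_sub] at this
    apply hv
    rw [← this]
    congr 1
    field_simp

/-- The kernel of `l`. -/
abbrev KX {F : Type*} [Field F] (l : F →+ ZMod 2) : Type _ := {u : F // l u = 0}

variable {F K : Type*} [Field F] [Fintype F] [DecidableEq F] [Field K] [Fintype K]
  [DecidableEq K] [Algebra F K]

/-- The row sum bound. -/
theorem row_bound (l : F →+ ZMod 2) (v : F) (hv : l v ≠ 0) (L : K →ₗ[F] F) (hL : L ≠ 0)
    (θ : K) (m : ℕ)
    (hθ : ∀ y : K, ∃ g : Polynomial F, g.natDegree < m ∧ Polynomial.aeval θ g = y)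
    (hne : ∀ c : F, θ - algebraMap F K c ≠ 0) (c : K) (hc : c ≠ 0) (i : KX l) :
    ∑ j : KX l, |∑ b : KX l,
      sg (l (L (c / ((θ - algebraMap F K i) * (θ - algebraMap F K j))
        * (θ - algebraMap F K b))))|
      ≤ 2 * (m : ℝ) * (Fintype.card (KX l) : ℝ) := by
  set x : KX l → K := fun u => θ - algebraMap F K u with hx
  have hx0 : ∀ u, x u ≠ 0 := fun u => hne u
  set y : KX l → K := fun j => c / (x i * x j) with hy
  have h1 : ∀ j : KX l, |∑ b : KX l, sg (l (L (y j * x b)))|
      ≤ if L (y j) = 0 ∨ L (y j) = 1 then (Fintype.card (KX l) : ℝ) else 0 := by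
    intro j
    split_ifs with hj
    · refine (Finset.abs_sum_le_sum_abs _ _).trans ?_
      simp_rw [abs_sg]
      rw [Finset.sum_const, Finset.card_univ, nsmul_eq_mul, mul_one]
    · have h2 : ∃ u, l u = 0 ∧ l (L (y j) * u) ≠ 0 := by
        by_contra hcon
        push Not at hcon
        exact hj (delta_cases l v hv (L (y j)) hcon)
      obtain ⟨u₀, hu₀, hu₀'⟩ := h2
      have h3 : ∀ b : KX l, sg (l (L (y j * x b)))
          = sg (l (L (y j * θ))) * sg (l (L (y j) * (b : F))) := by
        intro b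
        rw [hx]
        beta_reduce
        rw [mul_sub, map_sub, map_sub, sub_eq_add_neg, sg_add]
        congr 1
        have e1 : y j * algebraMap F K (b : F) = (b : F) • y j := by
          rw [Algebra.smul_def, mul_comm]
        rw [e1, map_smul, smul_eq_mul, mul_comm (b : F)]
        rcases zmod2_cases (l (L (y j) * (b : F))) with h | h
        · rw [h, neg_zero]
        · rw [h]
          congr 1
      simp_rw [h3]
      rw [← Finset.mul_sum]
      let Kr : AddSubgroup F := l.ker
      let h4 : Kr →+ ZMod 2 :=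
        (l.comp (AddMonoidHom.mulLeft (L (y j)))).comp Kr.subtype
      have h5 : ∑ b : KX l, sg (l (L (y j) * (b : F))) = 0 := by
        have e := sum_sg (G := Kr) h4 ⟨u₀, hu₀⟩ hu₀'
        rw [← e]
        let eq1 : KX l ≃ Kr :=
          ⟨fun b => ⟨b.1, b.2⟩, fun b => ⟨b.1, b.2⟩, fun _ => rfl, fun _ => rfl⟩
        exact Fintype.sum_equiv eq1 _ _ (fun _ => rfl)
      rw [h5, mul_zero, abs_zero]
  refine (Finset.sum_le_sum fun j _ => h1 j).trans ?_
  rw [← Finset.sum_filter, Finset.sum_const, nsmul_eq_mul]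
  apply mul_le_mul_of_nonneg_right _ (by positivity)
  have hci : c / x i ≠ 0 := div_ne_zero hc (hx0 i)
  set L' : K →ₗ[F] F := L.comp (LinearMap.mulLeft F (c / x i)) with hL'
  have hL'0 : L' ≠ 0 := by
    intro h
    apply hL
    ext z
    have e : L z = L' ((c / x i)⁻¹ * z) := by
      rw [hL', LinearMap.comp_apply, LinearMap.mulLeft_apply, ← mul_assoc,
        mul_inv_cancel₀ hci, one_mul]
    rw [e, h]
    rfl
  have hcount : ∀ δ : F, ((univ : Finset (KX l)).filter (fun j => L (y j) = δ)).card ≤ m := by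
    intro δ
    rw [← Finset.card_map (Function.Embedding.subtype _)]
    apply card_le θ m hθ hne L' hL'0 δ
    intro u hu
    rw [Finset.mem_map] at hu
    obtain ⟨j, hj, rfl⟩ := hu
    rw [Finset.mem_filter] at hj
    rw [← hj.2, hL', LinearMap.comp_apply, LinearMap.mulLeft_apply]
    congr 1
    rw [hy]
    beta_reduce
    rw [hx]
    beta_reduce
    have e1 := hne i
    have e2 := hne j
    change (c / (θ - algebraMap F K i)) * (θ - algebraMap F K (j : F))⁻¹ = _
    field_simp
  have h6 : ((univ : Finset (KX l)).filter (fun j => L (y j) = 0 ∨ L (y j) = 1)).card ≤ 2 * m := by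
    rw [Finset.filter_or]
    refine (Finset.card_union_le _ _).trans ?_
    have := hcount 0
    have := hcount 1
    omega
  exact_mod_cast h6

end Pool.Agent.OPG
end

section

set_option autoImplicit false

/-!
The expander mixing lemma.
-/

namespace Pool.Agent.OPG

open Finset Classical

variable {V : Type} [Fintype V]

/-- The bilinear form of the adjacency matrix. -/
noncomputable def bil (G : SimpleGraph V) (x y : V → ℝ) : ℝ :=
  ∑ u, ∑ v, (if G.Adj u v then x u * y v else 0)

theorem bil_symm (G : SimpleGraph V) (x y : V → ℝ) : bil G x y = bil G y x := by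
  unfold bil
  rw [Finset.sum_comm]
  apply Finset.sum_congr rfl
  intro u _
  apply Finset.sum_congr rfl
  intro v _
  by_cases h : G.Adj u v
  · rw [if_pos h, if_pos h.symm, mul_comm]
  · rw [if_neg h, if_neg (fun h' => h h'.symm)]

theorem bil_add_left (G : SimpleGraph V) (x x' y : V → ℝ) :
    bil G (x + x') y = bil G x y + bil G x' y := by
  unfold bil
  rw [← Finset.sum_add_distrib]
  apply Finset.sum_congr rfl
  intro u _
  rw [← Finset.sum_add_distrib]
  apply Finset.sum_congr rfl
  intro v _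
  split_ifs
  · rw [Pi.add_apply]; ring
  · ring

theorem bil_smul_left (G : SimpleGraph V) (a : ℝ) (x y : V → ℝ) :
    bil G (a • x) y = a * bil G x y := by
  unfold bil
  rw [Finset.mul_sum]
  apply Finset.sum_congr rfl
  intro u _
  rw [Finset.mul_sum]
  apply Finset.sum_congr rfl
  intro v _
  split_ifs
  · rw [Pi.smul_apply, smul_eq_mul]; ring
  · ring

theorem bil_add_right (G : SimpleGraph V) (x y y' : V → ℝ) :
    bil G x (y + y') = bil G x y + bil G x y' := by
  rw [bil_symm, bil_add_left, bil_symm G y, bil_symm G y']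

theorem bil_smul_right (G : SimpleGraph V) (a : ℝ) (x y : V → ℝ) :
    bil G x (a • y) = a * bil G x y := by
  rw [bil_symm, bil_smul_left, bil_symm G y]

/-- The polarised spectral bound. -/
theorem bil_bound (G : SimpleGraph V) (Λ : ℝ) (hΛ : 0 ≤ Λ)
    (h : ∀ x : V → ℝ, ∑ v, x v = 0 → |bil G x x| ≤ Λ * ∑ v, x v ^ 2) (x y : V → ℝ)
    (hx : ∑ v, x v = 0) (hy : ∑ v, y v = 0) :
    |bil G x y| ≤ Λ * Real.sqrt (∑ v, x v ^ 2) * Real.sqrt (∑ v, y v ^ 2) := by
  set a := Real.sqrt (∑ v, x v ^ 2) with ha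
  set b := Real.sqrt (∑ v, y v ^ 2) with hb
  have hx0 : 0 ≤ ∑ v, x v ^ 2 := Finset.sum_nonneg fun _ _ => sq_nonneg _
  have hy0 : 0 ≤ ∑ v, y v ^ 2 := Finset.sum_nonneg fun _ _ => sq_nonneg _
  have ha2 : a ^ 2 = ∑ v, x v ^ 2 := Real.sq_sqrt hx0
  have hb2 : b ^ 2 = ∑ v, y v ^ 2 := Real.sq_sqrt hy0
  -- the inequality |4 ab B(x,y)| ≤ ...
  have key : ∀ s : ℝ, 4 * (a * b) * (s * bil G x y) ≤ s ^ 2 * 0 + 4 * (a * b) * (s * bil G x y) := by
    intro s
    simp
  have h1 := h (b • x + a • y) (by
    simp only [Pi.add_apply, Pi.smul_apply, smul_eq_mul]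
    rw [Finset.sum_add_distrib, ← Finset.mul_sum, ← Finset.mul_sum, hx, hy]
    ring)
  have h2 := h (b • x + (-a) • y) (by
    simp only [Pi.add_apply, Pi.smul_apply, smul_eq_mul]
    rw [Finset.sum_add_distrib, ← Finset.mul_sum, ← Finset.mul_sum, hx, hy]
    ring)
  have e1 : bil G (b • x + a • y) (b • x + a • y) - bil G (b • x + (-a) • y) (b • x + (-a) • y)
      = 4 * (a * b) * bil G x y := by
    simp only [bil_add_left, bil_add_right, bil_smul_left, bil_smul_right]
    rw [bil_symm G y x]
    ring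
  have e2 : ∑ v, (b • x + a • y) v ^ 2 + ∑ v, (b • x + (-a) • y) v ^ 2
      = 4 * (a * b) ^ 2 := by
    rw [← Finset.sum_add_distrib]
    have : ∀ v, (b • x + a • y) v ^ 2 + (b • x + (-a) • y) v ^ 2
        = 2 * b ^ 2 * x v ^ 2 + 2 * a ^ 2 * y v ^ 2 := by
      intro v
      simp only [Pi.add_apply, Pi.smul_apply, smul_eq_mul]
      ring
    simp_rw [this]
    rw [Finset.sum_add_distrib, ← Finset.mul_sum, ← Finset.mul_sum, ← ha2, ← hb2]
    ring
  have h3 : |4 * (a * b) * bil G x y| ≤ Λ * (4 * (a * b) ^ 2) := by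
    rw [← e1, ← e2, mul_add]
    refine (abs_sub _ _).trans ?_
    exact add_le_add h1 h2
  have hab : 0 ≤ a * b := mul_nonneg (Real.sqrt_nonneg _) (Real.sqrt_nonneg _)
  rcases eq_or_lt_of_le hab with h0 | h0
  · -- one of the vectors is zero
    have hz : x = 0 ∨ y = 0 := by
      rcases mul_eq_zero.1 h0.symm with h4 | h4
      · left
        rw [h4] at ha2
        have h5 : ∑ v, x v ^ 2 = 0 := by rw [← ha2]; ring
        rw [Finset.sum_eq_zero_iff_of_nonneg (fun _ _ => sq_nonneg _)] at h5
        funext v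
        exact pow_eq_zero_iff (two_ne_zero) |>.1 (h5 v (Finset.mem_univ v))
      · right
        rw [h4] at hb2
        have h5 : ∑ v, y v ^ 2 = 0 := by rw [← hb2]; ring
        rw [Finset.sum_eq_zero_iff_of_nonneg (fun _ _ => sq_nonneg _)] at h5
        funext v
        exact pow_eq_zero_iff (two_ne_zero) |>.1 (h5 v (Finset.mem_univ v))
    have hz2 : bil G x y = 0 := by
      rcases hz with h4 | h4
      · rw [h4]
        have := bil_smul_left G 0 0 y
        rw [zero_smul, zero_mul] at this
        exact this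
      · rw [h4]
        have := bil_smul_right G 0 x 0
        rw [zero_smul, zero_mul] at this
        exact this
    rw [hz2, abs_zero]
    exact mul_nonneg (mul_nonneg hΛ (Real.sqrt_nonneg _)) (Real.sqrt_nonneg _)
  · rw [abs_mul, abs_of_pos (by positivity)] at h3
    have h4 : (4 * (a * b)) * |bil G x y| ≤ (4 * (a * b)) * (Λ * a * b) := by
      refine h3.trans (le_of_eq ?_)
      ring
    exact le_of_mul_le_mul_left h4 (by positivity)

/-- The expander mixing lemma. -/
theorem jumbled_of_spectral (G : SimpleGraph V) (d : ℕ) (hreg : G.IsRegularOfDegree d)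
    (hV : 0 < Fintype.card V) (Λ : ℝ) (hΛ : 0 ≤ Λ)
    (h : ∀ x : V → ℝ, ∑ v, x v = 0 → |bil G x x| ≤ Λ * ∑ v, x v ^ 2) :
    FCE.Jumbled G ((d : ℝ) / (Fintype.card V : ℝ)) Λ := by
  intro X Y
  set n : ℝ := (Fintype.card V : ℝ) with hn
  have hn0 : 0 < n := by rw [hn]; exact_mod_cast hV
  set a : ℝ := (X.card : ℝ) / n with ha
  set b : ℝ := (Y.card : ℝ) / n with hb
  set x : V → ℝ := fun v => if v ∈ X then 1 else 0 with hx
  set y : V → ℝ := fun v => if v ∈ Y then 1 else 0 with hy
  have hsx : ∑ v, x v = X.card := by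
    rw [hx, Finset.sum_boole, Finset.filter_mem_eq_inter, Finset.univ_inter]
  have hsy : ∑ v, y v = Y.card := by
    rw [hy, Finset.sum_boole, Finset.filter_mem_eq_inter, Finset.univ_inter]
  have he : (FCE.edgeCount G X Y : ℝ) = bil G x y := by
    unfold FCE.edgeCount bil
    have e1 : Nat.card {e : V × V // e.1 ∈ X ∧ e.2 ∈ Y ∧ G.Adj e.1 e.2}
        = ((univ : Finset (V × V)).filter (fun e => e.1 ∈ X ∧ e.2 ∈ Y ∧ G.Adj e.1 e.2)).card := by
      rw [Nat.card_eq_fintype_card, Fintype.card_subtype]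
    rw [e1, ← Finset.sum_boole, ← Finset.univ_product_univ, Finset.sum_product]
    apply Finset.sum_congr rfl
    intro u _
    apply Finset.sum_congr rfl
    intro v _
    rw [hx, hy]
    by_cases h1 : u ∈ X <;> by_cases h2 : v ∈ Y <;> by_cases h3 : G.Adj u v <;> simp [h1, h2, h3]
  have hone : ∀ z : V → ℝ, bil G z (fun _ => 1) = d * ∑ v, z v := by
    intro z
    unfold bil
    rw [Finset.mul_sum]
    apply Finset.sum_congr rfl
    intro u _
    rw [← Finset.sum_filter, Finset.sum_const, nsmul_eq_mul]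
    have : ((univ : Finset V).filter (fun v => G.Adj u v)).card = d := by
      rw [← hreg u, ← SimpleGraph.card_neighborFinset_eq_degree]
      congr 1
      ext v
      simp
    rw [this]
    ring
  set x' : V → ℝ := x + (-a) • (fun _ => (1 : ℝ)) with hx'
  set y' : V → ℝ := y + (-b) • (fun _ => (1 : ℝ)) with hy'
  have hcard : ∑ _v : V, (1 : ℝ) = n := by
    rw [Finset.sum_const, Finset.card_univ, nsmul_eq_mul, mul_one]
  have hx'0 : ∑ v, x' v = 0 := by
    simp only [hx', Pi.add_apply, Pi.smul_apply, smul_eq_mul]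
    rw [Finset.sum_add_distrib, hsx, ← Finset.mul_sum, hcard, ha]
    field_simp
    ring
  have hy'0 : ∑ v, y' v = 0 := by
    simp only [hy', Pi.add_apply, Pi.smul_apply, smul_eq_mul]
    rw [Finset.sum_add_distrib, hsy, ← Finset.mul_sum, hcard, hb]
    field_simp
    ring
  have hnx : ∑ v, x' v ^ 2 ≤ X.card := by
    have e1 : ∀ v, x' v ^ 2 = x v - 2 * a * x v + a ^ 2 := by
      intro v
      simp only [hx', Pi.add_apply, Pi.smul_apply, smul_eq_mul, hx]
      split_ifs <;> ring
    simp_rw [e1]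
    rw [Finset.sum_add_distrib, Finset.sum_sub_distrib, ← Finset.mul_sum, hsx, Finset.sum_const,
      Finset.card_univ, nsmul_eq_mul, ← hn]
    have e2 : n * a ^ 2 = a * X.card := by
      rw [ha]
      field_simp
    have e3 : 0 ≤ a * X.card := by positivity
    rw [e2]
    linarith
  have hny : ∑ v, y' v ^ 2 ≤ Y.card := by
    have e1 : ∀ v, y' v ^ 2 = y v - 2 * b * y v + b ^ 2 := by
      intro v
      simp only [hy', Pi.add_apply, Pi.smul_apply, smul_eq_mul, hy]
      split_ifs <;> ring
    simp_rw [e1]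
    rw [Finset.sum_add_distrib, Finset.sum_sub_distrib, ← Finset.mul_sum, hsy, Finset.sum_const,
      Finset.card_univ, nsmul_eq_mul, ← hn]
    have e2 : n * b ^ 2 = b * Y.card := by
      rw [hb]
      field_simp
    have e3 : 0 ≤ b * Y.card := by positivity
    rw [e2]
    linarith
  have hmain : bil G x' y' = (FCE.edgeCount G X Y : ℝ) - (d : ℝ) / n * X.card * Y.card := by
    rw [hx', hy', bil_add_left, bil_add_right, bil_add_right, bil_smul_right, bil_smul_left,
      bil_smul_left, bil_smul_right, hone, hone, bil_symm G (fun _ => 1) y, hone, hsx, hsy, hcard,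
      he, ha, hb]
    field_simp
    ring
  rw [← hmain]
  refine (bil_bound G Λ hΛ h x' y' hx'0 hy'0).trans ?_
  rw [mul_assoc, ← Real.sqrt_mul (Finset.sum_nonneg fun _ _ => sq_nonneg _)]
  apply mul_le_mul_of_nonneg_left _ hΛ
  apply Real.sqrt_le_sqrt
  exact mul_le_mul hnx hny (Finset.sum_nonneg fun _ _ => sq_nonneg _) (by positivity)

end Pool.Agent.OPG
end

section

set_option autoImplicit false

namespace Pool.Agent.OPG

open Polynomial Finset IntermediateField

theorem mod_surj {F K : Type*} [Field F] [Field K] [Algebra F K] [FiniteDimensional F K] (α : K)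
    (hα : F⟮α⟯ = ⊤) (m : ℕ) (hm : 1 ≤ m) (hdeg : (minpoly F α).natDegree = m) (y : K) :
    ∃ g : F[X], g.natDegree < m ∧ aeval α g = y := by
  have hint : IsIntegral F α := Algebra.IsIntegral.isIntegral α
  have h1 : Algebra.adjoin F {α} = ⊤ := by
    rw [← IntermediateField.adjoin_simple_toSubalgebra_of_isAlgebraic hint.isAlgebraic, hα]
    rfl
  have h2 : y ∈ Algebra.adjoin F {α} := by rw [h1]; trivial
  rw [Algebra.adjoin_singleton_eq_range_aeval] at h2
  obtain ⟨g, hg⟩ := h2
  have hmon := minpoly.monic hint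
  refine ⟨g %ₘ minpoly F α, ?_, ?_⟩
  · rw [← hdeg]
    apply natDegree_modByMonic_lt g hmon
    intro h
    rw [h, natDegree_one] at hdeg
    omega
  · rw [← hg]
    exact Polynomial.aeval_modByMonic_eq_self_of_root (minpoly.aeval F α)

theorem sub_ne {F K : Type*} [Field F] [Field K] [Algebra F K] [FiniteDimensional F K] (α : K)
    (hdeg : 2 ≤ (minpoly F α).natDegree) (c : F) : α - algebraMap F K c ≠ 0 := by
  intro h
  have h1 : minpoly F α ∣ X - C c := by
    apply minpoly.dvd
    rw [map_sub, aeval_X, aeval_C, h]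
  have h2 := natDegree_le_of_dvd h1 (X_sub_C_ne_zero c)
  rw [natDegree_X_sub_C] at h2
  omega

theorem exists_gen (F K : Type*) [Field F] [Fintype F] [Field K] [Algebra F K]
    [FiniteDimensional F K] [Algebra.IsSeparable F K] (m : ℕ) (hm : 2 ≤ m)
    (hfr : Module.finrank F K = m) (hF : m + 1 ≤ Fintype.card F) :
    ∃ θ : K, F⟮θ⟯ = ⊤ ∧ (minpoly F θ).natDegree = m ∧ (minpoly F θ).coeff (m - 1) ≠ 0 := by
  classical
  obtain ⟨α, hα⟩ := Field.exists_primitive_element F K
  have hdα : (minpoly F α).natDegree = m := by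
    rw [(Field.primitive_element_iff_minpoly_natDegree_eq F α).1 hα, hfr]
  have hne : ∀ c : F, α - algebraMap F K c ≠ 0 := fun c => sub_ne α (by omega) c
  have htr : Algebra.trace F K ≠ 0 := by
    intro h
    obtain ⟨y, hy⟩ := Algebra.trace_surjective F K 1
    rw [h, LinearMap.zero_apply] at hy
    exact zero_ne_one hy
  obtain ⟨c, hc⟩ : ∃ c : F, Algebra.trace F K ((α - algebraMap F K c)⁻¹) ≠ 0 := by
    by_contra hcon
    push Not at hcon
    have := card_le α m (mod_surj α hα m (by omega) hdα) hne (Algebra.trace F K) htr 0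
      Finset.univ (fun c _ => hcon c)
    rw [Finset.card_univ] at this
    omega
  set θ : K := (α - algebraMap F K c)⁻¹ with hθ
  have hθtop : F⟮θ⟯ = ⊤ := by
    rw [← top_le_iff, ← hα, IntermediateField.adjoin_simple_le_iff]
    have h1 : α = θ⁻¹ + algebraMap F K c := by
      rw [hθ, inv_inv]
      ring
    rw [h1]
    exact add_mem (inv_mem (IntermediateField.mem_adjoin_simple_self F θ))
      (IntermediateField.algebraMap_mem _ c)
  have hdθ : (minpoly F θ).natDegree = m := by
    rw [(Field.primitive_element_iff_minpoly_natDegree_eq F θ).1 hθtop, hfr]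
  refine ⟨θ, hθtop, hdθ, ?_⟩
  have hint : IsIntegral F θ := Algebra.IsIntegral.isIntegral θ
  have hadj : Algebra.adjoin F {θ} = ⊤ := by
    rw [← IntermediateField.adjoin_simple_toSubalgebra_of_isAlgebraic hint.isAlgebraic, hθtop]
    rfl
  have h3 := PowerBasis.trace_gen_eq_nextCoeff_minpoly (PowerBasis.ofAdjoinEqTop hint hadj)
  rw [PowerBasis.ofAdjoinEqTop_gen] at h3
  intro h0
  apply hc
  rw [h3, nextCoeff, if_neg (by omega), hdθ, h0, neg_zero]

theorem exists_ell (F : Type*) [Field F] [Fintype F] [Algebra (ZMod 2) F] (τ : F) (hτ : τ ≠ 0) :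
    ∃ l : F →+ ZMod 2, l τ ≠ 0 := by
  have : Fact (Nat.Prime 2) := ⟨Nat.prime_two⟩
  obtain ⟨b, hb⟩ := Algebra.trace_surjective (ZMod 2) F 1
  refine ⟨(Algebra.trace (ZMod 2) F).toAddMonoidHom.comp (AddMonoidHom.mulRight (b / τ)), ?_⟩
  rw [AddMonoidHom.comp_apply, AddMonoidHom.mulRight_apply, mul_div_cancel₀ _ hτ]
  change Algebra.trace (ZMod 2) F b ≠ 0
  rw [hb]
  exact one_ne_zero

end Pool.Agent.OPG
end
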