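import Mathlib
import Pool.Agent.OPG.Mg_MP_fce80c_co.G007

section

set_option autoImplicit false

namespace Pool.Agent.OPG

open Finset

/-- Cauchy-Schwarz for an orthogonal matrix. -/
theorem bilin_bound {W : Type*} [Fintype W] [DecidableEq W] (A : W → W → ℝ) (w : ℝ)
    (hw : 0 ≤ w)
    (hA : ∀ ω ω', ∑ ω'', A ω ω'' * A ω' ω'' = if ω = ω' then w else 0) (p q : W → ℝ) :
    |∑ ω, ∑ ω', A ω ω' * p ω * q ω'| ≤
      Real.sqrt w * Real.sqrt (∑ ω, p ω ^ 2) * Real.sqrt (∑ ω, q ω ^ 2) := by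
  set r : W → ℝ := fun ω'' => ∑ ω, p ω * A ω ω'' with hr
  have h1 : ∑ ω, ∑ ω', A ω ω' * p ω * q ω' = ∑ ω', r ω' * q ω' := by
    rw [Finset.sum_comm]
    apply Finset.sum_congr rfl
    intro ω' _
    rw [hr, Finset.sum_mul]
    apply Finset.sum_congr rfl
    intro ω _
    ring
  have h2 : ∑ ω'', r ω'' ^ 2 = w * ∑ ω, p ω ^ 2 := by
    have e1 : ∀ ω'', r ω'' ^ 2 = ∑ ω, ∑ ω', p ω * p ω' * (A ω ω'' * A ω' ω'') := by
      intro ω''
      rw [hr, pow_two, Finset.sum_mul_sum]
      apply Finset.sum_congr rfl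
      intro ω _
      apply Finset.sum_congr rfl
      intro ω' _
      ring
    simp_rw [e1]
    rw [Finset.sum_comm]
    have e2 : ∀ ω, ∑ ω'', ∑ ω', p ω * p ω' * (A ω ω'' * A ω' ω'') = w * p ω ^ 2 := by
      intro ω
      rw [Finset.sum_comm]
      simp_rw [← Finset.mul_sum, hA, mul_ite, mul_zero]
      rw [Finset.sum_ite_eq, if_pos (Finset.mem_univ _)]
      ring
    simp_rw [e2]
    rw [← Finset.mul_sum]
  have hp0 : 0 ≤ ∑ ω, p ω ^ 2 := Finset.sum_nonneg fun _ _ => sq_nonneg _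
  rw [h1, ← Real.sqrt_mul hw, ← h2, ← Real.sqrt_mul (Finset.sum_nonneg fun _ _ => sq_nonneg _)]
  apply Real.abs_le_sqrt
  exact Finset.sum_mul_sq_le_sq_mul_sq _ _ _

/-- A block matrix bound. -/
theorem block_bound {X W : Type*} [Fintype X] [Fintype W] [DecidableEq W] (A : W → W → ℝ) (w : ℝ)
    (hw : 0 ≤ w)
    (hA : ∀ ω ω', ∑ ω'', A ω ω'' * A ω' ω'' = if ω = ω' then w else 0) (M : X → X → ℝ)
    (hM : ∀ i j, M i j = M j i) (R : ℝ) (hR : ∀ i, ∑ j, |M i j| ≤ R) (G : X → W → ℝ) :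
    |∑ i, ∑ j, M i j * ∑ ω, ∑ ω', A ω ω' * G i ω * G j ω'| ≤
      R * Real.sqrt w * ∑ i, ∑ ω, G i ω ^ 2 := by
  set a : X → ℝ := fun i => ∑ ω, G i ω ^ 2 with ha
  have ha0 : ∀ i, 0 ≤ a i := fun i => Finset.sum_nonneg fun _ _ => sq_nonneg _
  have h1 : ∀ i j, |M i j * ∑ ω, ∑ ω', A ω ω' * G i ω * G j ω'|
      ≤ |M i j| * (Real.sqrt w * ((a i + a j) / 2)) := by
    intro i j
    rw [abs_mul]
    apply mul_le_mul_of_nonneg_left _ (abs_nonneg _)
    refine (bilin_bound A w hw hA (G i) (G j)).trans ?_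
    rw [mul_assoc]
    apply mul_le_mul_of_nonneg_left _ (Real.sqrt_nonneg _)
    have e1 := Real.sq_sqrt (ha0 i)
    have e2 := Real.sq_sqrt (ha0 j)
    have e3 := sq_nonneg (Real.sqrt (a i) - Real.sqrt (a j))
    change Real.sqrt (a i) * Real.sqrt (a j) ≤ _
    nlinarith
  refine (Finset.abs_sum_le_sum_abs _ _).trans ?_
  refine (Finset.sum_le_sum fun i _ => Finset.abs_sum_le_sum_abs _ _).trans ?_
  refine (Finset.sum_le_sum fun i _ => Finset.sum_le_sum fun j _ => h1 i j).trans ?_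
  have h2 : ∑ i, ∑ j, |M i j| * (Real.sqrt w * ((a i + a j) / 2))
      = Real.sqrt w * ∑ i, a i * ∑ j, |M i j| := by
    have e1 : ∀ i j, |M i j| * (Real.sqrt w * ((a i + a j) / 2))
        = Real.sqrt w / 2 * (a i * |M i j|) + Real.sqrt w / 2 * (a j * |M i j|) := by
      intro i j
      ring
    simp_rw [e1, Finset.sum_add_distrib]
    have e2 : ∑ i, ∑ j, Real.sqrt w / 2 * (a j * |M i j|)
        = ∑ i, ∑ j, Real.sqrt w / 2 * (a i * |M i j|) := by
      rw [Finset.sum_comm]
      apply Finset.sum_congr rfl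
      intro i _
      apply Finset.sum_congr rfl
      intro j _
      rw [hM i j]
    rw [e2]
    simp_rw [← Finset.mul_sum]
    ring
  rw [h2]
  have h3 : ∑ i, a i * ∑ j, |M i j| ≤ R * ∑ i, a i := by
    rw [Finset.mul_sum]
    apply Finset.sum_le_sum
    intro i _
    rw [mul_comm]
    exact mul_le_mul_of_nonneg_right (hR i) (ha0 i)
  calc Real.sqrt w * ∑ i, a i * ∑ j, |M i j| ≤ Real.sqrt w * (R * ∑ i, a i) :=
        mul_le_mul_of_nonneg_left h3 (Real.sqrt_nonneg _)
    _ = _ := by ring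

section

set_option linter.unusedSectionVars false

variable {K : Type*} [Field K] [Fintype K] [DecidableEq K] [CharP K 2]

/-- the indicator function of `0` as an average of characters -/
theorem ind_eq (Ψ : K → ℝ) (hΨ1 : Ψ 0 = 1)
    (hΨ0 : ∀ c ≠ 0, ∑ a, Ψ (c * a) = 0) (y : K) :
    (if y = 0 then (1 : ℝ) else 0) = (Fintype.card K : ℝ)⁻¹ * ∑ c, Ψ (c * y) := by
  have hK : (Fintype.card K : ℝ) ≠ 0 := by
    exact_mod_cast Fintype.card_ne_zero
  split_ifs with h
  · subst h
    simp only [mul_zero, hΨ1]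
    rw [Finset.sum_const, Finset.card_univ, nsmul_eq_mul, mul_one, inv_mul_cancel₀ hK]
  · have : ∑ c, Ψ (c * y) = 0 := by
      rw [← hΨ0 y h]
      exact Finset.sum_congr rfl fun c _ => by rw [mul_comm]
    rw [this, mul_zero]

theorem parseval (Ψ : K → ℝ) (hΨ1 : Ψ 0 = 1) (hΨadd : ∀ a b, Ψ (a + b) = Ψ a * Ψ b)
    (hΨ0 : ∀ c ≠ 0, ∑ a, Ψ (c * a) = 0) (g : K → ℝ) :
    ∑ c, (∑ β, Ψ (c * β) * g β) ^ 2 = (Fintype.card K : ℝ) * ∑ β, g β ^ 2 := by
  have hK : (Fintype.card K : ℝ) ≠ 0 := by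
    exact_mod_cast Fintype.card_ne_zero
  have h1 : ∀ c, (∑ β, Ψ (c * β) * g β) ^ 2
      = ∑ β, ∑ β', g β * g β' * Ψ (c * (β + β')) := by
    intro c
    rw [pow_two, Finset.sum_mul_sum]
    apply Finset.sum_congr rfl
    intro β _
    apply Finset.sum_congr rfl
    intro β' _
    rw [mul_add, hΨadd]
    ring
  simp_rw [h1]
  rw [Finset.sum_comm, Finset.mul_sum]
  apply Finset.sum_congr rfl
  intro β _
  rw [Finset.sum_comm]
  have h2 : ∀ β', ∑ c, g β * g β' * Ψ (c * (β + β'))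
      = if β = β' then (Fintype.card K : ℝ) * (g β * g β') else 0 := by
    intro β'
    rw [← Finset.mul_sum]
    have := ind_eq Ψ hΨ1 hΨ0 (β + β')
    have e : ∑ c, Ψ (c * (β + β')) = (Fintype.card K : ℝ) * (if β + β' = 0 then (1 : ℝ) else 0) := by
      rw [this, ← mul_assoc, mul_inv_cancel₀ hK, one_mul]
    rw [e]
    by_cases h : β = β'
    · rw [if_pos h, if_pos (by rw [h]; exact CharTwo.add_self_eq_zero _)]
      ring
    · rw [if_neg h, if_neg (fun h' => h (CharTwo.add_eq_zero.1 h'))]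
      ring
  simp_rw [h2]
  rw [Finset.sum_ite_eq, if_pos (Finset.mem_univ _)]
  ring

theorem sum_triple {X W : Type*} [Fintype X] [Fintype W] (h : X × K × W → ℝ) (φ : X → W → ℝ) :
    ∑ v, h v * φ v.1 v.2.2 = ∑ i, ∑ ω, (∑ β, h (i, β, ω)) * φ i ω := by
  rw [Fintype.sum_prod_type]
  apply Finset.sum_congr rfl
  intro i _
  rw [Fintype.sum_prod_type, Finset.sum_comm]
  apply Finset.sum_congr rfl
  intro ω _
  rw [Finset.sum_mul]

theorem sum_triple_two {X W : Type*} [Fintype X] [Fintype W] (h : X × K × W → ℝ)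
    (M : X → X → ℝ) (A : W → W → ℝ) :
    ∑ v, ∑ v', M v.1 v'.1 * A v.2.2 v'.2.2 * h v * h v'
      = ∑ i, ∑ j, M i j * ∑ ω, ∑ ω', A ω ω' * (∑ β, h (i, β, ω)) * (∑ β, h (j, β, ω')) := by
  obtain ⟨H, hH⟩ : ∃ H : X → W → ℝ, ∀ i ω, ∑ β, h (i, β, ω) = H i ω := ⟨_, fun _ _ => rfl⟩
  simp_rw [hH]
  set φ : X → W → ℝ := fun i ω => ∑ j, ∑ ω', H j ω' * (M i j * A ω ω') with hφ
  have h1 : ∀ v, ∑ v', M v.1 v'.1 * A v.2.2 v'.2.2 * h v * h v' = h v * φ v.1 v.2.2 := by
    intro v
    have e := sum_triple h (fun j ω' => M v.1 j * A v.2.2 ω')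
    simp_rw [hH] at e
    rw [hφ]
    beta_reduce
    rw [← e, Finset.mul_sum]
    apply Finset.sum_congr rfl
    intro v' _
    ring
  rw [Finset.sum_congr rfl (fun v _ => h1 v), sum_triple h φ]
  simp_rw [hH]
  apply Finset.sum_congr rfl
  intro i _
  rw [hφ]
  simp_rw [Finset.mul_sum]
  rw [Finset.sum_comm]
  apply Finset.sum_congr rfl
  intro j _
  apply Finset.sum_congr rfl
  intro ω _
  apply Finset.sum_congr rfl
  intro ω' _
  ring

theorem central_bound {X W : Type*} [Fintype X] [Fintype W] [DecidableEq W]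
    (Ψ : K → ℝ) (hΨ1 : Ψ 0 = 1) (hΨadd : ∀ a b, Ψ (a + b) = Ψ a * Ψ b)
    (hΨ0 : ∀ c ≠ 0, ∑ a, Ψ (c * a) = 0) (x : X → K) (hx : ∀ i, x i ≠ 0)
    (hinj : Function.Injective x) (B : W → W → K)
    (hB : ∀ c ≠ 0, ∀ ω ω', ∑ ω'', Ψ (c * B ω ω'') * Ψ (c * B ω' ω'')
      = if ω = ω' then (Fintype.card W : ℝ) else 0)
    (R : ℝ) (hR0 : 0 ≤ R)
    (hR : ∀ c ≠ 0, ∀ i, ∑ j, |∑ b, Ψ (c / (x i * x j) * x b)| ≤ R)
    (g : X × K × W → ℝ) (hg : ∑ v, g v = 0)
    [∀ v v' : X × K × W,
      Decidable (∃ b, x v.1 * x v'.1 * (v.2.1 + v'.2.1 + B v.2.2 v'.2.2) = x b)] :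
    |∑ v : X × K × W, ∑ v' : X × K × W,
      (if ∃ b, x v.1 * x v'.1 * (v.2.1 + v'.2.1 + B v.2.2 v'.2.2) = x b
        then g v * g v' else 0)| ≤
      R * Real.sqrt (Fintype.card W) * ∑ v, g v ^ 2 := by
  classical
  set N : ℝ := (Fintype.card K : ℝ) with hN
  have hN0 : 0 < N := by
    rw [hN]
    exact_mod_cast Fintype.card_pos
  set M : K → X → X → ℝ := fun c i j => ∑ b, Ψ (c / (x i * x j) * x b) with hM
  -- the indicator
  have h1 : ∀ v v' : X × K × W,
      (if ∃ b, x v.1 * x v'.1 * (v.2.1 + v'.2.1 + B v.2.2 v'.2.2) = x b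
        then g v * g v' else 0)
      = N⁻¹ * ∑ c, M c v.1 v'.1 * Ψ (c * B v.2.2 v'.2.2) * (Ψ (c * v.2.1) * g v)
          * (Ψ (c * v'.2.1) * g v') := by
    intro v v'
    have hxx : x v.1 * x v'.1 ≠ 0 := mul_ne_zero (hx _) (hx _)
    set s := v.2.1 + v'.2.1 + B v.2.2 v'.2.2 with hs
    have e1 : (if ∃ b, x v.1 * x v'.1 * s = x b then g v * g v' else 0)
        = ∑ b, (if s + x b / (x v.1 * x v'.1) = 0 then (1 : ℝ) else 0) * (g v * g v') := by
      have e2 : ∀ b, (s + x b / (x v.1 * x v'.1) = 0) ↔ x v.1 * x v'.1 * s = x b := by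
        intro b
        rw [CharTwo.add_eq_zero, eq_div_iff hxx, mul_comm]
      simp_rw [e2]
      rw [← Finset.sum_mul]
      split_ifs with h
      · obtain ⟨b, hb⟩ := h
        have e3 : ∀ b', (x v.1 * x v'.1 * s = x b') ↔ b = b' := by
          intro b'
          rw [hb]
          exact hinj.eq_iff
        simp_rw [e3]
        rw [Finset.sum_ite_eq, if_pos (Finset.mem_univ _), one_mul]
      · have e3 : ∀ b', ¬ (x v.1 * x v'.1 * s = x b') := fun b' hb' => h ⟨b', hb'⟩
        simp only [e3, if_false, Finset.sum_const_zero, zero_mul]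
    rw [e1]
    simp_rw [ind_eq Ψ hΨ1 hΨ0]
    simp_rw [Finset.mul_sum, Finset.sum_mul]
    rw [Finset.sum_comm]
    apply Finset.sum_congr rfl
    intro c _
    rw [hM]
    beta_reduce
    rw [Finset.sum_mul, Finset.sum_mul, Finset.sum_mul, Finset.mul_sum]
    apply Finset.sum_congr rfl
    intro b _
    have e4 : c * (s + x b / (x v.1 * x v'.1))
        = c * v.2.1 + c * v'.2.1 + c * B v.2.2 v'.2.2 + c / (x v.1 * x v'.1) * x b := by
      rw [hs]
      field_simp
    rw [e4, hΨadd, hΨadd, hΨadd]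
    ring
  simp_rw [h1]
  simp_rw [← Finset.mul_sum]
  have h2 : ∑ v : X × K × W, ∑ v' : X × K × W, ∑ c, M c v.1 v'.1 * Ψ (c * B v.2.2 v'.2.2)
        * (Ψ (c * v.2.1) * g v) * (Ψ (c * v'.2.1) * g v')
      = ∑ c, ∑ v : X × K × W, ∑ v' : X × K × W, M c v.1 v'.1 * Ψ (c * B v.2.2 v'.2.2)
        * (Ψ (c * v.2.1) * g v) * (Ψ (c * v'.2.1) * g v') := by
    rw [Finset.sum_comm (s := (univ : Finset K))]
    apply Finset.sum_congr rfl
    intro v _
    rw [Finset.sum_comm]
  rw [h2]
  have h3 : ∀ c, ∑ v : X × K × W, ∑ v' : X × K × W, M c v.1 v'.1 * Ψ (c * B v.2.2 v'.2.2)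
        * (Ψ (c * v.2.1) * g v) * (Ψ (c * v'.2.1) * g v')
      = ∑ i, ∑ j, M c i j * ∑ ω, ∑ ω', Ψ (c * B ω ω') * (∑ β, Ψ (c * β) * g (i, β, ω))
          * (∑ β, Ψ (c * β) * g (j, β, ω')) := by
    intro c
    exact sum_triple_two (fun v => Ψ (c * v.2.1) * g v) (M c) (fun ω ω' => Ψ (c * B ω ω'))
  simp_rw [h3]
  have h4 : ∀ c, |∑ i, ∑ j, M c i j * ∑ ω, ∑ ω', Ψ (c * B ω ω')
        * (∑ β, Ψ (c * β) * g (i, β, ω)) * (∑ β, Ψ (c * β) * g (j, β, ω'))|
      ≤ R * Real.sqrt (Fintype.card W) * ∑ i, ∑ ω, (∑ β, Ψ (c * β) * g (i, β, ω)) ^ 2 := by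
    intro c
    by_cases hc : c = 0
    · subst hc
      have e1 : ∑ i, ∑ j, M 0 i j * ∑ ω, ∑ ω', Ψ (0 * B ω ω')
        * (∑ β, Ψ (0 * β) * g (i, β, ω)) * (∑ β, Ψ (0 * β) * g (j, β, ω')) = 0 := by
        rw [← h3]
        have e2 : ∀ v v' : X × K × W, M 0 v.1 v'.1 * Ψ (0 * B v.2.2 v'.2.2)
            * (Ψ (0 * v.2.1) * g v) * (Ψ (0 * v'.2.1) * g v')
            = (Fintype.card X : ℝ) * g v * g v' := by
          intro v v'
          rw [hM]
          simp only [zero_mul, zero_div, hΨ1, Finset.sum_const, Finset.card_univ, nsmul_eq_mul,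
            mul_one, one_mul]
        simp_rw [e2, ← Finset.mul_sum, hg, mul_zero]
        rw [Finset.sum_const_zero]
      rw [e1, abs_zero]
      apply mul_nonneg (mul_nonneg hR0 (Real.sqrt_nonneg _))
      exact Finset.sum_nonneg fun _ _ => Finset.sum_nonneg fun _ _ => sq_nonneg _
    · apply block_bound (fun ω ω' => Ψ (c * B ω ω')) (Fintype.card W : ℝ) (by positivity)
        (hB c hc) (M c) _ R (hR c hc)
      intro i j
      rw [hM]
      beta_reduce
      rw [mul_comm (x i)]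
  rw [abs_mul, abs_of_pos (inv_pos.2 hN0)]
  have h5 : |∑ c, ∑ i, ∑ j, M c i j * ∑ ω, ∑ ω', Ψ (c * B ω ω')
        * (∑ β, Ψ (c * β) * g (i, β, ω)) * (∑ β, Ψ (c * β) * g (j, β, ω'))|
      ≤ R * Real.sqrt (Fintype.card W) * (N * ∑ v, g v ^ 2) := by
    refine (Finset.abs_sum_le_sum_abs _ _).trans ?_
    refine (Finset.sum_le_sum fun c _ => h4 c).trans ?_
    rw [← Finset.mul_sum]
    apply le_of_eq
    congr 1
    rw [Finset.sum_comm, Fintype.sum_prod_type, Finset.mul_sum]
    apply Finset.sum_congr rfl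
    intro i _
    rw [Finset.sum_comm, Fintype.sum_prod_type, Finset.sum_comm (s := (univ : Finset K)),
      Finset.mul_sum]
    apply Finset.sum_congr rfl
    intro ω _
    exact parseval Ψ hΨ1 hΨadd hΨ0 (fun β => g (i, β, ω))
  calc N⁻¹ * _ ≤ N⁻¹ * (R * Real.sqrt (Fintype.card W) * (N * ∑ v, g v ^ 2)) :=
        mul_le_mul_of_nonneg_left h5 (inv_pos.2 hN0).le
    _ = _ := by
        field_simp

end

end Pool.Agent.OPG
end

section

set_option autoImplicit false

/-!
The determinant of `T (J + I) + Y` in characteristic two, `Y` symmetric with zero diagonal.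
-/

namespace Pool.Agent.OPG

open Polynomial Finset

/-- If `Y = q E + B C` with inner dimension `r`, then `q ^ (m - r)` divides `det Y`. -/
theorem pow_dvd_det {R ι κ : Type*} [CommRing R] [IsDomain R] [Fintype ι] [DecidableEq ι]
    [Fintype κ] [DecidableEq κ]
    (q : R) (hq : q ≠ 0) (E : Matrix ι ι R) (B : Matrix ι κ R) (C : Matrix κ ι R) (c : ℕ)
    (hc : Fintype.card κ + c = Fintype.card ι) :
    q ^ c ∣ (q • E + B * C).det := by
  have h1 : (q • E + B * C).det = (Matrix.fromBlocks (q • E) (-B) C 1).det := by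
    rw [Matrix.det_fromBlocks_one₂₂]
    congr 1
    rw [Matrix.neg_mul, sub_neg_eq_add]
  have h2 : Matrix.fromBlocks (q • E) (-B) C 1
        * Matrix.fromBlocks (1 : Matrix ι ι R) 0 0 (q • (1 : Matrix κ κ R))
      = Matrix.fromBlocks (q • (1 : Matrix ι ι R)) 0 0 (1 : Matrix κ κ R)
        * Matrix.fromBlocks E (-B) C (q • (1 : Matrix κ κ R)) := by
    rw [Matrix.fromBlocks_multiply, Matrix.fromBlocks_multiply]
    simp only [Matrix.mul_one, Matrix.mul_zero, Matrix.zero_mul, Matrix.one_mul, Matrix.mul_smul,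
      Matrix.smul_mul, add_zero, zero_add, smul_zero]
  have h3 := congrArg Matrix.det h2
  rw [Matrix.det_mul, Matrix.det_mul, Matrix.det_fromBlocks_zero₂₁, Matrix.det_fromBlocks_zero₂₁,
    Matrix.det_smul, Matrix.det_smul] at h3
  simp only [Matrix.det_one, mul_one, one_mul] at h3
  rw [← h1, ← hc, pow_add] at h3
  have h4 : (q • E + B * C).det = q ^ c * (Matrix.fromBlocks E (-B) C (q • (1 : Matrix κ κ R))).det := by
    have hqk : q ^ Fintype.card κ ≠ 0 := pow_ne_zero _ hq
    apply mul_right_cancel₀ hqk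
    rw [h3]
    ring
  exact ⟨_, h4⟩

theorem det_pair {R n : Type*} [CommRing R] [DecidableEq n] (N : Matrix n n R) (i j : n)
    (hij : i ≠ j) :
    (N.submatrix (Subtype.val : ({i, j} : Finset n) → n) (Subtype.val)).det
      = N i i * N j j - N i j * N j i := by
  have hc : Fintype.card ({i, j} : Finset n) = 2 := by
    rw [Fintype.card_coe, card_pair hij]
  let e := (Fintype.equivFinOfCardEq hc).symm
  rw [← Matrix.det_submatrix_equiv_self e, Matrix.submatrix_submatrix, Matrix.det_fin_two]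
  simp only [Matrix.submatrix_apply, Function.comp_apply]
  have h0 : (e 0).1 = i ∨ (e 0).1 = j := by
    have h := (e 0).2
    rwa [mem_insert, mem_singleton] at h
  have h1 : (e 1).1 = i ∨ (e 1).1 = j := by
    have h := (e 1).2
    rwa [mem_insert, mem_singleton] at h
  have h01 : (e 0).1 ≠ (e 1).1 := by
    intro h
    have := e.injective (Subtype.ext h)
    exact absurd this (by decide)
  rcases h0 with h0 | h0 <;> rcases h1 with h1 | h1
  · exact absurd (h0.trans h1.symm) h01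
  · rw [h0, h1]
  · rw [h0, h1]; ring
  · exact absurd (h0.trans h1.symm) h01

/-- sums over two-element subsets -/
theorem sum_pairs {M : Type*} [AddCommMonoid M] {n : ℕ} (g : Finset (Fin n) → M) :
    ∑ s ∈ powersetCard 2 (univ : Finset (Fin n)), g s
      = ∑ p ∈ (univ : Finset (Fin n × Fin n)).filter (fun p => p.1 < p.2), g {p.1, p.2} := by
  symm
  apply Finset.sum_bij (fun p _ => ({p.1, p.2} : Finset (Fin n)))
  · intro p hp
    rw [mem_filter] at hp
    rw [mem_powersetCard]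
    exact ⟨subset_univ _, card_pair hp.2.ne⟩
  · intro p hp p' hp' h
    rw [mem_filter] at hp hp'
    have h1 : p.1 ∈ ({p'.1, p'.2} : Finset (Fin n)) := by rw [← h]; simp
    have h2 : p.2 ∈ ({p'.1, p'.2} : Finset (Fin n)) := by rw [← h]; simp
    rw [mem_insert, mem_singleton] at h1 h2
    have hp := hp.2
    have hp' := hp'.2
    ext
    · rcases h1 with h1 | h1
      · rw [h1]
      · exfalso
        rcases h2 with h2 | h2
        · rw [h1, h2] at hp; exact absurd hp (not_lt.2 hp'.le)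
        · rw [h1, h2] at hp; exact lt_irrefl _ hp
    · rcases h2 with h2 | h2
      · exfalso
        rcases h1 with h1 | h1
        · rw [h1, h2] at hp; exact lt_irrefl _ hp
        · rw [h1, h2] at hp; exact absurd hp (not_lt.2 hp'.le)
      · rw [h2]
  · intro s hs
    rw [mem_powersetCard] at hs
    obtain ⟨a, b, hab, rfl⟩ := card_eq_two.1 hs.2
    rcases lt_or_gt_of_ne hab with h | h
    · exact ⟨(a, b), by simp [h], rfl⟩
    · exact ⟨(b, a), by simp [h], by simp [pair_comm]⟩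
  · intro p _
    rfl

/-- The matrix with zero diagonal and ones elsewhere. -/
def offOne (F : Type*) [Zero F] [One F] (n : ℕ) : Matrix (Fin n) (Fin n) F :=
  Matrix.of fun i j => if i = j then 0 else 1

theorem offOne_sq {F : Type*} [CommRing F] [CharP F 2] {n : ℕ} (hn : Even n) :
    offOne F n * offOne F n = 1 := by
  have hm : ((n : ℕ) : F) = 0 := by
    rw [CharP.cast_eq_zero_iff F 2]
    exact hn.two_dvd
  have h2 : (1 : F) + 1 = 0 := CharTwo.add_self_eq_zero 1
  ext i j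
  rw [Matrix.mul_apply, Matrix.one_apply]
  have e1 : ∀ l, offOne F n i l * offOne F n l j = 1 - (if i = l then (1 : F) else 0)
      - (if l = j then (1 : F) else 0)
      + (if i = l then (if l = j then (1 : F) else 0) else 0) := by
    intro l
    simp only [offOne, Matrix.of_apply]
    split_ifs <;> ring
  simp_rw [e1]
  rw [Finset.sum_add_distrib, Finset.sum_sub_distrib, Finset.sum_sub_distrib,
    Finset.sum_const, Finset.card_univ, Finset.sum_ite_eq, Finset.sum_ite_eq,
    Finset.sum_ite_eq', nsmul_eq_mul, Fintype.card_fin, hm]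
  simp only [Finset.mem_univ, if_true]
  have h3 : (0 : F) * 1 - 1 - 1 = 0 := by
    linear_combination -h2
  rw [h3, zero_add]

theorem offOne_mul {F : Type*} [CommRing F] [CharP F 2] {n : ℕ}
    (Y : Matrix (Fin n) (Fin n) F) (i j : Fin n) :
    (offOne F n * Y) i j = (∑ k, Y k j) + Y i j := by
  rw [Matrix.mul_apply]
  have e1 : ∀ k, offOne F n i k * Y k j = Y k j + (if i = k then Y k j else 0) := by
    intro k
    simp only [offOne, Matrix.of_apply]
    split_ifs
    · rw [zero_mul, CharTwo.add_self_eq_zero]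
    · rw [one_mul, add_zero]
  simp_rw [e1]
  rw [Finset.sum_add_distrib, Finset.sum_ite_eq, if_pos (Finset.mem_univ _)]

/-- In characteristic two a symmetric function with zero diagonal has zero total sum. -/
theorem sum_symm_eq_zero {F : Type*} [CommRing F] [CharP F 2] {n : ℕ} (g : Fin n → Fin n → F)
    (hsymm : ∀ i j, g i j = g j i) (h0 : ∀ i, g i i = 0) : ∑ i, ∑ j, g i j = 0 := by
  rw [← Finset.sum_product']
  apply Finset.sum_involution (fun p _ => (p.2, p.1))
  · intro p _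
    rw [hsymm p.1 p.2]
    exact CharTwo.add_self_eq_zero _
  · intro p _ hne h
    apply hne
    have : p.2 = p.1 := congrArg Prod.fst h
    rw [this, h0]
  · intro p _
    simp
  · intro p _
    rfl

theorem sum_lt_symm {F : Type*} [CommRing F] {n : ℕ} (g : Fin n → Fin n → F)
    (h0 : ∀ i, g i i = 0) :
    ∑ p ∈ (univ : Finset (Fin n × Fin n)).filter (fun p => p.1 < p.2), (g p.1 p.2 + g p.2 p.1)
      = ∑ i, ∑ j, g i j := by
  rw [← Finset.sum_product' (f := fun i j => g i j), Finset.sum_add_distrib]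
  have e1 : ∑ p ∈ (univ : Finset (Fin n × Fin n)).filter (fun p => p.1 < p.2), g p.2 p.1
      = ∑ p ∈ (univ : Finset (Fin n × Fin n)).filter (fun p => p.2 < p.1), g p.1 p.2 := by
    apply Finset.sum_bij (fun p _ => (p.2, p.1))
    · intro p hp
      simp only [mem_filter, mem_univ, true_and] at hp ⊢
      exact hp
    · intro p _ p' _ h
      simp only [Prod.mk.injEq] at h
      exact Prod.ext h.2 h.1
    · intro p hp
      simp only [mem_filter, mem_univ, true_and] at hp
      exact ⟨(p.2, p.1), by simpa using hp, rfl⟩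
    · intro p _
      rfl
  rw [e1, Finset.sum_filter, Finset.sum_filter, ← Finset.sum_add_distrib]
  apply Finset.sum_congr rfl
  intro p _
  rcases lt_trichotomy p.1 p.2 with h | h | h
  · rw [if_pos h, if_neg (not_lt.2 h.le), add_zero]
  · rw [if_neg (by rw [h]; exact lt_irrefl _), if_neg (by rw [h]; exact lt_irrefl _), ← h, h0,
      add_zero]
  · rw [if_neg (not_lt.2 h.le), if_pos h, zero_add]

/-- the second coefficient -/
theorem sum_minors {F : Type*} [CommRing F] [CharP F 2] {n : ℕ}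
    (Y : Matrix (Fin n) (Fin n) F) (hsymm : ∀ i j, Y i j = Y j i) (h0 : ∀ i, Y i i = 0) :
    ∑ s ∈ powersetCard 2 (univ : Finset (Fin n)),
      ((offOne F n * Y).submatrix (Subtype.val : s → Fin n) (Subtype.val : s → Fin n)).det
      = (∑ p ∈ (univ : Finset (Fin n × Fin n)).filter (fun p => p.1 < p.2), Y p.1 p.2) ^ 2 := by
  rw [sum_pairs (fun s => ((offOne F n * Y).submatrix (Subtype.val : s → Fin n)
    (Subtype.val : s → Fin n)).det)]
  set r : Fin n → F := fun j => ∑ k, Y k j with hr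
  have e1 : ∀ p ∈ (univ : Finset (Fin n × Fin n)).filter (fun p => p.1 < p.2),
      ((offOne F n * Y).submatrix (Subtype.val : ({p.1, p.2} : Finset (Fin n)) → Fin n)
        (Subtype.val : ({p.1, p.2} : Finset (Fin n)) → Fin n)).det
        = (Y p.1 p.2 * r p.1 + Y p.2 p.1 * r p.2) + Y p.1 p.2 ^ 2 := by
    intro p hp
    rw [mem_filter] at hp
    rw [det_pair _ _ _ hp.2.ne, offOne_mul, offOne_mul, offOne_mul, offOne_mul, h0, h0,
      hsymm p.2 p.1]
    have h2 : (2 : F) = 0 := CharTwo.two_eq_zero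
    change (r p.1 + 0) * (r p.2 + 0) - (r p.2 + Y p.1 p.2) * (r p.1 + Y p.1 p.2)
      = (Y p.1 p.2 * r p.1 + Y p.1 p.2 * r p.2) + Y p.1 p.2 ^ 2
    linear_combination (-(Y p.1 p.2 * r p.1 + Y p.1 p.2 * r p.2 + Y p.1 p.2 ^ 2)) * h2
  rw [Finset.sum_congr rfl e1, Finset.sum_add_distrib,
    sum_lt_symm (fun i j => Y i j * r i) (fun i => by rw [h0, zero_mul])]
  have e2 : ∑ i, ∑ j, Y i j * r i = 0 := by
    have e3 : ∀ i, ∑ j, Y i j * r i = r i ^ 2 := by
      intro i
      rw [← Finset.sum_mul, pow_two]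
      congr 1
      rw [hr]
      exact Finset.sum_congr rfl fun j _ => hsymm i j
    simp_rw [e3]
    rw [← CharTwo.sum_sq]
    have e4 : ∑ i, r i = 0 := by
      rw [hr]
      exact sum_symm_eq_zero (fun j k => Y k j) (fun i j => hsymm _ _) h0
    rw [e4]
    ring
  rw [e2, zero_add, CharTwo.sum_sq]

end Pool.Agent.OPG
end

section

set_option autoImplicit false

namespace Pool.Agent.OPG

open Polynomial Finset

/-- the coefficient of `X ^ (2 (m - 1))` in the square -/
theorem coeff_sq {F : Type*} [Field F] [CharP F 2] (f : F[X]) (k : ℕ) :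
    (f ^ 2).coeff (2 * k) = f.coeff k ^ 2 := by
  have : Fact (Nat.Prime 2) := ⟨Nat.prime_two⟩
  rw [← map_frobenius_expand (R := F) (p := 2), coeff_map, mul_comm,
    coeff_expand_mul (by norm_num), frobenius_def]

theorem trace_mem {F K : Type*} [Field F] [CharP F 2] [Field K] [Algebra F K] (θ : K)
    (m n : ℕ) (hn : n = 2 * m) (hm : 1 ≤ m) (f : F[X]) (hf : f.Monic) (hdeg : f.natDegree = m)
    (hmin : ∀ g : F[X], aeval θ g = 0 → f ∣ g) (hsurj : ∀ y : K, ∃ g : F[X], aeval θ g = y)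
    (U : AddSubgroup F) {κ : Type*} [Fintype κ] [DecidableEq κ]
    (hκ : Fintype.card κ + 2 = 2 * m)
    (P : Matrix (Fin n) κ K) (Q : Matrix κ (Fin n) K)
    (u : Fin n → Fin n → F)
    (hu : ∀ i j, i ≠ j → u i j ∈ U) (hsymm : ∀ i j, u i j = u j i) (hu0 : ∀ i, u i i = 0)
    (hPQ : ∀ i j, i ≠ j → (P * Q) i j = θ + algebraMap F K (u i j))
    (hPQ0 : ∀ i, (P * Q) i i = 0) : f.coeff (m - 1) ∈ U := by
  classical
  have hne : Even n := ⟨m, by omega⟩
  set Y : Matrix (Fin n) (Fin n) F := Matrix.of u with hY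
  set M : Matrix (Fin n) (Fin n) F[X] := (X : F[X]) • (offOne F n).map C + Y.map C with hM
  choose lift hlift using hsurj
  set Pl : Matrix (Fin n) κ F[X] := P.map lift with hPl
  set Ql : Matrix κ (Fin n) F[X] := Q.map lift with hQl
  have h1 : ∀ i j, f ∣ (M - Pl * Ql) i j := by
    intro i j
    apply hmin
    have e1 : aeval θ ((Pl * Ql) i j) = (P * Q) i j := by
      rw [Matrix.mul_apply, Matrix.mul_apply, map_sum]
      apply Finset.sum_congr rfl
      intro k _
      rw [map_mul, hPl, hQl, Matrix.map_apply, Matrix.map_apply, hlift, hlift]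
    rw [Matrix.sub_apply, map_sub, e1, hM, Matrix.add_apply, Matrix.smul_apply, Matrix.map_apply,
      Matrix.map_apply, hY, Matrix.of_apply, smul_eq_mul, map_add, map_mul, aeval_X, aeval_C,
      aeval_C]
    by_cases hij : i = j
    · subst hij
      rw [hPQ0, hu0]
      simp [offOne]
    · rw [hPQ i j hij]
      simp [offOne, hij]
  choose E hE using h1
  have h2 : M = f • (Matrix.of E) + Pl * Ql := by
    ext1 i j
    have := hE i j
    rw [Matrix.add_apply, Matrix.smul_apply, Matrix.of_apply, smul_eq_mul, ← this,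
      Matrix.sub_apply]
    ring
  have hdvd : f ^ 2 ∣ M.det := by
    rw [h2]
    apply pow_dvd_det f hf.ne_zero
    rw [hκ, Fintype.card_fin, hn]
  set N : Matrix (Fin n) (Fin n) F := offOne F n * Y with hN
  have h3 : (offOne F n).map C * M = N.charmatrix := by
    rw [hM, Matrix.mul_add, Matrix.mul_smul, ← Matrix.map_mul, offOne_sq hne, ← Matrix.map_mul,
      Matrix.map_one C C_0 C_1, ← hN]
    ext1 i j
    rw [Matrix.charmatrix_apply, Matrix.add_apply, Matrix.smul_apply, Matrix.map_apply,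
      CharTwo.sub_eq_add, Matrix.diagonal_apply, Matrix.one_apply, smul_eq_mul, mul_ite, mul_one,
      mul_zero]
  have h4 : f ^ 2 ∣ N.charpoly := by
    rw [Matrix.charpoly, ← h3, Matrix.det_mul]
    exact hdvd.mul_left _
  have h5 : N.charpoly = f ^ 2 := by
    apply Polynomial.eq_of_monic_of_dvd_of_natDegree_le (hf.pow 2) N.charpoly_monic h4
    rw [Matrix.charpoly_natDegree_eq_dim, hf.natDegree_pow, hdeg, Fintype.card_fin, hn]
  have h6 : N.charpoly.coeff (n - 2)
      = (∑ p ∈ (univ : Finset (Fin n × Fin n)).filter (fun p => p.1 < p.2), Y p.1 p.2) ^ 2 := by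
    have := Matrix.charpoly_coeff_eq_sum_minors N 2 (by rw [Fintype.card_fin]; omega)
    rw [Fintype.card_fin] at this
    rw [this, hN, sum_minors Y hsymm hu0]
    ring
  have h7 : n - 2 = 2 * (m - 1) := by omega
  rw [h5, h7, coeff_sq] at h6
  have h8 : f.coeff (m - 1)
      = ∑ p ∈ (univ : Finset (Fin n × Fin n)).filter (fun p => p.1 < p.2), Y p.1 p.2 := by
    have : Fact (Nat.Prime 2) := ⟨Nat.prime_two⟩
    apply frobenius_inj F 2
    rw [frobenius_def, frobenius_def, h6]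
  rw [h8]
  apply U.sum_mem
  intro p hp
  rw [mem_filter] at hp
  exact hu _ _ hp.2.ne

end Pool.Agent.OPG
end

section

set_option autoImplicit false

namespace Pool.Agent.OPG

open Finset Polynomial

/-- The standard symplectic form (characteristic two). -/
def sp {K : Type*} [Field K] {k : ℕ} (z z' : Fin k → K × K) : K :=
  ∑ l, ((z l).1 * (z' l).2 + (z l).2 * (z' l).1)

variable {K : Type*} [Field K]

theorem sp_comm {k : ℕ} (z z' : Fin k → K × K) : sp z z' = sp z' z := by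
  unfold sp
  apply Finset.sum_congr rfl
  intro l _
  ring

theorem sp_self [CharP K 2] {k : ℕ} (z : Fin k → K × K) : sp z z = 0 := by
  unfold sp
  apply Finset.sum_eq_zero
  intro l _
  rw [mul_comm]
  exact CharTwo.add_self_eq_zero _

theorem sp_add_right {k : ℕ} (z a b : Fin k → K × K) : sp z (a + b) = sp z a + sp z b := by
  unfold sp
  rw [← Finset.sum_add_distrib]
  apply Finset.sum_congr rfl
  intro l _
  simp only [Pi.add_apply, Prod.fst_add, Prod.snd_add]
  ring

theorem sp_add_left {k : ℕ} (z a b : Fin k → K × K) : sp (a + b) z = sp a z + sp b z := by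
  rw [sp_comm, sp_add_right, sp_comm z a, sp_comm z b]

theorem sp_surj {k : ℕ} (z : Fin k → K × K) (hz : z ≠ 0) (a : K) :
    ∃ z' : Fin k → K × K, sp z z' = a := by
  classical
  obtain ⟨l, hl⟩ : ∃ l, z l ≠ 0 := by
    by_contra h
    push Not at h
    exact hz (funext h)
  by_cases h1 : (z l).1 = 0
  · have h2 : (z l).2 ≠ 0 := fun h2 => hl (Prod.ext h1 h2)
    refine ⟨Pi.single l (a / (z l).2, 0), ?_⟩
    unfold sp
    rw [Finset.sum_eq_single l]
    · rw [Pi.single_eq_same]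
      simp only [mul_zero, zero_add]
      field_simp
    · intro l' _ hl'
      rw [Pi.single_eq_of_ne hl']
      simp
    · intro h
      exact absurd (Finset.mem_univ l) h
  · refine ⟨Pi.single l (0, a / (z l).1), ?_⟩
    unfold sp
    rw [Finset.sum_eq_single l]
    · rw [Pi.single_eq_same]
      simp only [mul_zero, add_zero]
      field_simp
    · intro l' _ hl'
      rw [Pi.single_eq_of_ne hl']
      simp
    · intro h
      exact absurd (Finset.mem_univ l) h

theorem sp_orth [Fintype K] [DecidableEq K] [CharP K 2] {k : ℕ} (h : K →+ ZMod 2) (v : K)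
    (hv : h v ≠ 0) (c : K) (hc : c ≠ 0) (ω ω' : Fin k → K × K) :
    ∑ ω'', sg (h (c * sp ω ω'')) * sg (h (c * sp ω' ω''))
      = if ω = ω' then (Fintype.card (Fin k → K × K) : ℝ) else 0 := by
  split_ifs with heq
  · subst heq
    simp_rw [sg_sq]
    rw [Finset.sum_const, Finset.card_univ, nsmul_eq_mul, mul_one]
  · have hne : ω + ω' ≠ 0 := by
      intro h0
      apply heq
      funext l
      have := congrFun h0 l
      rw [Pi.add_apply, Pi.zero_apply] at this
      have h1 := congrArg Prod.fst this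
      have h2 := congrArg Prod.snd this
      rw [Prod.fst_add, Prod.fst_zero, CharTwo.add_eq_zero] at h1
      rw [Prod.snd_add, Prod.snd_zero, CharTwo.add_eq_zero] at h2
      exact Prod.ext h1 h2
    obtain ⟨z', hz'⟩ := sp_surj (ω + ω') hne (c⁻¹ * v)
    let H : (Fin k → K × K) →+ ZMod 2 :=
      { toFun := fun z => h (c * sp (ω + ω') z)
        map_zero' := by
          have : sp (ω + ω') (0 : Fin k → K × K) = 0 := by
            unfold sp
            apply Finset.sum_eq_zero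
            intro l _
            simp
          rw [this, mul_zero, map_zero]
        map_add' := fun a b => by
          rw [sp_add_right, mul_add, map_add] }
    have hH : H z' ≠ 0 := by
      change h (c * sp (ω + ω') z') ≠ 0
      rw [hz', ← mul_assoc, mul_inv_cancel₀ hc, one_mul]
      exact hv
    have e := sum_sg H z' hH
    rw [← e]
    apply Finset.sum_congr rfl
    intro ω'' _
    change _ = sg (h (c * sp (ω + ω') ω''))
    rw [sp_add_left, mul_add, map_add, sg_add]

/-- No `2 m` vectors of `K ^ (2 m - 2)` have all pairwise symplectic products in `θ + U`. -/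
theorem no_gram {F : Type*} [Field F] [CharP F 2] [Algebra F K] [CharP K 2] (θ : K)
    (k : ℕ) (f : F[X]) (hf : f.Monic) (hdeg : f.natDegree = k + 2)
    (hmin : ∀ g : F[X], aeval θ g = 0 → f ∣ g) (hsurj : ∀ y : K, ∃ g : F[X], aeval θ g = y)
    (U : AddSubgroup F) (hU : f.coeff (k + 1) ∉ U)
    (z : Fin (2 * k + 4) → Fin (k + 1) → K × K)
    (hz : ∀ i j, i ≠ j → ∃ u ∈ U, sp (z i) (z j) = θ + algebraMap F K u) : False := by
  classical
  apply hU
  choose! u hu using hz
  set P : Matrix (Fin (2 * k + 4)) (Fin (k + 1) ⊕ Fin (k + 1)) K :=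
    Matrix.of fun i s => Sum.elim (fun l => (z i l).1) (fun l => (z i l).2) s with hP
  set Q : Matrix (Fin (k + 1) ⊕ Fin (k + 1)) (Fin (2 * k + 4)) K :=
    Matrix.of fun s j => Sum.elim (fun l => (z j l).2) (fun l => (z j l).1) s with hQ
  have hPQ : ∀ i j, (P * Q) i j = sp (z i) (z j) := by
    intro i j
    rw [Matrix.mul_apply, Fintype.sum_sum_type]
    simp only [hP, hQ, Matrix.of_apply, Sum.elim_inl, Sum.elim_inr]
    rw [← Finset.sum_add_distrib]
    rfl
  have hinj : Function.Injective (algebraMap F K) := (algebraMap F K).injective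
  have := trace_mem θ (k + 2) (2 * k + 4) (by ring) (by omega) f hf hdeg hmin hsurj U
    (κ := Fin (k + 1) ⊕ Fin (k + 1))
    (by rw [Fintype.card_sum, Fintype.card_fin]; ring) P Q
    (fun i j => if i = j then 0 else u i j)
    (fun i j hij => by
      simp only [if_neg hij]
      exact (hu i j hij).1)
    (fun i j => by
      by_cases hij : i = j
      · subst hij
        rfl
      · simp only [if_neg hij, if_neg (Ne.symm hij)]
        apply hinj
        have h1 := (hu i j hij).2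
        have h2 := (hu j i (Ne.symm hij)).2
        rw [sp_comm, h2] at h1
        exact (add_left_cancel h1).symm)
    (fun i => by simp only [if_true])
    (fun i j hij => by
      rw [hPQ]
      simp only [if_neg hij]
      exact (hu i j hij).2)
    (fun i => by
      rw [hPQ]
      exact sp_self _)
  exact this

end Pool.Agent.OPG
end

section

set_option autoImplicit false
set_option linter.unusedSectionVars false

namespace Pool.Agent.OPG

open Finset Polynomial

section

variable {F K : Type} [Field F] [Fintype F] [DecidableEq F] [CharP F 2] [Field K] [Fintype K]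
  [DecidableEq K] [CharP K 2] [Algebra F K]

/-- The map from the kernel to the small elements. -/
def xm (l : F →+ ZMod 2) (θ : K) (u : KX l) : K := θ - algebraMap F K u

/-- Vertices. -/
abbrev OV (l : F →+ ZMod 2) (K : Type) (k : ℕ) : Type := KX l × K × (Fin k → K × K)

/-- The graph for odd cliques. -/
def oddGraph (l : F →+ ZMod 2) (θ : K) (hne : ∀ c : F, θ - algebraMap F K c ≠ 0) (k : ℕ) :
    SimpleGraph (OV l K k) where
  Adj v v' := ∃ b, xm l θ v.1 * xm l θ v'.1 * (v.2.1 + v'.2.1 + sp v.2.2 v'.2.2) = xm l θ b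
  symm := ⟨fun v v' h => by
    obtain ⟨b, hb⟩ := h
    refine ⟨b, ?_⟩
    rw [← hb, sp_comm v.2.2]
    ring⟩
  loopless := ⟨fun v h => by
    obtain ⟨b, hb⟩ := h
    rw [sp_self, add_zero, CharTwo.add_self_eq_zero, mul_zero] at hb
    exact hne b hb.symm⟩

theorem xm_ne (l : F →+ ZMod 2) (θ : K) (hne : ∀ c : F, θ - algebraMap F K c ≠ 0) (u : KX l) :
    xm l θ u ≠ 0 := hne u

theorem xm_inj (l : F →+ ZMod 2) (θ : K) : Function.Injective (xm l θ) := by
  intro a b h
  unfold xm at h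
  have h1 : algebraMap F K a = algebraMap F K b := by linear_combination -h
  exact Subtype.ext ((algebraMap F K).injective h1)

/-- The vector attached to a vertex. -/
def vec (l : F →+ ZMod 2) (θ : K) {k : ℕ} (v : OV l K k) : Fin (k + 1) → K × K :=
  Fin.cons (xm l θ v.1, xm l θ v.1 * v.2.1)
    (fun i => (xm l θ v.1 * (v.2.2 i).1, xm l θ v.1 * (v.2.2 i).2))

theorem sp_vec (l : F →+ ZMod 2) (θ : K) {k : ℕ} (v v' : OV l K k) :
    sp (vec l θ v) (vec l θ v')
      = xm l θ v.1 * xm l θ v'.1 * (v.2.1 + v'.2.1 + sp v.2.2 v'.2.2) := by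
  unfold sp vec
  rw [Fin.sum_univ_succ]
  simp only [Fin.cons_zero, Fin.cons_succ]
  rw [mul_add, Finset.mul_sum]
  congr 1
  · ring
  · apply Finset.sum_congr rfl
    intro i _
    ring

theorem sp_vec0 (l : F →+ ZMod 2) (θ : K) {k : ℕ} (v : OV l K k) :
    sp (Fin.cons (0, 1) (fun _ => (0, 0))) (vec l θ v) = xm l θ v.1 := by
  unfold sp vec
  rw [Fin.sum_univ_succ]
  simp only [Fin.cons_zero, Fin.cons_succ]
  simp

theorem oddGraph_cliqueFree (l : F →+ ZMod 2) (θ : K)
    (hne : ∀ c : F, θ - algebraMap F K c ≠ 0) (k : ℕ) (f : F[X]) (hf : f.Monic)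
    (hdeg : f.natDegree = k + 2)
    (hmin : ∀ g : F[X], aeval θ g = 0 → f ∣ g) (hsurj : ∀ y : K, ∃ g : F[X], aeval θ g = y)
    (hl : l (f.coeff (k + 1)) ≠ 0) : (oddGraph l θ hne k).CliqueFree (2 * k + 3) := by
  classical
  by_contra hcon
  rw [SimpleGraph.not_cliqueFree_iff_top_isContained] at hcon
  obtain ⟨φ⟩ := hcon
  have hφ : ∀ i j, i ≠ j → (oddGraph l θ hne k).Adj (φ i) (φ j) := by
    intro i j hij
    exact φ.toHom.map_adj hij
  set z : Fin (2 * k + 3 + 1) → Fin (k + 1) → K × K :=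
    Fin.cons (Fin.cons (0, 1) (fun _ => (0, 0))) (fun i => vec l θ (φ i)) with hz
  have hU : f.coeff (k + 1) ∉ l.ker := hl
  have key : ∀ i j, i ≠ j → ∃ u ∈ l.ker, sp (z i) (z j) = θ + algebraMap F K u := by
    have hx : ∀ b : KX l, xm l θ b = θ + algebraMap F K b := by
      intro b
      unfold xm
      rw [CharTwo.sub_eq_add]
    intro i j
    refine Fin.cases ?_ (fun i => ?_) i <;> refine Fin.cases ?_ (fun j => ?_) j
    · intro h
      exact absurd rfl h
    · intro _
      refine ⟨(φ j).1, (φ j).1.2, ?_⟩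
      rw [hz, Fin.cons_zero, Fin.cons_succ, sp_vec0, hx]
    · intro _
      refine ⟨(φ i).1, (φ i).1.2, ?_⟩
      rw [hz, Fin.cons_zero, Fin.cons_succ, sp_comm, sp_vec0, hx]
    · intro h
      have hij : i ≠ j := fun h' => h (by rw [h'])
      obtain ⟨b, hb⟩ := hφ i j hij
      refine ⟨b, b.2, ?_⟩
      rw [hz, Fin.cons_succ, Fin.cons_succ, sp_vec, hb, hx]
  exact no_gram θ k f hf hdeg hmin hsurj l.ker hU z key

theorem oddGraph_degree (l : F →+ ZMod 2) (θ : K)
    (hne : ∀ c : F, θ - algebraMap F K c ≠ 0) (k : ℕ) (v : OV l K k)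
    [Fintype ((oddGraph l θ hne k).neighborSet v)] :
    (oddGraph l θ hne k).degree v
      = Fintype.card (KX l) * Fintype.card (KX l) * Fintype.card (Fin k → K × K) := by
  classical
  have e : (oddGraph l θ hne k).neighborFinset v
      = (univ : Finset (KX l × KX l × (Fin k → K × K))).image
        (fun p => (p.1, xm l θ p.2.1 / (xm l θ v.1 * xm l θ p.1) + v.2.1 + sp v.2.2 p.2.2,
          p.2.2)) := by
    ext v'
    rw [SimpleGraph.mem_neighborFinset, mem_image]
    have hxx : xm l θ v.1 * xm l θ v'.1 ≠ 0 := mul_ne_zero (xm_ne l θ hne _) (xm_ne l θ hne _)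
    constructor
    · rintro ⟨b, hb⟩
      refine ⟨(v'.1, b, v'.2.2), mem_univ _, ?_⟩
      refine Prod.ext rfl (Prod.ext ?_ rfl)
      change xm l θ b / (xm l θ v.1 * xm l θ v'.1) + v.2.1 + sp v.2.2 v'.2.2 = v'.2.1
      rw [← hb, mul_div_cancel_left₀ _ hxx]
      have h2 : (2 : K) = 0 := CharTwo.two_eq_zero
      linear_combination (v.2.1 + sp v.2.2 v'.2.2) * h2
    · rintro ⟨⟨j, b, ω⟩, _, rfl⟩
      refine ⟨b, ?_⟩
      change xm l θ v.1 * xm l θ j * (v.2.1 + (xm l θ b / (xm l θ v.1 * xm l θ j) + v.2.1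
        + sp v.2.2 ω) + sp v.2.2 ω) = xm l θ b
      have h2 : (2 : K) = 0 := CharTwo.two_eq_zero
      have hxx : xm l θ v.1 * xm l θ j ≠ 0 := mul_ne_zero (xm_ne l θ hne _) (xm_ne l θ hne _)
      have e1 : v.2.1 + (xm l θ b / (xm l θ v.1 * xm l θ j) + v.2.1
        + sp v.2.2 ω) + sp v.2.2 ω = xm l θ b / (xm l θ v.1 * xm l θ j) := by
        linear_combination (v.2.1 + sp v.2.2 ω) * h2
      rw [e1, mul_div_cancel₀ _ hxx]
  rw [← SimpleGraph.card_neighborFinset_eq_degree, e, card_image_of_injective, card_univ,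
    Fintype.card_prod, Fintype.card_prod, mul_assoc]
  intro p p' h
  simp only [Prod.mk.injEq] at h
  obtain ⟨h1, h2, h3⟩ := h
  rw [h1, h3] at h2
  have hxx : xm l θ v.1 * xm l θ p'.1 ≠ 0 := mul_ne_zero (xm_ne l θ hne _) (xm_ne l θ hne _)
  have h4 : xm l θ p.2.1 / (xm l θ v.1 * xm l θ p'.1)
      = xm l θ p'.2.1 / (xm l θ v.1 * xm l θ p'.1) := by
    linear_combination h2
  have h5 := (div_left_inj' hxx).1 h4
  exact Prod.ext h1 (Prod.ext (xm_inj l θ h5) h3)

theorem oddGraph_spectral (l : F →+ ZMod 2) (v₀ : F) (hv₀ : l v₀ ≠ 0) (θ : K) (m : ℕ)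
    (L : K →ₗ[F] F) (hL : L ≠ 0)
    (hθ : ∀ y : K, ∃ g : F[X], g.natDegree < m ∧ aeval θ g = y)
    (hne : ∀ c : F, θ - algebraMap F K c ≠ 0) (k : ℕ) (g : OV l K k → ℝ) (hg : ∑ v, g v = 0)
    [∀ v v', Decidable ((oddGraph l θ hne k).Adj v v')] :
    |∑ v, ∑ v', (if (oddGraph l θ hne k).Adj v v' then g v * g v' else 0)| ≤
      2 * (m : ℝ) * (Fintype.card (KX l) : ℝ) * Real.sqrt (Fintype.card (Fin k → K × K))
        * ∑ v, g v ^ 2 := by
  have hv : ∃ y : K, (l.comp L.toAddMonoidHom) y ≠ 0 := by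
    obtain ⟨y, hy⟩ : ∃ y, L y ≠ 0 := by
      by_contra h
      push Not at h
      exact hL (LinearMap.ext h)
    refine ⟨(v₀ / L y) • y, ?_⟩
    change l (L ((v₀ / L y) • y)) ≠ 0
    rw [map_smul, smul_eq_mul, div_mul_cancel₀ _ hy]
    exact hv₀
  obtain ⟨y₀, hy₀⟩ := hv
  have c1 : ∀ c : K, c ≠ 0 → ∑ a, sg (l (L (c * a))) = 0 := by
    intro c hc
    exact sum_sg ((l.comp L.toAddMonoidHom).comp (AddMonoidHom.mulLeft c)) (c⁻¹ * y₀) (by
      change l (L (c * (c⁻¹ * y₀))) ≠ 0
      rw [← mul_assoc, mul_inv_cancel₀ hc, one_mul]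
      exact hy₀)
  have c2 : ∀ c : K, c ≠ 0 → ∀ ω ω' : Fin k → K × K,
      ∑ ω'', sg (l (L (c * sp ω ω''))) * sg (l (L (c * sp ω' ω'')))
        = if ω = ω' then (Fintype.card (Fin k → K × K) : ℝ) else 0 := by
    intro c hc ω ω'
    exact sp_orth (l.comp L.toAddMonoidHom) y₀ hy₀ c hc ω ω'
  have c3 : ∀ c : K, c ≠ 0 → ∀ i : KX l,
      ∑ j, |∑ b, sg (l (L (c / (xm l θ i * xm l θ j) * xm l θ b)))|
        ≤ 2 * (m : ℝ) * (Fintype.card (KX l) : ℝ) := by
    intro c hc i
    exact row_bound l v₀ hv₀ L hL θ m hθ hne c hc i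
  have key := central_bound (fun y => sg (l (L y))) (by simp [sg_zero])
    (fun a b => by rw [map_add, map_add, sg_add]) c1 (xm l θ) (xm_ne l θ hne) (xm_inj l θ)
    (fun ω ω' => sp ω ω') c2 (2 * (m : ℝ) * (Fintype.card (KX l) : ℝ)) (by positivity) c3 g hg
  convert key
  exact Iff.rfl

end

end Pool.Agent.OPG
end
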