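import Mathlib
import Pool.Agent.OPG.Mg_MP_fce80c_co.G006

section

set_option autoImplicit false
set_option linter.unusedSectionVars false

namespace Pool.Agent.OPG

open Finset

/-- A block matrix bound, operator norm version. -/
theorem block_bound_op {Y W : Type*} [Fintype Y] [Fintype W] [DecidableEq W] (A : W → W → ℝ)
    (w : ℝ) (hw : 0 ≤ w)
    (hA : ∀ ω ω', ∑ ω'', A ω ω'' * A ω' ω'' = if ω = ω' then w else 0) (M : Y → Y → ℝ)
    (R : ℝ) (hR0 : 0 ≤ R)
    (hR : ∀ g h : Y → ℝ, |∑ i, ∑ j, M i j * g i * h j|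
      ≤ R * Real.sqrt (∑ i, g i ^ 2) * Real.sqrt (∑ i, h i ^ 2)) (G : Y → W → ℝ) :
    |∑ i, ∑ j, M i j * ∑ ω, ∑ ω', A ω ω' * G i ω * G j ω'| ≤
      R * Real.sqrt w * ∑ i, ∑ ω, G i ω ^ 2 := by
  set r : Y → W → ℝ := fun i ω'' => ∑ ω, G i ω * A ω ω'' with hr
  have h1 : ∑ i, ∑ j, M i j * ∑ ω, ∑ ω', A ω ω' * G i ω * G j ω'
      = ∑ ω', ∑ i, ∑ j, M i j * r i ω' * G j ω' := by
    rw [Finset.sum_comm (s := (univ : Finset W))]
    apply Finset.sum_congr rfl
    intro i _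
    rw [Finset.sum_comm (s := (univ : Finset W))]
    apply Finset.sum_congr rfl
    intro j _
    rw [Finset.sum_comm, Finset.mul_sum]
    apply Finset.sum_congr rfl
    intro ω' _
    rw [hr]
    beta_reduce
    rw [Finset.mul_sum, Finset.mul_sum, Finset.sum_mul]
    apply Finset.sum_congr rfl
    intro ω _
    ring
  have h2 : ∀ i, ∑ ω'', r i ω'' ^ 2 = w * ∑ ω, G i ω ^ 2 := by
    intro i
    have e1 : ∀ ω'', r i ω'' ^ 2 = ∑ ω, ∑ ω', G i ω * G i ω' * (A ω ω'' * A ω' ω'') := by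
      intro ω''
      rw [hr, pow_two, Finset.sum_mul_sum]
      apply Finset.sum_congr rfl
      intro ω _
      apply Finset.sum_congr rfl
      intro ω' _
      ring
    simp_rw [e1]
    rw [Finset.sum_comm]
    have e2 : ∀ ω, ∑ ω'', ∑ ω', G i ω * G i ω' * (A ω ω'' * A ω' ω'') = w * G i ω ^ 2 := by
      intro ω
      rw [Finset.sum_comm]
      simp_rw [← Finset.mul_sum, hA, mul_ite, mul_zero]
      rw [Finset.sum_ite_eq, if_pos (Finset.mem_univ _)]
      ring
    simp_rw [e2]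
    rw [← Finset.mul_sum]
  rw [h1]
  refine (Finset.abs_sum_le_sum_abs _ _).trans ?_
  refine (Finset.sum_le_sum fun ω' _ => hR (fun i => r i ω') (fun j => G j ω')).trans ?_
  set a : W → ℝ := fun ω' => ∑ i, r i ω' ^ 2 with ha
  set b : W → ℝ := fun ω' => ∑ i, G i ω' ^ 2 with hb
  have ha0 : ∀ ω', 0 ≤ a ω' := fun _ => Finset.sum_nonneg fun _ _ => sq_nonneg _
  have hb0 : ∀ ω', 0 ≤ b ω' := fun _ => Finset.sum_nonneg fun _ _ => sq_nonneg _
  have hsa : ∑ ω', a ω' = w * ∑ i, ∑ ω, G i ω ^ 2 := by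
    rw [ha, Finset.sum_comm]
    simp_rw [h2]
    rw [← Finset.mul_sum]
  have hsb : ∑ ω', b ω' = ∑ i, ∑ ω, G i ω ^ 2 := by
    rw [hb, Finset.sum_comm]
  have hS0 : 0 ≤ ∑ i, ∑ ω, G i ω ^ 2 :=
    Finset.sum_nonneg fun _ _ => Finset.sum_nonneg fun _ _ => sq_nonneg _
  have h3 : ∑ ω', Real.sqrt (a ω') * Real.sqrt (b ω')
      ≤ Real.sqrt (∑ ω', a ω') * Real.sqrt (∑ ω', b ω') := by
    rw [← Real.sqrt_mul (Finset.sum_nonneg fun _ _ => ha0 _)]
    apply Real.le_sqrt_of_sq_le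
    refine (Finset.sum_mul_sq_le_sq_mul_sq _ _ _).trans (le_of_eq ?_)
    congr 1
    · exact Finset.sum_congr rfl fun ω' _ => Real.sq_sqrt (ha0 ω')
    · exact Finset.sum_congr rfl fun ω' _ => Real.sq_sqrt (hb0 ω')
  calc ∑ ω', R * Real.sqrt (a ω') * Real.sqrt (b ω')
      = R * ∑ ω', Real.sqrt (a ω') * Real.sqrt (b ω') := by
        rw [Finset.mul_sum]
        exact Finset.sum_congr rfl fun _ _ => by ring
    _ ≤ R * (Real.sqrt (∑ ω', a ω') * Real.sqrt (∑ ω', b ω')) :=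
        mul_le_mul_of_nonneg_left h3 hR0
    _ = R * Real.sqrt w * ∑ i, ∑ ω, G i ω ^ 2 := by
        rw [hsa, hsb, Real.sqrt_mul hw, mul_assoc (Real.sqrt w), Real.mul_self_sqrt hS0]
        ring

variable {K : Type*} [Field K] [Fintype K] [DecidableEq K] [CharP K 2]

theorem central_bound_op {Y X W : Type*} [Fintype Y] [Fintype X] [Fintype W] [DecidableEq W]
    (Ψ : K → ℝ) (hΨ1 : Ψ 0 = 1) (hΨadd : ∀ a b, Ψ (a + b) = Ψ a * Ψ b)
    (hΨ0 : ∀ c ≠ 0, ∑ a, Ψ (c * a) = 0) (y : Y → K) (hy : ∀ i, y i ≠ 0)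
    (x : X → K) (hinj : Function.Injective x) (B : W → W → K)
    (hB : ∀ c ≠ 0, ∀ ω ω', ∑ ω'', Ψ (c * B ω ω'') * Ψ (c * B ω' ω'')
      = if ω = ω' then (Fintype.card W : ℝ) else 0)
    (R : ℝ) (hR0 : 0 ≤ R)
    (hR : ∀ c ≠ 0, ∀ g h : Y → ℝ, |∑ i, ∑ j, (∑ b, Ψ (c / (y i * y j) * x b)) * g i * h j|
      ≤ R * Real.sqrt (∑ i, g i ^ 2) * Real.sqrt (∑ i, h i ^ 2))
    (g : Y × K × W → ℝ) (hg : ∑ v, g v = 0)
    [∀ v v' : Y × K × W,
      Decidable (∃ b, y v.1 * y v'.1 * (v.2.1 + v'.2.1 + B v.2.2 v'.2.2) = x b)] :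
    |∑ v : Y × K × W, ∑ v' : Y × K × W,
      (if ∃ b, y v.1 * y v'.1 * (v.2.1 + v'.2.1 + B v.2.2 v'.2.2) = x b
        then g v * g v' else 0)| ≤
      R * Real.sqrt (Fintype.card W) * ∑ v, g v ^ 2 := by
  classical
  set N : ℝ := (Fintype.card K : ℝ) with hN
  have hN0 : 0 < N := by
    rw [hN]
    exact_mod_cast Fintype.card_pos
  set M : K → Y → Y → ℝ := fun c i j => ∑ b, Ψ (c / (y i * y j) * x b) with hM
  -- the indicator
  have h1 : ∀ v v' : Y × K × W,
      (if ∃ b, y v.1 * y v'.1 * (v.2.1 + v'.2.1 + B v.2.2 v'.2.2) = x b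
        then g v * g v' else 0)
      = N⁻¹ * ∑ c, M c v.1 v'.1 * Ψ (c * B v.2.2 v'.2.2) * (Ψ (c * v.2.1) * g v)
          * (Ψ (c * v'.2.1) * g v') := by
    intro v v'
    have hxx : y v.1 * y v'.1 ≠ 0 := mul_ne_zero (hy _) (hy _)
    set s := v.2.1 + v'.2.1 + B v.2.2 v'.2.2 with hs
    have e1 : (if ∃ b, y v.1 * y v'.1 * s = x b then g v * g v' else 0)
        = ∑ b, (if s + x b / (y v.1 * y v'.1) = 0 then (1 : ℝ) else 0) * (g v * g v') := by
      have e2 : ∀ b, (s + x b / (y v.1 * y v'.1) = 0) ↔ y v.1 * y v'.1 * s = x b := by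
        intro b
        rw [CharTwo.add_eq_zero, eq_div_iff hxx, mul_comm]
      simp_rw [e2]
      rw [← Finset.sum_mul]
      split_ifs with h
      · obtain ⟨b, hb⟩ := h
        have e3 : ∀ b', (y v.1 * y v'.1 * s = x b') ↔ b = b' := by
          intro b'
          rw [hb]
          exact hinj.eq_iff
        simp_rw [e3]
        rw [Finset.sum_ite_eq, if_pos (Finset.mem_univ _), one_mul]
      · have e3 : ∀ b', ¬ (y v.1 * y v'.1 * s = x b') := fun b' hb' => h ⟨b', hb'⟩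
        simp only [e3, if_false, Finset.sum_const_zero, zero_mul]
    rw [e1]
    simp_rw [ind_eq Ψ hΨ1 hΨ0]
    simp_rw [Finset.mul_sum, Finset.sum_mul]
    rw [Finset.sum_comm]
    apply Finset.sum_congr rfl
    intro c _
    rw [hM]
    beta_reduce
    rw [Finset.sum_mul, Finset.sum_mul, Finset.sum_mul, Finset.mul_sum]
    apply Finset.sum_congr rfl
    intro b _
    have e4 : c * (s + x b / (y v.1 * y v'.1))
        = c * v.2.1 + c * v'.2.1 + c * B v.2.2 v'.2.2 + c / (y v.1 * y v'.1) * x b := by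
      rw [hs]
      field_simp
    rw [e4, hΨadd, hΨadd, hΨadd]
    ring
  simp_rw [h1]
  simp_rw [← Finset.mul_sum]
  have h2 : ∑ v : Y × K × W, ∑ v' : Y × K × W, ∑ c, M c v.1 v'.1 * Ψ (c * B v.2.2 v'.2.2)
        * (Ψ (c * v.2.1) * g v) * (Ψ (c * v'.2.1) * g v')
      = ∑ c, ∑ v : Y × K × W, ∑ v' : Y × K × W, M c v.1 v'.1 * Ψ (c * B v.2.2 v'.2.2)
        * (Ψ (c * v.2.1) * g v) * (Ψ (c * v'.2.1) * g v') := by
    rw [Finset.sum_comm (s := (univ : Finset K))]
    apply Finset.sum_congr rfl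
    intro v _
    rw [Finset.sum_comm]
  rw [h2]
  have h3 : ∀ c, ∑ v : Y × K × W, ∑ v' : Y × K × W, M c v.1 v'.1 * Ψ (c * B v.2.2 v'.2.2)
        * (Ψ (c * v.2.1) * g v) * (Ψ (c * v'.2.1) * g v')
      = ∑ i, ∑ j, M c i j * ∑ ω, ∑ ω', Ψ (c * B ω ω') * (∑ β, Ψ (c * β) * g (i, β, ω))
          * (∑ β, Ψ (c * β) * g (j, β, ω')) := by
    intro c
    exact sum_triple_two (fun v => Ψ (c * v.2.1) * g v) (M c) (fun ω ω' => Ψ (c * B ω ω'))
  simp_rw [h3]
  have h4 : ∀ c, |∑ i, ∑ j, M c i j * ∑ ω, ∑ ω', Ψ (c * B ω ω')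
        * (∑ β, Ψ (c * β) * g (i, β, ω)) * (∑ β, Ψ (c * β) * g (j, β, ω'))|
      ≤ R * Real.sqrt (Fintype.card W) * ∑ i, ∑ ω, (∑ β, Ψ (c * β) * g (i, β, ω)) ^ 2 := by
    intro c
    by_cases hc : c = 0
    · subst hc
      have e1 : ∑ i, ∑ j, M 0 i j * ∑ ω, ∑ ω', Ψ (0 * B ω ω')
        * (∑ β, Ψ (0 * β) * g (i, β, ω)) * (∑ β, Ψ (0 * β) * g (j, β, ω')) = 0 := by
        rw [← h3]
        have e2 : ∀ v v' : Y × K × W, M 0 v.1 v'.1 * Ψ (0 * B v.2.2 v'.2.2)
            * (Ψ (0 * v.2.1) * g v) * (Ψ (0 * v'.2.1) * g v')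
            = (Fintype.card X : ℝ) * g v * g v' := by
          intro v v'
          rw [hM]
          simp only [zero_mul, zero_div, hΨ1, Finset.sum_const, Finset.card_univ, nsmul_eq_mul,
            mul_one, one_mul]
        simp_rw [e2, ← Finset.mul_sum, hg, mul_zero]
        rw [Finset.sum_const_zero]
      rw [e1, abs_zero]
      apply mul_nonneg (mul_nonneg hR0 (Real.sqrt_nonneg _))
      exact Finset.sum_nonneg fun _ _ => Finset.sum_nonneg fun _ _ => sq_nonneg _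
    · exact block_bound_op (fun ω ω' => Ψ (c * B ω ω')) (Fintype.card W : ℝ) (by positivity)
        (hB c hc) (M c) R hR0 (hR c hc) _
  rw [abs_mul, abs_of_pos (inv_pos.2 hN0)]
  have h5 : |∑ c, ∑ i, ∑ j, M c i j * ∑ ω, ∑ ω', Ψ (c * B ω ω')
        * (∑ β, Ψ (c * β) * g (i, β, ω)) * (∑ β, Ψ (c * β) * g (j, β, ω'))|
      ≤ R * Real.sqrt (Fintype.card W) * (N * ∑ v, g v ^ 2) := by
    refine (Finset.abs_sum_le_sum_abs _ _).trans ?_
    refine (Finset.sum_le_sum fun c _ => h4 c).trans ?_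
    rw [← Finset.mul_sum]
    apply le_of_eq
    congr 1
    rw [Finset.sum_comm, Fintype.sum_prod_type, Finset.mul_sum]
    apply Finset.sum_congr rfl
    intro i _
    rw [Finset.sum_comm, Fintype.sum_prod_type, Finset.sum_comm (s := (univ : Finset K)),
      Finset.mul_sum]
    apply Finset.sum_congr rfl
    intro ω _
    exact parseval Ψ hΨ1 hΨadd hΨ0 (fun β => g (i, β, ω))
  calc N⁻¹ * _ ≤ N⁻¹ * (R * Real.sqrt (Fintype.card W) * (N * ∑ v, g v ^ 2)) :=
        mul_le_mul_of_nonneg_left h5 (inv_pos.2 hN0).le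
    _ = _ := by
        field_simp

end Pool.Agent.OPG
end

section

set_option autoImplicit false

namespace Pool.Agent.OPG.Katz

open Finset

section
variable {K : Type} [Field K] [Fintype K] [DecidableEq K] [Fintype (MulChar K ℂ)]

theorem E1_orth (a : Kˣ) : ∑ χ : MulChar K ℂ, χ (a : K) = if a = 1 then (Fintype.card Kˣ : ℂ)
    else 0 := by
  split_ifs with h
  · subst h
    have h1 := MulChar.card_eq_card_units_of_hasEnoughRootsOfUnity K ℂ
    rw [Nat.card_eq_fintype_card, Nat.card_eq_fintype_card] at h1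
    simp [h1]
  · have ha : (a : K) ≠ 1 := by
      intro h1
      exact h (Units.ext h1)
    obtain ⟨χ₀, hχ₀⟩ := MulChar.exists_apply_ne_one_of_hasEnoughRootsOfUnity K ℂ ha
    have h1 : ∑ χ : MulChar K ℂ, χ (a : K) = χ₀ (a : K) * ∑ χ : MulChar K ℂ, χ (a : K) := by
      rw [Finset.mul_sum, ← Equiv.sum_comp (Equiv.mulLeft χ₀)]
      apply Finset.sum_congr rfl
      intro χ _
      rw [Equiv.coe_mulLeft, MulChar.mul_apply]
    have h2 : (χ₀ (a : K) - 1) * ∑ χ : MulChar K ℂ, χ (a : K) = 0 := by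
      rw [sub_mul, one_mul, ← h1, sub_self]
    rcases mul_eq_zero.mp h2 with h3 | h3
    · exact absurd (sub_eq_zero.mp h3) hχ₀
    · exact h3

theorem E1_conj (χ : MulChar K ℂ) (a : Kˣ) : (starRingEnd ℂ) (χ (a : K)) = χ ((a⁻¹ : Kˣ) : K) := by
  rw [starRingEnd_apply, ← MulChar.star_apply, MulChar.star_eq_inv, MulChar.inv_apply']
  simp

theorem E1_norm (χ : MulChar K ℂ) (a : Kˣ) : ‖χ (a : K)‖ = 1 := by
  have h1 : ((‖χ (a : K)‖ ^ 2 : ℝ) : ℂ) = 1 := by
    rw [← Complex.normSq_eq_norm_sq, ← Complex.mul_conj, E1_conj, ← map_mul, ← Units.val_mul,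
      mul_inv_cancel, Units.val_one, map_one]
  have h2 : ‖χ (a : K)‖ ^ 2 = 1 := by exact_mod_cast h1
  nlinarith [norm_nonneg (χ (a : K))]

theorem E1_parseval (g : Kˣ → ℝ) :
    ∑ χ : MulChar K ℂ, ‖∑ x : Kˣ, (g x : ℂ) * χ (x : K)‖ ^ 2 =
      Fintype.card Kˣ * ∑ x, g x ^ 2 := by
  have h1 : ∀ χ : MulChar K ℂ, ((‖∑ x : Kˣ, (g x : ℂ) * χ (x : K)‖ ^ 2 : ℝ) : ℂ) =
      ∑ x : Kˣ, ∑ y : Kˣ, (g x : ℂ) * g y * χ ((x * y⁻¹ : Kˣ) : K) := by
    intro χ
    rw [← Complex.normSq_eq_norm_sq, ← Complex.mul_conj, map_sum, Finset.sum_mul_sum]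
    apply Finset.sum_congr rfl
    intro x _
    apply Finset.sum_congr rfl
    intro y _
    rw [map_mul, Complex.conj_ofReal, E1_conj, Units.val_mul, map_mul]
    ring
  have h2 : ((∑ χ : MulChar K ℂ, ‖∑ x : Kˣ, (g x : ℂ) * χ (x : K)‖ ^ 2 : ℝ) : ℂ) =
      ((Fintype.card Kˣ * ∑ x, g x ^ 2 : ℝ) : ℂ) := by
    rw [Complex.ofReal_sum]
    simp only [h1]
    rw [Finset.sum_comm, Complex.ofReal_mul, Complex.ofReal_natCast, Complex.ofReal_sum,
      Finset.mul_sum]
    apply Finset.sum_congr rfl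
    intro x _
    rw [Finset.sum_comm, Complex.ofReal_pow]
    have h3 : ∀ y : Kˣ, ∑ χ : MulChar K ℂ, (g x : ℂ) * g y * χ ((x * y⁻¹ : Kˣ) : K) =
        if x = y then (g x : ℂ) * g y * Fintype.card Kˣ else 0 := by
      intro y
      rw [← Finset.mul_sum, E1_orth]
      by_cases hxy : x = y
      · rw [if_pos hxy, if_pos (by rw [hxy, mul_inv_cancel])]
      · rw [if_neg hxy, if_neg (fun h => hxy (mul_inv_eq_one.mp h)), mul_zero]
    simp only [h3]
    rw [Finset.sum_ite_eq Finset.univ x, if_pos (Finset.mem_univ _)]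
    ring
  exact_mod_cast h2

end

/-- The norm of a multiplicative convolution operator on `Kˣ` is bounded by its largest
character sum. -/
theorem conv_bound {K : Type} [Field K] [Fintype K] [DecidableEq K] (H : K → ℂ) (R : ℝ)
    (hR : ∀ χ : MulChar K ℂ, ‖∑ y, H y * χ y‖ ≤ R) (c : K) (hc : c ≠ 0) (g h : Kˣ → ℝ) :
    ‖∑ x : Kˣ, ∑ x' : Kˣ, H (c / ((x : K) * (x' : K))) * (g x : ℂ) * (h x' : ℂ)‖
      ≤ R * Real.sqrt (∑ x, g x ^ 2) * Real.sqrt (∑ x, h x ^ 2) := by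
  classical
  have : Fintype (MulChar K ℂ) := Fintype.ofFinite _
  obtain ⟨N, hN⟩ : ∃ N : ℝ, N = Fintype.card Kˣ := ⟨_, rfl⟩
  have hN0 : 0 < N := by
    rw [hN]
    exact_mod_cast Fintype.card_pos
  have hR0 : 0 ≤ R := (norm_nonneg _).trans (hR 1)
  obtain ⟨c', hc'⟩ : ∃ c' : Kˣ, (c' : K) = c := ⟨Units.mk0 c hc, rfl⟩
  have hsumU : ∀ χ : MulChar K ℂ, ∑ y, H y * χ y = ∑ y : Kˣ, H (y : K) * χ (y : K) := by
    intro χ
    have h1 : ∑ y : K, H y * χ y = ∑ y ∈ Finset.univ.filter (fun y : K => y ≠ 0), H y * χ y := by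
      rw [Finset.sum_filter]
      apply Finset.sum_congr rfl
      intro y _
      split_ifs with hy
      · rfl
      · push Not at hy
        rw [hy, MulChar.map_zero, mul_zero]
    rw [h1]
    symm
    apply Finset.sum_bij (fun (y : Kˣ) _ => (y : K))
    · intro y _
      simp
    · intro y _ z _ h
      exact Units.ext h
    · intro y hy
      exact ⟨Units.mk0 y (Finset.mem_filter.mp hy).2, Finset.mem_univ _, rfl⟩
    · intro y _
      rfl
  -- the inversion formula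
  have hinv : ∀ y : Kˣ, (N : ℂ) * H (y : K) =
      ∑ χ : MulChar K ℂ, (∑ z, H z * χ z) * χ ((y⁻¹ : Kˣ) : K) := by
    intro y
    simp only [hsumU, Finset.sum_mul]
    rw [Finset.sum_comm]
    have h3 : ∀ z : Kˣ, ∑ χ : MulChar K ℂ, H (z : K) * χ (z : K) * χ ((y⁻¹ : Kˣ) : K) =
        if y = z then (N : ℂ) * H (y : K) else 0 := by
      intro z
      have h4 : ∀ χ : MulChar K ℂ, H (z : K) * χ (z : K) * χ ((y⁻¹ : Kˣ) : K) =
          H (z : K) * χ ((z * y⁻¹ : Kˣ) : K) := by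
        intro χ
        rw [Units.val_mul, map_mul, mul_assoc]
      simp only [h4]
      rw [← Finset.mul_sum, E1_orth]
      by_cases hyz : y = z
      · rw [if_pos hyz, if_pos (by rw [hyz, mul_inv_cancel]), hyz, hN]
        push_cast
        ring
      · rw [if_neg hyz, if_neg (fun h => hyz (mul_inv_eq_one.mp h).symm), mul_zero]
    simp only [h3]
    rw [Finset.sum_ite_eq Finset.univ y, if_pos (Finset.mem_univ _)]
  obtain ⟨G, hG⟩ : ∃ G : MulChar K ℂ → ℂ, G = fun χ => ∑ x : Kˣ, (g x : ℂ) * χ (x : K) := ⟨_, rfl⟩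
  obtain ⟨G', hG'⟩ : ∃ G' : MulChar K ℂ → ℂ, G' = fun χ => ∑ x : Kˣ, (h x : ℂ) * χ (x : K) :=
    ⟨_, rfl⟩
  have hmain : (N : ℂ) * ∑ x : Kˣ, ∑ x' : Kˣ, H (c / ((x : K) * (x' : K))) * (g x : ℂ) *
      (h x' : ℂ) = ∑ χ : MulChar K ℂ, (∑ z, H z * χ z) * χ ((c'⁻¹ : Kˣ) : K) * G χ * G' χ := by
    rw [Finset.mul_sum]
    calc ∑ x : Kˣ, (N : ℂ) * ∑ x' : Kˣ, H (c / ((x : K) * (x' : K))) * (g x : ℂ) * (h x' : ℂ) =
        ∑ x : Kˣ, ∑ x' : Kˣ, ∑ χ : MulChar K ℂ, (∑ z, H z * χ z) * χ ((c'⁻¹ : Kˣ) : K) *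
          ((g x : ℂ) * χ (x : K)) * ((h x' : ℂ) * χ (x' : K)) := by
          apply Finset.sum_congr rfl
          intro x _
          rw [Finset.mul_sum]
          apply Finset.sum_congr rfl
          intro x' _
          have h1 : c / ((x : K) * (x' : K)) = ((c' * (x * x')⁻¹ : Kˣ) : K) := by
            rw [← hc']
            push_cast
            rw [div_eq_mul_inv]
          rw [h1, mul_assoc (H _), ← mul_assoc (N : ℂ), hinv, Finset.sum_mul]
          apply Finset.sum_congr rfl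
          intro χ _
          have h2 : ((c' * (x * x')⁻¹)⁻¹ : Kˣ) = c'⁻¹ * x * x' := by
            rw [mul_inv, inv_inv, mul_assoc]
          rw [h2, Units.val_mul, Units.val_mul, map_mul, map_mul]
          ring
      _ = _ := by
          rw [Finset.sum_congr rfl fun x _ => Finset.sum_comm, Finset.sum_comm]
          apply Finset.sum_congr rfl
          intro χ _
          rw [mul_assoc _ (G χ), hG, hG']
          simp only
          rw [Finset.sum_mul_sum, Finset.mul_sum]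
          apply Finset.sum_congr rfl
          intro x _
          rw [Finset.mul_sum]
          apply Finset.sum_congr rfl
          intro x' _
          ring
  have hPG : ∑ χ, ‖G χ‖ ^ 2 = N * ∑ x, g x ^ 2 := by
    rw [hG, hN]
    exact E1_parseval g
  have hPG' : ∑ χ, ‖G' χ‖ ^ 2 = N * ∑ x, h x ^ 2 := by
    rw [hG', hN]
    exact E1_parseval h
  have hfin : N * ‖∑ x : Kˣ, ∑ x' : Kˣ, H (c / ((x : K) * (x' : K))) * (g x : ℂ) *
      (h x' : ℂ)‖ ≤ R * (Real.sqrt (N * ∑ x, g x ^ 2) * Real.sqrt (N * ∑ x, h x ^ 2)) := by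
    have h1 : N * ‖∑ x : Kˣ, ∑ x' : Kˣ, H (c / ((x : K) * (x' : K))) * (g x : ℂ) *
        (h x' : ℂ)‖ = ‖(N : ℂ) * ∑ x : Kˣ, ∑ x' : Kˣ, H (c / ((x : K) * (x' : K))) * (g x : ℂ) *
        (h x' : ℂ)‖ := by
      rw [norm_mul, Complex.norm_real, Real.norm_eq_abs, abs_of_pos hN0]
    rw [h1, hmain]
    refine (norm_sum_le _ _).trans ?_
    calc ∑ χ : MulChar K ℂ, ‖(∑ z, H z * χ z) * χ ((c'⁻¹ : Kˣ) : K) * G χ * G' χ‖ ≤
        ∑ χ : MulChar K ℂ, R * (‖G χ‖ * ‖G' χ‖) := by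
          apply Finset.sum_le_sum
          intro χ _
          rw [norm_mul, norm_mul, norm_mul, E1_norm, mul_one, mul_assoc]
          exact mul_le_mul_of_nonneg_right (hR χ) (by positivity)
      _ = R * ∑ χ : MulChar K ℂ, ‖G χ‖ * ‖G' χ‖ := by rw [Finset.mul_sum]
      _ ≤ R * (Real.sqrt (∑ χ, ‖G χ‖ ^ 2) * Real.sqrt (∑ χ, ‖G' χ‖ ^ 2)) :=
          mul_le_mul_of_nonneg_left (Real.sum_mul_le_sqrt_mul_sqrt _ _ _) hR0
      _ = _ := by rw [hPG, hPG']
  rw [Real.sqrt_mul hN0.le, Real.sqrt_mul hN0.le] at hfin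
  have h5 : R * (Real.sqrt N * Real.sqrt (∑ x, g x ^ 2) * (Real.sqrt N *
      Real.sqrt (∑ x, h x ^ 2))) = N * (R * Real.sqrt (∑ x, g x ^ 2) *
      Real.sqrt (∑ x, h x ^ 2)) := by
    have h6 : Real.sqrt N * Real.sqrt N = N := Real.mul_self_sqrt hN0.le
    calc _ = (Real.sqrt N * Real.sqrt N) * (R * Real.sqrt (∑ x, g x ^ 2) *
          Real.sqrt (∑ x, h x ^ 2)) := by ring
      _ = _ := by rw [h6]
  rw [h5] at hfin
  exact le_of_mul_le_mul_left hfin hN0

end Pool.Agent.OPG.Katz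
end

section

set_option autoImplicit false

namespace Pool.Agent.OPG.Katz

open Finset

/-- The character sums of the Fourier transform of a set. -/
theorem H_bound {K : Type} [Field K] [Fintype K] [DecidableEq K] (Ψ : K → ℝ) (hΨ1 : Ψ 0 = 1)
    (hΨadd : ∀ a b, Ψ (a + b) = Ψ a * Ψ b) (hΨ0 : ∀ c ≠ 0, ∑ a, Ψ (c * a) = 0)
    {X : Type} [Fintype X] (x : X → K) (hx : ∀ b, x b ≠ 0) (T : ℝ)
    (hT : ∀ χ : MulChar K ℂ, χ ≠ 1 → ‖∑ b, χ (x b)‖ ≤ T) (χ : MulChar K ℂ) :
    ‖∑ y, ((∑ b, Ψ (y * x b) : ℝ) : ℂ) * χ y‖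
      ≤ max (T * Real.sqrt (Fintype.card K)) (Fintype.card X) := by
  obtain ⟨ψ, hψ⟩ : ∃ ψ : AddChar K ℂ, ∀ y, ψ y = ((Ψ y : ℝ) : ℂ) :=
    ⟨{ toFun := fun y => ((Ψ y : ℝ) : ℂ)
       map_zero_eq_one' := by simp [hΨ1]
       map_add_eq_mul' := fun a b => by rw [hΨadd]; push_cast; rfl }, fun _ => rfl⟩
  have hprim : ψ.IsPrimitive := by
    intro a ha h
    have h1 : ∀ y, Ψ (a * y) = 1 := by
      intro y
      have h2 := DFunLike.congr_fun h y
      rw [AddChar.mulShift_apply, hψ, AddChar.one_apply] at h2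
      exact_mod_cast h2
    have h2 := hΨ0 a ha
    simp only [h1, Finset.sum_const, Finset.card_univ, nsmul_eq_mul, mul_one] at h2
    exact Fintype.card_ne_zero (by exact_mod_cast h2)
  have hψ1 : ψ ≠ 1 := by
    intro h
    have h1 := hprim (one_ne_zero (α := K))
    apply h1
    rw [AddChar.mulShift_one, h]
  have hmain : ∑ y, ((∑ b, Ψ (y * x b) : ℝ) : ℂ) * χ y = (∑ b, χ⁻¹ (x b)) * gaussSum χ ψ := by
    push_cast
    simp only [Finset.sum_mul]
    rw [Finset.sum_comm]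
    apply Finset.sum_congr rfl
    intro b _
    have h1 := gaussSum_mulShift_eq χ ψ (Units.mk0 (x b) (hx b))
    rw [Units.val_mk0] at h1
    rw [← h1, gaussSum]
    apply Finset.sum_congr rfl
    intro y _
    rw [AddChar.mulShift_apply, hψ, mul_comm (x b) y, mul_comm]
  rw [hmain, norm_mul]
  by_cases hχ : χ = 1
  · subst hχ
    refine le_trans ?_ (le_max_right _ _)
    rw [gaussSum_one_left hψ1, norm_neg, norm_one, mul_one]
    refine (norm_sum_le _ _).trans ?_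
    rw [← nsmul_one, ← Finset.card_univ, ← Finset.sum_const]
    apply Finset.sum_le_sum
    intro b _
    rw [inv_one, MulChar.one_apply (isUnit_iff_ne_zero.mpr (hx b)), norm_one]
  · refine le_trans ?_ (le_max_left _ _)
    have hχ' : χ⁻¹ ≠ 1 := by
      intro h
      exact hχ (inv_eq_one.mp h)
    have hG : ‖gaussSum χ ψ‖ = Real.sqrt (Fintype.card K) := by
      have h1 := gaussSum_mul_gaussSum_eq_card hχ hprim
      rw [← star_gaussSum_eq, ← starRingEnd_apply, Complex.mul_conj, Complex.normSq_eq_norm_sq] at h1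
      have h2 : ‖gaussSum χ ψ‖ ^ 2 = Fintype.card K := by exact_mod_cast h1
      rw [← h2, Real.sqrt_sq (norm_nonneg _)]
    rw [hG]
    exact mul_le_mul_of_nonneg_right (hT _ hχ') (Real.sqrt_nonneg _)

end Pool.Agent.OPG.Katz
end

section

set_option autoImplicit false

/-!
Definitions for Katz's bound on character sums over a line in a finite field.
-/

namespace Pool.Agent.OPG.Katz

open Polynomial

open Classical in
/-- The finite set of the monic polynomials of degree `k` over a finite field. -/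
noncomputable def monics (F : Type) [Field F] [Fintype F] (k : ℕ) : Finset F[X] :=
  (Finset.univ : Finset (Fin k → F)).image (fun c => X ^ k + ∑ i : Fin k, C (c i) * X ^ (i : ℕ))

open Classical in
/-- The finite set of the monic irreducible polynomials of degree `d`. -/
noncomputable def irrs (F : Type) [Field F] [Fintype F] (d : ℕ) : Finset F[X] :=
  (monics F d).filter Irreducible

/-- The sums `S_r = ∑ d λ(P) ^ (r / d)` over the monic irreducible `P` of degree `d ∣ r`. -/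
noncomputable def Ssum {F : Type} [Field F] [Fintype F] (lam : F[X] →* ℂ) (r : ℕ) : ℂ :=
  ∑ d ∈ r.divisors, ∑ P ∈ irrs F d, (d : ℂ) * lam P ^ (r / d)

end Pool.Agent.OPG.Katz
end

section

set_option autoImplicit false

namespace Pool.Agent.OPG.Katz

open Polynomial

theorem mem_monics {F : Type} [Field F] [Fintype F] (k : ℕ) (h : F[X]) :
    h ∈ monics F k ↔ h.Monic ∧ h.natDegree = k := by
  classical
  unfold monics
  rw [Finset.mem_image]
  constructor
  · rintro ⟨c, _, rfl⟩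
    have h1 : (∑ i : Fin k, C (c i) * X ^ (i : ℕ)).degree < (k : WithBot ℕ) :=
      degree_sum_fin_lt c
    refine ⟨monic_X_pow_add h1, ?_⟩
    rw [natDegree_add_eq_left_of_degree_lt (by rw [degree_X_pow]; exact h1), natDegree_X_pow]
  · rintro ⟨hm, rfl⟩
    refine ⟨fun i => h.coeff i, Finset.mem_univ _, ?_⟩
    conv_rhs => rw [hm.as_sum]
    congr 1
    rw [Finset.sum_range]

theorem mem_irrs {F : Type} [Field F] [Fintype F] (d : ℕ) (h : F[X]) :
    h ∈ irrs F d ↔ h.Monic ∧ h.natDegree = d ∧ Irreducible h := by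
  classical
  unfold irrs
  rw [Finset.mem_filter, mem_monics, and_assoc]

end Pool.Agent.OPG.Katz
end

section

set_option autoImplicit false

namespace Pool.Agent.OPG.Katz

open Polynomial

/-- Degree of a monic polynomial as a sum over the pairs `(P, a)` with `P ^ a ∣ h`:
`deg h = ∑_{r ≥ 1} ∑_{d ∣ r} ∑_{P monic irreducible of degree d, P ^ (r / d) ∣ h} d`. -/
theorem degree_eq_sum {F : Type} [Field F] [Fintype F] (k : ℕ) (h : F[X]) (hm : h.Monic)
    (hk : h.natDegree = k) :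
    k = ∑ r ∈ Finset.Icc 1 k, ∑ d ∈ r.divisors,
      ∑ P ∈ (irrs F d), (open Classical in if P ^ (r / d) ∣ h then d else 0) := by
  classical
  have h0 : h ≠ 0 := hm.ne_zero
  set M := UniqueFactorizationMonoid.normalizedFactors h with hM
  have hirr : ∀ P ∈ M, Irreducible P := fun P hP =>
    UniqueFactorizationMonoid.irreducible_of_normalized_factor P hP
  have hmon : ∀ P ∈ M, P.Monic := by
    intro P hP
    have h1 : normalize P = P := UniqueFactorizationMonoid.normalize_normalized_factor P hP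
    rw [← h1]
    exact monic_normalize (hirr P hP).ne_zero
  have hcount : ∀ (P : F[X]) (a : ℕ), P.Monic → Irreducible P → (P ^ a ∣ h ↔ a ≤ M.count P) := by
    intro P a hPm hPi
    rw [pow_dvd_iff_le_emultiplicity,
      UniqueFactorizationMonoid.emultiplicity_eq_count_normalizedFactors hPi h0,
      hPm.normalize_eq_self]
    exact_mod_cast Iff.rfl
  have hdeg : k = ∑ P ∈ M.toFinset, ∑ a ∈ Finset.Icc 1 (M.count P), P.natDegree := by
    have h1 : M.prod.natDegree = h.natDegree :=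
      natDegree_eq_natDegree
        (degree_eq_degree_of_associated (UniqueFactorizationMonoid.prod_normalizedFactors h0))
    have h2 : M.prod.natDegree = (M.map natDegree).sum := by
      apply natDegree_multiset_prod
      intro hz
      exact (hirr 0 hz).ne_zero rfl
    rw [← hk, ← h1, h2, Finset.sum_multiset_map_count]
    refine Finset.sum_congr rfl fun P _ => ?_
    rw [Finset.sum_const, Nat.card_Icc, Nat.add_sub_cancel]
  have hrhs : ∀ r ∈ Finset.Icc 1 k, ∑ d ∈ r.divisors,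
      ∑ P ∈ (irrs F d), (if P ^ (r / d) ∣ h then d else 0) =
      ∑ d ∈ r.divisors, ∑ P ∈ (irrs F d).filter (fun P => P ^ (r / d) ∣ h), d := by
    intro r _
    refine Finset.sum_congr rfl fun d _ => ?_
    rw [Finset.sum_filter]
  rw [Finset.sum_congr rfl hrhs]
  conv_lhs => rw [hdeg]
  simp only [Finset.sum_sigma']
  refine Finset.sum_bij'
    (fun (x : (_ : F[X]) × ℕ) _ =>
      (⟨x.2 * x.1.natDegree, ⟨x.1.natDegree, x.1⟩⟩ : (_ : ℕ) × (_ : ℕ) × F[X]))
    (fun (y : (_ : ℕ) × (_ : ℕ) × F[X]) _ => (⟨y.2.2, y.1 / y.2.1⟩ : (_ : F[X]) × ℕ))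
    ?_ ?_ ?_ ?_ ?_
  · rintro ⟨P, a⟩ hx
    simp only [Finset.mem_sigma, Multiset.mem_toFinset, Finset.mem_Icc] at hx
    obtain ⟨hP, ha1, ha2⟩ := hx
    have hPd : 0 < P.natDegree := (hirr P hP).natDegree_pos
    have hdvd : P ^ a ∣ h := (hcount P a (hmon P hP) (hirr P hP)).2 ha2
    have hle : a * P.natDegree ≤ k := by
      rw [← hk, ← natDegree_pow]
      exact natDegree_le_of_dvd hdvd h0
    have hpos : 0 < a * P.natDegree := Nat.mul_pos ha1 hPd
    simp only [Finset.mem_sigma, Finset.mem_Icc, Nat.mem_divisors, Finset.mem_filter, mem_irrs]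
    refine ⟨⟨hpos, hle⟩, ⟨Dvd.intro_left _ rfl, hpos.ne'⟩, ⟨hmon P hP, trivial, hirr P hP⟩, ?_⟩
    rwa [Nat.mul_div_cancel _ hPd]
  · rintro ⟨r, ⟨d, P⟩⟩ hy
    simp only [Finset.mem_sigma, Finset.mem_Icc, Nat.mem_divisors, Finset.mem_filter,
      mem_irrs] at hy
    obtain ⟨⟨hr1, hr2⟩, ⟨hdr, hr0⟩, ⟨hPm, hPd, hPi⟩, hdvd⟩ := hy
    have hd0 : 0 < d := Nat.pos_of_dvd_of_pos hdr hr1
    have ha : 1 ≤ r / d := Nat.div_pos (Nat.le_of_dvd hr1 hdr) hd0
    have hc := (hcount P (r / d) hPm hPi).1 hdvd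
    simp only [Finset.mem_sigma, Multiset.mem_toFinset, Finset.mem_Icc]
    exact ⟨Multiset.count_pos.1 (by omega), ha, hc⟩
  · rintro ⟨P, a⟩ hx
    simp only [Finset.mem_sigma, Multiset.mem_toFinset, Finset.mem_Icc] at hx
    have hPd : 0 < P.natDegree := (hirr P hx.1).natDegree_pos
    simp only [Nat.mul_div_cancel _ hPd]
  · rintro ⟨r, ⟨d, P⟩⟩ hy
    simp only [Finset.mem_sigma, Finset.mem_Icc, Nat.mem_divisors, Finset.mem_filter,
      mem_irrs] at hy
    obtain ⟨⟨hr1, hr2⟩, ⟨hdr, hr0⟩, ⟨hPm, hPd, hPi⟩, hdvd⟩ := hy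
    simp only [hPd, Nat.div_mul_cancel hdr]
  · rintro ⟨P, a⟩ hx
    rfl

end Pool.Agent.OPG.Katz
end

section

set_option autoImplicit false

namespace Pool.Agent.OPG.Katz

open Polynomial

/-- Grouping the elements of a finite extension according to their minimal polynomial. -/
theorem sum_minpoly {F E : Type} [Field F] [Fintype F] [Field E] [Fintype E] [Algebra F E]
    (r : ℕ) (hr : Module.finrank F E = r) (G : F[X] → ℂ) :
    ∑ v : E, G (minpoly F v) = ∑ d ∈ r.divisors, ∑ P ∈ irrs F d, (d : ℂ) * G P := by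
  classical
  have hr0 : 0 < r := by
    rw [← hr]
    exact Module.finrank_pos
  have hint : ∀ v : E, IsIntegral F v := fun v => Algebra.IsIntegral.isIntegral v
  have hmaps : ∀ v ∈ (Finset.univ : Finset E),
      (⟨(minpoly F v).natDegree, minpoly F v⟩ : (_ : ℕ) × F[X]) ∈
        r.divisors.sigma (fun d => irrs F d) := by
    intro v _
    rw [Finset.mem_sigma, Nat.mem_divisors, mem_irrs]
    refine ⟨⟨?_, hr0.ne'⟩, minpoly.monic (hint v), rfl, minpoly.irreducible (hint v)⟩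
    rw [← hr]
    exact minpoly.degree_dvd (hint v)
  have hcard : Nat.card E = Nat.card F ^ r := by
    rw [← hr]
    exact Module.natCard_eq_pow_finrank
  rw [Finset.sum_sigma', ← Finset.sum_fiberwise_of_maps_to hmaps]
  refine Finset.sum_congr rfl ?_
  rintro ⟨d, P⟩ hx
  rw [Finset.mem_sigma, Nat.mem_divisors, mem_irrs] at hx
  obtain ⟨⟨hdr, -⟩, hPm, hPd, hPi⟩ := hx
  simp only at hdr hPm hPd hPi
  have hfib : (Finset.univ : Finset E).filter
      (fun v => (⟨(minpoly F v).natDegree, minpoly F v⟩ : (_ : ℕ) × F[X]) = ⟨d, P⟩) =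
      (P.rootSet E).toFinset := by
    ext v
    rw [Finset.mem_filter, Set.mem_toFinset, mem_rootSet]
    constructor
    · rintro ⟨-, h⟩
      have h1 : minpoly F v = P := eq_of_heq (Sigma.mk.inj h).2
      exact ⟨hPi.ne_zero, h1 ▸ minpoly.aeval F v⟩
    · rintro ⟨-, h⟩
      have h1 : P = minpoly F v := minpoly.eq_of_irreducible_of_monic hPi h hPm
      refine ⟨Finset.mem_univ _, ?_⟩
      rw [← h1, hPd]
  have hsplit : Splits (P.map (algebraMap F E)) := by
    have h1 : P ∣ X ^ (Nat.card F) ^ r - X := by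
      rw [← hPi.natDegree_dvd_iff_dvd_X_pow_card_pow_sub_X, hPd]
      exact hdr
    have h2 : P.map (algebraMap F E) ∣ X ^ Nat.card E - X := by
      have h3 := Polynomial.map_dvd (algebraMap F E) h1
      rw [Polynomial.map_sub, Polynomial.map_pow, map_X, ← hcard] at h3
      exact h3
    have h4 : (X ^ Nat.card E - X : E[X]) ≠ 0 := by
      rw [Nat.card_eq_fintype_card]
      exact FiniteField.X_pow_card_sub_X_ne_zero E Fintype.one_lt_card
    exact Polynomial.splits_X_pow_nat_card_sub_X.of_dvd h4 h2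
  have hsep : P.Separable := PerfectField.separable_of_irreducible hPi
  have hc : ((P.rootSet E).toFinset).card = d := by
    rw [Set.toFinset_card, card_rootSet_eq_natDegree hsep hsplit, hPd]
  rw [hfib]
  have hconst : ∀ v ∈ (P.rootSet E).toFinset, G (minpoly F v) = G P := by
    intro v hv
    rw [Set.mem_toFinset, mem_rootSet] at hv
    rw [← minpoly.eq_of_irreducible_of_monic hPi hv.2 hPm]
  rw [Finset.sum_congr rfl hconst, Finset.sum_const, hc, nsmul_eq_mul]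

end Pool.Agent.OPG.Katz
end
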