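import Mathlib

section

set_option autoImplicit false

namespace Pool.Agent.OPG.Katz

open PowerSeries in
theorem A4_single (w : ℂ) : X * PowerSeries.derivative ℂ (1 - C w * X) =
    (mk fun r => if r = 0 then 0 else -w ^ r) * (1 - C w * X : PowerSeries ℂ) := by
  have h0 : PowerSeries.derivative ℂ (1 - C w * X) = -C w := by
    ext k
    rw [PowerSeries.coeff_derivative]
    rcases k with _ | k
    · simp [coeff_one]
    · rw [LinearMap.map_sub, coeff_succ_mul_X]
      simp [coeff_one, coeff_C]
  have h1 : (mk fun r => if r = 0 then 0 else -w ^ r) * (1 - C w * X : PowerSeries ℂ) =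
      (mk fun r => if r = 0 then 0 else -w ^ r) -
        C w * ((mk fun r => if r = 0 then 0 else -w ^ r) * X) := by ring
  rw [h0, h1]
  ext k
  rw [LinearMap.map_sub, coeff_C_mul, coeff_mk]
  rcases k with _ | k
  · simp
  · rw [PowerSeries.coeff_succ_X_mul, PowerSeries.coeff_succ_mul_X, coeff_mk]
    rcases k with _ | k
    · simp
    · simp [coeff_C]
      ring

open PowerSeries in
theorem A4_multi (s : Multiset ℂ) :
    X * PowerSeries.derivative ℂ ((s.map fun w => 1 - C w * X).prod) =
    (mk fun r => if r = 0 then 0 else -(s.map fun w => w ^ r).sum) *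
      ((s.map fun w => (1 - C w * X : PowerSeries ℂ)).prod) := by
  induction s using Multiset.induction with
  | empty =>
    simp only [Multiset.map_zero, Multiset.prod_zero, Multiset.sum_zero, neg_zero, ite_self,
      mul_one]
    ext k
    rcases k with _ | k <;> simp [coeff_one]
  | cons w s ih =>
    simp only [Multiset.map_cons, Multiset.prod_cons, Multiset.sum_cons]
    rw [Derivation.leibniz, smul_eq_mul, smul_eq_mul, mul_add]
    have h1 : (mk fun r => if r = 0 then 0 else -(w ^ r + (s.map fun w => w ^ r).sum)) =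
        (mk fun r => if r = 0 then (0 : ℂ) else -w ^ r) +
          (mk fun r => if r = 0 then 0 else -(s.map fun w => w ^ r).sum) := by
      ext r
      simp only [map_add, coeff_mk]
      split_ifs
      · simp
      · ring
    rw [h1, add_mul]
    have h2 := A4_single w
    calc X * ((1 - C w * X) * PowerSeries.derivative ℂ
          (Multiset.map (fun w => 1 - C w * X) s).prod) +
        X * ((Multiset.map (fun w => (1 - C w * X : PowerSeries ℂ)) s).prod *
          PowerSeries.derivative ℂ (1 - C w * X)) =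
        (1 - C w * X) * (X * PowerSeries.derivative ℂ
          (Multiset.map (fun w => 1 - C w * X) s).prod) +
        (Multiset.map (fun w => (1 - C w * X : PowerSeries ℂ)) s).prod *
          (X * PowerSeries.derivative ℂ (1 - C w * X)) := by ring
      _ = _ := by
        rw [ih, h2]
        ring

open Polynomial in
theorem A4_factor (p : ℂ[X]) (hp : p.coeff 0 = 1) :
    ∃ s : Multiset ℂ, s.card = p.natDegree ∧ p = (s.map fun w => 1 - C w * X).prod := by
  have hp0 : p ≠ 0 := by
    rintro rfl
    simp at hp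
  have hspl := IsAlgClosed.splits p
  have hcard := hspl.natDegree_eq_card_roots
  have heq := hspl.eq_prod_roots
  have hr0 : ∀ a ∈ p.roots, a ≠ 0 := by
    intro a ha h0
    rw [Polynomial.mem_roots hp0, h0, Polynomial.IsRoot, ← Polynomial.coeff_zero_eq_eval_zero,
      hp] at ha
    exact one_ne_zero ha
  refine ⟨p.roots.map fun a => a⁻¹, by rw [Multiset.card_map, hcard], ?_⟩
  have h1 : (p.roots.map fun a => X - C a) =
      p.roots.map fun a => C (-a) * (1 - C a⁻¹ * X) := by
    apply Multiset.map_congr rfl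
    intro a ha
    have h2 : C (-a) * C a⁻¹ = (-1 : ℂ[X]) := by
      rw [← C_mul, neg_mul, mul_inv_cancel₀ (hr0 a ha)]
      simp
    rw [mul_sub, mul_one, ← mul_assoc, h2]
    simp
    ring
  rw [h1, Multiset.prod_map_mul] at heq
  have h3 : (p.roots.map fun a => C (-a)).prod = C ((p.roots.map fun a => -a).prod) := by
    rw [map_multiset_prod, Multiset.map_map]
    rfl
  rw [h3, ← mul_assoc, ← C_mul] at heq
  rw [Multiset.map_map]
  obtain ⟨c, hc⟩ : ∃ c : ℂ, c = p.leadingCoeff * (p.roots.map fun a => -a).prod := ⟨_, rfl⟩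
  rw [← hc] at heq
  have h4 : ((p.roots.map fun a => (1 - C a⁻¹ * X : ℂ[X])).prod).coeff 0 = 1 := by
    rw [Polynomial.coeff_zero_eq_eval_zero, Polynomial.eval_multiset_prod, Multiset.map_map]
    apply Multiset.prod_eq_one
    intro x hx
    obtain ⟨a, -, rfl⟩ := Multiset.mem_map.mp hx
    simp
  have h5 : c = 1 := by
    have h6 := congrArg (fun q => Polynomial.coeff q 0) heq
    simp only [hp, Polynomial.coeff_C_mul, h4, mul_one] at h6
    exact h6.symm
  rw [h5, C_1, one_mul] at heq
  exact heq

/-- Newton's identities: the sequence `S` is minus the power sums of the reciprocal roots. -/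
theorem newton_roots (n : ℕ) (hn : 1 ≤ n) (L S : ℕ → ℂ) (hL0 : L 0 = 1)
    (hL : ∀ k : ℕ, n ≤ k → L k = 0)
    (h : ∀ k : ℕ, 1 ≤ k → (k : ℂ) * L k = ∑ r ∈ Finset.Icc 1 k, S r * L (k - r)) :
    ∃ ω : Fin (n - 1) → ℂ, ∀ r : ℕ, 1 ≤ r → S r = - ∑ i, ω i ^ r := by
  classical
  obtain ⟨p, hp⟩ : ∃ p : Polynomial ℂ, p = ∑ k ∈ Finset.range n, Polynomial.monomial k (L k) :=
    ⟨_, rfl⟩
  have hcoeff : ∀ k, p.coeff k = L k := by
    intro k
    rw [hp, Polynomial.finsetSum_coeff]
    simp only [Polynomial.coeff_monomial]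
    rw [Finset.sum_ite_eq' (Finset.range n) k]
    split_ifs with hk
    · rfl
    · rw [Finset.mem_range, not_lt] at hk
      exact (hL k hk).symm
  have hdeg : p.natDegree ≤ n - 1 := by
    rw [Polynomial.natDegree_le_iff_coeff_eq_zero]
    intro k hk
    rw [hcoeff, hL k (by omega)]
  obtain ⟨s, hs, hps⟩ := A4_factor p (by rw [hcoeff, hL0])
  obtain ⟨P, hP⟩ : ∃ P : PowerSeries ℂ, P = PowerSeries.mk L := ⟨_, rfl⟩
  have hPp : P = ((s.map fun w => (1 - PowerSeries.C w * PowerSeries.X : PowerSeries ℂ)).prod) := by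
    have h1 : P = Polynomial.coeToPowerSeries.ringHom p := by
      ext k
      rw [hP, PowerSeries.coeff_mk, Polynomial.coeToPowerSeries.ringHom_apply,
        Polynomial.coeff_coe, hcoeff]
    rw [h1, hps, map_multiset_prod, Multiset.map_map]
    congr 1
    apply Multiset.map_congr rfl
    intro w _
    simp
  have hD := A4_multi s
  rw [← hPp] at hD
  have hD2 : PowerSeries.X * PowerSeries.derivative ℂ P =
      (PowerSeries.mk fun r => if r = 0 then 0 else S r) * P := by
    ext k
    rcases k with _ | k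
    · simp
    · rw [PowerSeries.coeff_succ_X_mul, PowerSeries.coeff_derivative, hP, PowerSeries.coeff_mk,
        PowerSeries.coeff_mul]
      simp only [PowerSeries.coeff_mk]
      have h2 := h (k + 1) (by omega)
      rw [Finset.Nat.sum_antidiagonal_eq_sum_range_succ
        (fun i j => (if i = 0 then 0 else S i) * L j), Finset.sum_range_succ']
      simp only [if_true, zero_mul, add_zero]
      push_cast at h2
      rw [mul_comm, h2, Finset.range_eq_Ico, Finset.sum_Ico_add'
        (fun x => (if x = 0 then 0 else S x) * L (k + 1 - x)) 0 (k + 1) 1, zero_add]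
      apply Finset.sum_congr
      · ext r
        simp only [Finset.mem_Icc, Finset.mem_Ico]
        omega
      · intro r hr
        rw [Finset.mem_Ico] at hr
        rw [if_neg (by omega)]
  have hP0 : P ≠ 0 := by
    intro h0
    have h1 := congrArg (PowerSeries.coeff 0) h0
    rw [hP, PowerSeries.coeff_mk, hL0] at h1
    simp at h1
  have hG := mul_right_cancel₀ hP0 (hD.symm.trans hD2)
  obtain ⟨t, ht⟩ : ∃ t : Multiset ℂ, t = s + Multiset.replicate (n - 1 - s.card) 0 := ⟨_, rfl⟩
  have htc : t.toList.length = n - 1 := by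
    rw [Multiset.length_toList, ht, Multiset.card_add, Multiset.card_replicate, hs]
    omega
  refine ⟨fun i => t.toList.get (Fin.cast htc.symm i), fun r hr => ?_⟩
  have h1 := congrArg (PowerSeries.coeff r) hG
  simp only [PowerSeries.coeff_mk] at h1
  rw [if_neg (by omega), if_neg (by omega)] at h1
  rw [← h1]
  congr 1
  have h2 : (t.map fun w => w ^ r).sum = (s.map fun w => w ^ r).sum := by
    rw [ht, Multiset.map_add, Multiset.sum_add, Multiset.map_replicate, Multiset.sum_replicate,
      zero_pow (by omega), smul_zero, add_zero]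
  rw [← h2]
  conv_lhs => rw [← Multiset.coe_toList t]
  rw [Multiset.map_coe, Multiset.sum_coe]
  rw [← Fin.sum_ofFn (fun i => t.toList.get (Fin.cast htc.symm i) ^ r)]
  congr 1
  apply List.ext_get
  · simp [htc]
  · intro i h3 h4
    simp
end Pool.Agent.OPG.Katz
end

section

set_option autoImplicit false

namespace Pool.Agent.OPG.Katz

/-- Bounded power sums force all numbers into the closed unit disc. -/
theorem norm_le_one_of_bounded {m : ℕ} (z : Fin m → ℂ) (C : ℝ)
    (h : ∀ j : ℕ, 1 ≤ j → ‖∑ i, z i ^ j‖ ≤ C) (i : Fin m) : ‖z i‖ ≤ 1 := by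
  classical
  by_contra hlt
  push Not at hlt
  obtain ⟨w, hw⟩ : ∃ w, w = z i := ⟨_, rfl⟩
  obtain ⟨g, hg⟩ : ∃ g : Polynomial ℂ, g = ∏ v ∈ (Finset.univ.image z).erase w,
      (Polynomial.X - Polynomial.C v) := ⟨_, rfl⟩
  have hgw : g.eval w ≠ 0 := by
    rw [hg, Polynomial.eval_prod, Finset.prod_ne_zero_iff]
    intro v hv
    simp only [Polynomial.eval_sub, Polynomial.eval_X, Polynomial.eval_C]
    exact sub_ne_zero.mpr (Finset.ne_of_mem_erase hv).symm
  have hg0 : ∀ k, z k ≠ w → g.eval (z k) = 0 := by
    intro k hk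
    rw [hg, Polynomial.eval_prod]
    apply Finset.prod_eq_zero (Finset.mem_erase.mpr ⟨hk, Finset.mem_image_of_mem z
      (Finset.mem_univ k)⟩)
    simp
  obtain ⟨c, hc⟩ : ∃ c : ℕ, c = (Finset.univ.filter fun k => z k = w).card := ⟨_, rfl⟩
  have hc0 : 0 < c := by
    rw [hc, Finset.card_pos]
    exact ⟨i, by simp [hw]⟩
  have key : ∀ j : ℕ, ∑ k, g.eval (z k) * z k ^ j = (c : ℂ) * (g.eval w * w ^ j) := by
    intro j
    have h1 : ∑ k, g.eval (z k) * z k ^ j =
        ∑ k ∈ Finset.univ.filter (fun k => z k = w), g.eval (z k) * z k ^ j := by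
      rw [Finset.sum_filter]
      apply Finset.sum_congr rfl
      intro k _
      split_ifs with hk
      · rfl
      · rw [hg0 k hk, zero_mul]
    rw [h1, hc, ← nsmul_eq_mul, ← Finset.sum_const]
    apply Finset.sum_congr rfl
    intro k hk
    rw [(Finset.mem_filter.mp hk).2]
  have key2 : ∀ j : ℕ, 1 ≤ j → ‖(c : ℂ) * (g.eval w * w ^ j)‖ ≤
      ∑ l ∈ Finset.range (g.natDegree + 1), ‖g.coeff l‖ * C := by
    intro j hj
    rw [← key]
    have h1 : ∑ k, g.eval (z k) * z k ^ j =
        ∑ l ∈ Finset.range (g.natDegree + 1), g.coeff l * ∑ k, z k ^ (l + j) := by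
      calc ∑ k, g.eval (z k) * z k ^ j =
          ∑ k, ∑ l ∈ Finset.range (g.natDegree + 1), g.coeff l * z k ^ (l + j) := by
            apply Finset.sum_congr rfl
            intro k _
            rw [Polynomial.eval_eq_sum_range, Finset.sum_mul]
            apply Finset.sum_congr rfl
            intro l _
            rw [pow_add, mul_assoc]
        _ = _ := by
            rw [Finset.sum_comm]
            apply Finset.sum_congr rfl
            intro l _
            rw [Finset.mul_sum]
    rw [h1]
    refine (norm_sum_le _ _).trans (Finset.sum_le_sum fun l _ => ?_)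
    rw [norm_mul]
    exact mul_le_mul_of_nonneg_left (h (l + j) (by omega)) (norm_nonneg _)
  have hw1 : 1 < ‖w‖ := by rw [hw]; exact hlt
  obtain ⟨B, hB⟩ : ∃ B : ℝ, B = ∑ l ∈ Finset.range (g.natDegree + 1), ‖g.coeff l‖ * C :=
    ⟨_, rfl⟩
  obtain ⟨j, hj⟩ := pow_unbounded_of_one_lt (B / (c * ‖g.eval w‖)) hw1
  have hpos : 0 < (c : ℝ) * ‖g.eval w‖ := by
    have h1 : (0 : ℝ) < c := by exact_mod_cast hc0
    have h2 : 0 < ‖g.eval w‖ := norm_pos_iff.mpr hgw
    positivity
  have h3 := key2 (j + 1) (by omega)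
  rw [← hB, norm_mul, norm_mul, norm_pow, Complex.norm_natCast, ← mul_assoc] at h3
  rw [div_lt_iff₀ hpos] at hj
  have h4 : ‖w‖ ^ j ≤ ‖w‖ ^ (j + 1) := pow_le_pow_right₀ hw1.le (by omega)
  have h5 : ‖w‖ ^ j * (c * ‖g.eval w‖) ≤ c * ‖g.eval w‖ * ‖w‖ ^ (j + 1) := by
    rw [mul_comm]
    exact mul_le_mul_of_nonneg_left h4 hpos.le
  linarith

end Pool.Agent.OPG.Katz
end

section

set_option autoImplicit false

namespace Pool.Agent.OPG.Katz

open Polynomial

/-- Stepanov's operators: `f ^ k * E_k (f ^ ν * r) = f ^ ν * T r`, with control of degrees. -/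
theorem exists_T {E : Type} [Field E] (f : E[X]) (D : ℕ) (hD : 1 ≤ D) (hf : f.natDegree ≤ D)
    (ν k : ℕ) :
    ∃ T : E[X] →ₗ[E] E[X], (∀ r, f ^ k * hasseDeriv k (f ^ ν * r) = f ^ ν * T r) ∧
      ∀ (r : E[X]) (a : ℕ), r.natDegree ≤ a → (T r).natDegree ≤ a + k * (D - 1) := by
  obtain ⟨D', rfl⟩ : ∃ D', D = D' + 1 := ⟨D - 1, by omega⟩
  rw [Nat.add_sub_cancel]
  induction ν generalizing k with
  | zero =>
    refine ⟨(LinearMap.mulLeft E (f ^ k)).comp (hasseDeriv k), ?_, ?_⟩
    · intro r
      rw [pow_zero, one_mul, one_mul]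
      rfl
    · intro r a hr
      change (f ^ k * hasseDeriv k r).natDegree ≤ _
      by_cases hk : k ≤ r.natDegree
      · refine natDegree_mul_le.trans ?_
        have h1 : (f ^ k).natDegree ≤ k * (D' + 1) :=
          natDegree_pow_le.trans (Nat.mul_le_mul_left _ hf)
        have h2 : (hasseDeriv k r).natDegree ≤ r.natDegree - k := natDegree_hasseDeriv_le r k
        have h3 : k * (D' + 1) = k * D' + k := by ring
        omega
      · have h1 : hasseDeriv k r = 0 := by
          apply hasseDeriv_eq_zero_of_lt_natDegree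
          omega
        rw [h1, mul_zero, natDegree_zero]
        exact Nat.zero_le _
  | succ ν ih =>
    choose T hT1 hT2 using ih
    refine ⟨T k + ∑ i ∈ Finset.range k,
      (LinearMap.mulLeft E (f ^ i * hasseDeriv (i + 1) f)).comp (T (k - 1 - i)), ?_, ?_⟩
    · intro r
      rw [pow_succ', mul_assoc, hasseDeriv_mul, Finset.mul_sum,
        Finset.Nat.sum_antidiagonal_eq_sum_range_succ_mk, Finset.sum_range_succ']
      rw [LinearMap.add_apply, LinearMap.sum_apply, mul_add, Finset.mul_sum, add_comm]
      congr 1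
      · rw [hasseDeriv_zero, LinearMap.id_apply, Nat.sub_zero]
        calc f ^ k * (f * hasseDeriv k (f ^ ν * r))
            = f * (f ^ k * hasseDeriv k (f ^ ν * r)) := by ring
          _ = _ := by rw [hT1]; ring
      · apply Finset.sum_congr rfl
        intro i hi
        rw [Finset.mem_range] at hi
        rw [LinearMap.comp_apply, LinearMap.mulLeft_apply]
        have h1 := hT1 (k - 1 - i) r
        have h2 : k - (i + 1) = k - 1 - i := by omega
        have h3 : f ^ k = f ^ (i + 1) * f ^ (k - 1 - i) := by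
          rw [← pow_add]
          congr 1
          omega
        rw [h2, h3]
        calc f ^ (i + 1) * f ^ (k - 1 - i)
              * (hasseDeriv (i + 1) f * hasseDeriv (k - 1 - i) (f ^ ν * r))
            = f ^ (i + 1) * hasseDeriv (i + 1) f
              * (f ^ (k - 1 - i) * hasseDeriv (k - 1 - i) (f ^ ν * r)) := by ring
          _ = _ := by rw [h1]; ring
    · intro r a hr
      rw [LinearMap.add_apply, LinearMap.sum_apply]
      refine (natDegree_add_le _ _).trans (max_le (hT2 k r a hr) ?_)
      apply natDegree_sum_le_of_forall_le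
      intro i hi
      rw [Finset.mem_range] at hi
      rw [LinearMap.comp_apply, LinearMap.mulLeft_apply]
      refine natDegree_mul_le.trans ?_
      have h1 := hT2 (k - 1 - i) r a hr
      have h2 : (f ^ i * hasseDeriv (i + 1) f).natDegree ≤ i * (D' + 1) + (D' + 1 - (i + 1)) := by
        refine natDegree_mul_le.trans ?_
        apply add_le_add
        · exact natDegree_pow_le.trans (Nat.mul_le_mul_left _ hf)
        · exact (natDegree_hasseDeriv_le f (i + 1)).trans (Nat.sub_le_sub_right hf _)
      obtain ⟨l, rfl⟩ : ∃ l, k = l + 1 + i := ⟨k - 1 - i, by omega⟩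
      have h4 : l + 1 + i - 1 - i = l := by omega
      rw [h4] at h1 ⊢
      by_cases h5 : i ≤ D'
      · have h6 : D' + 1 - (i + 1) = D' - i := by omega
        rw [h6] at h2
        have h7 : i * (D' + 1) = i * D' + i := by ring
        have h8 : (l + 1 + i) * D' = l * D' + D' + i * D' := by ring
        omega
      · have h6 : hasseDeriv (i + 1) f = 0 := by
          apply hasseDeriv_eq_zero_of_lt_natDegree
          omega
        rw [h6, mul_zero, natDegree_zero]
        have h8 : (l + 1 + i) * D' = l * D' + D' + i * D' := by ring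
        omega

end Pool.Agent.OPG.Katz
end

section

set_option autoImplicit false

namespace Pool.Agent.OPG.Katz

open Polynomial

/-- Taylor coefficients of `h * X ^ (Q j)` of order less than `Q = |E|` at points of `E`. -/
theorem coeff_taylor {E : Type} [Field E] [Fintype E] (x : E) (h : E[X]) (j k : ℕ)
    (hk : k < Fintype.card E) :
    (taylor x (h * X ^ (Fintype.card E * j))).coeff k = (taylor x h).coeff k * x ^ j := by
  set Q := Fintype.card E with hQ
  obtain ⟨p, hp⟩ := CharP.exists E
  have hpp : Fact p.Prime := ⟨CharP.char_is_prime E p⟩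
  obtain ⟨n, _, hn⟩ := FiniteField.card E p
  have h1 : taylor x (X ^ (Q * j) : E[X]) = (X ^ Q + C x) ^ j := by
    rw [pow_mul, taylor_pow, taylor_pow, taylor_X]
    congr 1
    have h2 : (X + C x : E[X]) ^ Q = X ^ Q + C x ^ Q := by
      rw [hQ, hn]
      exact add_pow_char_pow (X : E[X]) (C x) p n
    rw [h2, ← C_pow, hQ, FiniteField.pow_card]
  have h3 : ∃ R : E[X], (X ^ Q + C x : E[X]) ^ j = C (x ^ j) + X ^ Q * R := by
    have h4 : (X ^ Q : E[X]) ∣ (X ^ Q + C x) ^ j - C x ^ j := by
      have h5 := sub_dvd_pow_sub_pow (X ^ Q + C x : E[X]) (C x) j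
      rw [add_sub_cancel_right] at h5
      exact h5
    obtain ⟨R, hR⟩ := h4
    refine ⟨R, ?_⟩
    rw [C_pow, ← hR]
    ring
  obtain ⟨R, hR⟩ := h3
  rw [taylor_mul, h1, hR, mul_add, coeff_add, coeff_mul_C]
  have h6 : (taylor x h * (X ^ Q * R)).coeff k = 0 := by
    have h7 : taylor x h * (X ^ Q * R) = X ^ Q * (taylor x h * R) := by ring
    rw [h7, coeff_X_pow_mul', if_neg (by omega)]
  rw [h6, add_zero]

/-- Divisibility by a power of `X - x` in terms of Taylor coefficients. -/
theorem pow_dvd_of_taylor {E : Type} [Field E] (x : E) (P : E[X]) (l : ℕ)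
    (h : ∀ k < l, (taylor x P).coeff k = 0) : (X - C x) ^ l ∣ P := by
  rw [X_sub_C_pow_dvd_iff, X_pow_dvd_iff]
  intro k hk
  have := h k hk
  rwa [taylor_apply] at this

end Pool.Agent.OPG.Katz
end

section

set_option autoImplicit false

namespace Pool.Agent.OPG.Katz

open Polynomial

/-- Counting roots with multiplicity. -/
theorem card_mul_le {E : Type} [Field E] (P : E[X]) (hP : P ≠ 0) (l : ℕ) (S : Finset E)
    (h : ∀ x ∈ S, (X - C x) ^ l ∣ P) : S.card * l ≤ P.natDegree := by
  classical
  have h1 : (∏ x ∈ S, (X - C x) ^ l) ∣ P := by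
    apply Finset.prod_dvd_of_coprime _ h
    intro x _ y _ hxy
    exact (isCoprime_X_sub_C_of_isUnit_sub (sub_ne_zero.2 hxy).isUnit).pow
  have h2 := natDegree_le_of_dvd h1 hP
  rw [natDegree_prod _ _ (fun x _ => pow_ne_zero _ (X_sub_C_ne_zero x))] at h2
  simpa using h2

end Pool.Agent.OPG.Katz
end

section

set_option autoImplicit false

namespace Pool.Agent.OPG.Katz

open Polynomial

/-- A nonzero vector killed by `l` linear maps into polynomials of degree less than `B`. -/
theorem exists_ker {E ι : Type} [Field E] [Fintype ι] (l B : ℕ)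
    (Φ : ℕ → ((ι → E) →ₗ[E] E[X])) (hΦ : ∀ k < l, ∀ a c, B ≤ c → (Φ k a).coeff c = 0)
    (hcard : l * B < Fintype.card ι) : ∃ a : ι → E, a ≠ 0 ∧ ∀ k < l, Φ k a = 0 := by
  classical
  let Ψ : (ι → E) →ₗ[E] (Fin l × Fin B → E) :=
    LinearMap.pi fun p => (lcoeff E (p.2 : ℕ)).comp (Φ (p.1 : ℕ))
  have h1 : Module.finrank E (Fin l × Fin B → E) < Module.finrank E (ι → E) := by
    rw [Module.finrank_fintype_fun_eq_card, Module.finrank_fintype_fun_eq_card,
      Fintype.card_prod, Fintype.card_fin, Fintype.card_fin]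
    exact hcard
  have h2 := LinearMap.ker_ne_bot_of_finrank_lt (f := Ψ) h1
  obtain ⟨a, ha, ha0⟩ := Submodule.exists_mem_ne_zero_of_ne_bot h2
  refine ⟨a, ha0, ?_⟩
  intro k hk
  ext c
  rw [coeff_zero]
  by_cases hc : c < B
  · have h3 := congrFun (LinearMap.mem_ker.1 ha) (⟨k, hk⟩, ⟨c, hc⟩)
    exact h3
  · exact hΦ k hk a c (by omega)

end Pool.Agent.OPG.Katz
end

section

set_option autoImplicit false

namespace Pool.Agent.OPG.Katz

open Polynomial

lemma E4b_no_root {F K : Type} [Field F] [Fintype F] [Algebra (ZMod 2) F] [Field K]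
    [Fintype K] [Algebra F K] (θ : K)
    (htr : Algebra.trace (ZMod 2) F (Algebra.trace F K θ) = 1) (v : K) :
    v ^ 2 + v + θ ≠ 0 := by
  intro h
  haveI : CharP F 2 := charP_of_injective_algebraMap (algebraMap (ZMod 2) F).injective 2
  haveI : CharP K 2 := charP_of_injective_algebraMap (algebraMap F K).injective 2
  let _ : Algebra (ZMod 2) K := ZMod.algebra K 2
  haveI : IsScalarTower (ZMod 2) F K := IsScalarTower.of_algebraMap_eq' (Subsingleton.elim _ _)
  haveI : Module.Finite F K := Module.Finite.of_finite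
  haveI : Module.Finite (ZMod 2) F := Module.Finite.of_finite
  haveI : Module.Finite (ZMod 2) K := Module.Finite.of_finite
  rw [Algebra.trace_trace] at htr
  have h1 : θ = v ^ 2 + v := by
    have h2 : v ^ 2 + v + (v ^ 2 + v) = 0 := CharTwo.add_self_eq_zero _
    linear_combination h - h2
  have h3 : Algebra.trace (ZMod 2) K (v ^ 2) = Algebra.trace (ZMod 2) K v := by
    have h4 := Algebra.trace_eq_of_algEquiv (FiniteField.frobeniusAlgEquivOfAlgebraic (ZMod 2) K) v
    rw [FiniteField.coe_frobeniusAlgEquivOfAlgebraic, ZMod.card] at h4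
    exact h4
  rw [h1, map_add, h3, CharTwo.add_self_eq_zero] at htr
  exact zero_ne_one htr

/-- The quadratic extension of `K` generated by a root of `α ^ 2 + α = θ`. -/
theorem exists_quadratic {F K : Type} [Field F] [Fintype F] [Algebra (ZMod 2) F] [Field K]
    [Fintype K] [Algebra F K] (θ : K) (m : ℕ) (hm : 1 ≤ m) (hfr : Module.finrank F K = m)
    (hθ : ∀ y : K, ∃ g : F[X], g.natDegree < m ∧ aeval θ g = y)
    (htr : Algebra.trace (ZMod 2) F (Algebra.trace F K θ) = 1) :
    ∃ (L : Type) (_ : Field L) (_ : Fintype L) (_ : Algebra K L) (_ : Algebra F L)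
      (_ : IsScalarTower F K L) (α : L), Module.finrank F L = 2 * m ∧
      (∀ y : L, ∃ g : F[X], g.natDegree < 2 * m ∧ aeval α g = y) ∧
      ∀ v : F, Algebra.norm K (α + algebraMap F L v) = θ + algebraMap F K (v ^ 2 + v) := by
  haveI : CharP F 2 := charP_of_injective_algebraMap (algebraMap (ZMod 2) F).injective 2
  haveI : CharP K 2 := charP_of_injective_algebraMap (algebraMap F K).injective 2
  haveI : Module.Finite F K := Module.Finite.of_finite
  set f : K[X] := X ^ 2 + X + C θ with hf
  have hmon : f.Monic := by rw [hf]; monicity!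
  have hdeg : f.natDegree = 2 := by rw [hf]; compute_degree!
  have hirr : Irreducible f := by
    refine Polynomial.irreducible_of_degree_le_three_of_not_isRoot ?_ ?_
    · rw [hdeg]; decide
    · intro v hv
      rw [IsRoot.def, hf] at hv
      simp only [eval_add, eval_pow, eval_X, eval_C] at hv
      exact E4b_no_root θ htr v hv
  haveI : Fact (Irreducible f) := ⟨hirr⟩
  have hf0 : f ≠ 0 := hmon.ne_zero
  set pb := AdjoinRoot.powerBasis hf0 with hpb
  haveI : Module.Finite K (AdjoinRoot f) := pb.finite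
  haveI : Finite (AdjoinRoot f) := Module.finite_of_finite K
  let _ : Fintype (AdjoinRoot f) := Fintype.ofFinite _
  haveI : CharP (AdjoinRoot f) 2 :=
    charP_of_injective_algebraMap (algebraMap K (AdjoinRoot f)).injective 2
  haveI : Module.Finite F (AdjoinRoot f) := Module.Finite.of_finite
  set α : AdjoinRoot f := AdjoinRoot.root f with hα
  have hfrK : Module.finrank K (AdjoinRoot f) = 2 := by
    rw [pb.finrank, hpb, AdjoinRoot.powerBasis_dim, hdeg]
  have hfrL : Module.finrank F (AdjoinRoot f) = 2 * m := by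
    rw [← Module.finrank_mul_finrank F K (AdjoinRoot f), hfr, hfrK, mul_comm]
  -- the equation of `α`
  have hroot : α ^ 2 + α + algebraMap K (AdjoinRoot f) θ = 0 := by
    have := AdjoinRoot.eval₂_root f
    rw [hf] at this
    simpa [eval₂_add, eval₂_pow, eval₂_X, eval₂_C] using this
  have hθL : algebraMap K (AdjoinRoot f) θ = α ^ 2 + α := by
    have h2 : α ^ 2 + α + (α ^ 2 + α) = 0 := CharTwo.add_self_eq_zero _
    linear_combination hroot - h2
  have hK : ∀ k : K, algebraMap K (AdjoinRoot f) k ∈ Algebra.adjoin F {α} := by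
    intro k
    obtain ⟨g, -, hg⟩ := hθ k
    rw [← hg, ← aeval_algebraMap_apply, hθL]
    have h1 : α ∈ Algebra.adjoin F {α} := Algebra.self_mem_adjoin_singleton F α
    have h2 : α ^ 2 + α ∈ Algebra.adjoin F {α} := add_mem (pow_mem h1 2) h1
    rw [aeval_eq_sum_range]
    exact Subalgebra.sum_mem _ fun i _ => Subalgebra.smul_mem _ (pow_mem h2 i) _
  have htop : ∀ y : AdjoinRoot f, y ∈ Algebra.adjoin F {α} := by
    intro y
    obtain ⟨h, rfl⟩ := AdjoinRoot.mk_surjective y
    rw [← AdjoinRoot.aeval_eq, aeval_eq_sum_range]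
    refine Subalgebra.sum_mem _ fun i _ => ?_
    rw [Algebra.smul_def]
    exact mul_mem (hK _) (pow_mem (Algebra.self_mem_adjoin_singleton F α) i)
  have hsurj : ∀ y : AdjoinRoot f, ∃ g : F[X], aeval α g = y := by
    intro y
    have := htop y
    rw [Algebra.adjoin_singleton_eq_range_aeval] at this
    exact this
  have hint : IsIntegral F α := Algebra.IsIntegral.isIntegral α
  have hmin : (minpoly F α).natDegree = 2 * m := by
    rw [← hfrL, ← Field.primitive_element_iff_minpoly_natDegree_eq]
    rw [eq_top_iff]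
    intro y _
    obtain ⟨g, hg⟩ := hsurj y
    rw [← hg]
    have h1 : α ∈ IntermediateField.adjoin F {α} := IntermediateField.mem_adjoin_simple_self F α
    rw [aeval_eq_sum_range]
    exact sum_mem fun i _ => IntermediateField.smul_mem _ (pow_mem h1 i)
  refine ⟨AdjoinRoot f, inferInstance, inferInstance, inferInstance, inferInstance, inferInstance,
    α, hfrL, fun y => ?_, fun v => ?_⟩
  · obtain ⟨g, hg⟩ := hsurj y
    refine ⟨g %ₘ minpoly F α, ?_, ?_⟩
    · rw [← hmin]
      refine natDegree_modByMonic_lt g (minpoly.monic hint) ?_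
      intro h
      rw [h, natDegree_one] at hmin
      omega
    · rw [← hg]
      exact aeval_modByMonic_eq_self_of_root (minpoly.aeval F α)
  · have h1 : α + algebraMap F (AdjoinRoot f) v
        = algebraMap K (AdjoinRoot f) (algebraMap F K v) - α := by
      rw [← IsScalarTower.algebraMap_apply, CharTwo.sub_eq_add, add_comm]
    have h2 : Algebra.leftMulMatrix pb.basis
        (algebraMap K (AdjoinRoot f) (algebraMap F K v) - α)
        = Matrix.scalar _ (algebraMap F K v) - Algebra.leftMulMatrix pb.basis pb.gen := by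
      have h3 : pb.gen = α := by rw [hpb, AdjoinRoot.powerBasis_gen]
      rw [map_sub, AlgHom.commutes, h3]
      rfl
    rw [h1, Algebra.norm_eq_matrix_det pb.basis, h2, ← Matrix.eval_charpoly,
      charpoly_leftMulMatrix, hpb, AdjoinRoot.minpoly_powerBasis_gen_of_monic hmon, hf]
    simp only [eval_add, eval_pow, eval_X, eval_C, map_add, map_pow]
    ring

end Pool.Agent.OPG.Katz
end
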