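import Mathlib
import Pool.Agent.OPG.Mg_MP_fce80c_co.G001

section

set_option autoImplicit false

namespace Pool.Agent.OPG.Katz

open Polynomial

/-- A sum of polynomials with distinct orders at `0` is not zero. -/
theorem sum_ne_zero_of_trailing {E ι : Type} [Field E] (s : Finset ι) (p : ι → E[X])
    (hne : ∃ i ∈ s, p i ≠ 0)
    (hinj : ∀ i ∈ s, ∀ j ∈ s, p i ≠ 0 → p j ≠ 0 →
      (p i).natTrailingDegree = (p j).natTrailingDegree → i = j) :
    ∑ i ∈ s, p i ≠ 0 := by
  classical
  have hne' : (s.filter (fun i => p i ≠ 0)).Nonempty := by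
    obtain ⟨i, hi, hi2⟩ := hne
    exact ⟨i, Finset.mem_filter.2 ⟨hi, hi2⟩⟩
  obtain ⟨i₀, hi₀, hmin⟩ := Finset.exists_min_image _ (fun i => (p i).natTrailingDegree) hne'
  rw [Finset.mem_filter] at hi₀
  intro h0
  have h1 : (∑ i ∈ s, p i).coeff (p i₀).natTrailingDegree = 0 := by rw [h0, coeff_zero]
  rw [finsetSum_coeff, Finset.sum_eq_single i₀] at h1
  · have h2 : (p i₀).trailingCoeff = 0 := h1
    exact hi₀.2 (trailingCoeff_eq_zero.1 h2)
  · intro i hi hne
    by_cases hz : p i = 0
    · rw [hz, coeff_zero]
    · apply coeff_eq_zero_of_lt_natTrailingDegree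
      refine lt_of_le_of_ne (hmin i (Finset.mem_filter.2 ⟨hi, hz⟩)) ?_
      intro h3
      exact hne (hinj i hi i₀ hi₀.1 hz hi₀.2 h3.symm)
  · intro h
    exact absurd hi₀.1 h

/-- Nonvanishing of Stepanov's auxiliary polynomial. -/
theorem aux_ne_zero {E : Type} [Field E] (g : E[X]) (hg : g.eval 0 ≠ 0) (N J e Q l : ℕ)
    (hQ : N * e < Q) (r : Fin N → Fin J → E[X]) (hr : ∀ i j, (r i j).natDegree < e)
    (hne : ∃ i j, r i j ≠ 0) :
    ∑ i : Fin N, ∑ j : Fin J, (X * g) ^ (l + (i : ℕ) * e) * r i j * X ^ (Q * (j : ℕ)) ≠ 0 := by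
  have hg0 : g ≠ 0 := by
    rintro rfl
    simp at hg
  have hgc : g.coeff 0 ≠ 0 := by rwa [coeff_zero_eq_eval_zero]
  have hXg : ∀ k : ℕ, (X * g : E[X]) ^ k ≠ 0 := fun k => pow_ne_zero _ (mul_ne_zero X_ne_zero hg0)
  have hord : ∀ k : ℕ, ((X * g : E[X]) ^ k).natTrailingDegree = k := by
    intro k
    rw [mul_pow, natTrailingDegree_mul (pow_ne_zero _ X_ne_zero) (pow_ne_zero _ hg0),
      natTrailingDegree_X_pow]
    have : (g ^ k).natTrailingDegree = 0 := by
      rw [natTrailingDegree_eq_zero]
      right
      rw [coeff_zero_eq_eval_zero, eval_pow]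
      exact pow_ne_zero _ hg
    rw [this, add_zero]
  rw [← Finset.sum_product']
  apply sum_ne_zero_of_trailing
  · obtain ⟨i, j, hij⟩ := hne
    exact ⟨(i, j), Finset.mem_product.2 ⟨Finset.mem_univ _, Finset.mem_univ _⟩,
      mul_ne_zero (mul_ne_zero (hXg _) hij) (pow_ne_zero _ X_ne_zero)⟩
  · rintro ⟨i, j⟩ - ⟨i', j'⟩ - h1 h2 h3
    have hz : r i j ≠ 0 := by
      intro h
      apply h1
      simp [h]
    have hz' : r i' j' ≠ 0 := by
      intro h
      apply h2
      simp [h]
    have key : ∀ (a : Fin N) (b : Fin J), r a b ≠ 0 →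
        ((X * g) ^ (l + (a : ℕ) * e) * r a b * X ^ (Q * (b : ℕ))).natTrailingDegree =
          (l + (a : ℕ) * e) + (r a b).natTrailingDegree + Q * (b : ℕ) := by
      intro a b hab
      rw [natTrailingDegree_mul (mul_ne_zero (hXg _) hab) (pow_ne_zero _ X_ne_zero),
        natTrailingDegree_mul (hXg _) hab, hord, natTrailingDegree_X_pow]
    simp only at h3
    rw [key i j hz, key i' j' hz'] at h3
    have t1 : (r i j).natTrailingDegree < e :=
      lt_of_le_of_lt (natTrailingDegree_le_natDegree _) (hr i j)
    have t2 : (r i' j').natTrailingDegree < e :=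
      lt_of_le_of_lt (natTrailingDegree_le_natDegree _) (hr i' j')
    set t := (r i j).natTrailingDegree
    set t' := (r i' j').natTrailingDegree
    have b1 : (i : ℕ) * e + t < Q := by
      have : ((i : ℕ) + 1) * e ≤ N * e := Nat.mul_le_mul_right _ i.2
      have h5 : ((i : ℕ) + 1) * e = (i : ℕ) * e + e := by ring
      omega
    have b2 : (i' : ℕ) * e + t' < Q := by
      have : ((i' : ℕ) + 1) * e ≤ N * e := Nat.mul_le_mul_right _ i'.2
      have h5 : ((i' : ℕ) + 1) * e = (i' : ℕ) * e + e := by ring
      omega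
    have h4 : ((i : ℕ) * e + t) + Q * (j : ℕ) = ((i' : ℕ) * e + t') + Q * (j' : ℕ) := by omega
    have hQ0 : 0 < Q := by omega
    have hj : (j : ℕ) = j' := by
      have e1 : (((i : ℕ) * e + t) + Q * (j : ℕ)) / Q = j := by
        rw [Nat.add_mul_div_left _ _ hQ0, Nat.div_eq_of_lt b1, zero_add]
      have e2 : (((i' : ℕ) * e + t') + Q * (j' : ℕ)) / Q = j' := by
        rw [Nat.add_mul_div_left _ _ hQ0, Nat.div_eq_of_lt b2, zero_add]
      rw [← e1, ← e2, h4]
    have h6 : (i : ℕ) * e + t = (i' : ℕ) * e + t' := by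
      rw [hj] at h4
      omega
    have he0 : 0 < e := by omega
    have hi : (i : ℕ) = i' := by
      have e1 : (t + e * (i : ℕ)) / e = i := by
        rw [Nat.add_mul_div_left _ _ he0, Nat.div_eq_of_lt t1, zero_add]
      have e2 : (t' + e * (i' : ℕ)) / e = i' := by
        rw [Nat.add_mul_div_left _ _ he0, Nat.div_eq_of_lt t2, zero_add]
      have e3 : t + e * (i : ℕ) = t' + e * (i' : ℕ) := by
        rw [mul_comm e, mul_comm e]
        omega
      rw [← e1, ← e2, e3]
    exact Prod.ext (Fin.ext hi) (Fin.ext hj)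

end Pool.Agent.OPG.Katz
end

section

set_option autoImplicit false

namespace Pool.Agent.OPG.Katz

open Polynomial Finset

/-- The coefficient `L_0`. -/
theorem L_zero {F : Type} [Field F] [Fintype F] (lam : F[X] →* ℂ) :
    ∑ h ∈ monics F 0, lam h = 1 := by
  have h0 : monics F 0 = {1} := by
    ext h
    rw [mem_monics, Finset.mem_singleton]
    constructor
    · rintro ⟨hm, hd⟩
      exact (Monic.natDegree_eq_zero hm).mp hd
    · rintro rfl
      exact ⟨monic_one, natDegree_one⟩
  rw [h0, Finset.sum_singleton, map_one]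

/-- The coefficient `L_1`. -/
theorem L_one {F : Type} [Field F] [Fintype F] (lam : F[X] → ℂ) :
    ∑ h ∈ monics F 1, lam h = ∑ c : F, lam (X + C c) := by
  symm
  refine Finset.sum_bij (fun c _ => X + C c) ?_ ?_ ?_ ?_
  · intro c _
    rw [mem_monics]
    exact ⟨monic_X_add_C c, natDegree_X_add_C c⟩
  · intro c _ d _ hcd
    have := congrArg (fun p : F[X] => p.coeff 0) hcd
    simpa using this
  · intro h hh
    rw [mem_monics] at hh
    refine ⟨h.coeff 0, Finset.mem_univ _, ?_⟩
    rw [hh.1.eq_X_add_C hh.2]
    simp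
  · intro c _
    rfl

/-- The coefficients `L_k`, `k ≥ n`, vanish. -/
theorem L_vanish {F K : Type} [Field F] [Fintype F] [Field K] [Fintype K] [Algebra F K]
    (a : K) (n : ℕ) (ha : ∀ y : K, ∃ g : F[X], g.natDegree < n ∧ aeval a g = y)
    (χ : MulChar K ℂ) (hχ : χ ≠ 1) (k : ℕ) (hk : n ≤ k) (hk1 : 1 ≤ k) :
    ∑ h ∈ monics F k, χ (aeval a h) = 0 := by
  classical
  have key : ∀ y : K, ∑ h ∈ monics F k, χ (aeval a h) = ∑ h ∈ monics F k, χ (aeval a h + y) := by
    intro y
    obtain ⟨g, hg, hgy⟩ := ha y
    have hgk : g.degree < k :=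
      lt_of_le_of_lt degree_le_natDegree (by exact_mod_cast lt_of_lt_of_le hg hk)
    symm
    refine Finset.sum_bij (fun h _ => h + g) ?_ ?_ ?_ ?_
    · intro h hh
      rw [mem_monics] at hh ⊢
      have hdh : h.degree = k := by
        rw [degree_eq_natDegree hh.1.ne_zero, hh.2]
      have hlt : g.degree < h.degree := by rw [hdh]; exact hgk
      refine ⟨hh.1.add_of_left hlt, ?_⟩
      rw [natDegree_add_eq_left_of_degree_lt hlt, hh.2]
    · intro h _ h' _ e
      exact add_right_cancel e
    · intro h hh
      rw [mem_monics] at hh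
      have hdh : h.degree = k := by
        rw [degree_eq_natDegree hh.1.ne_zero, hh.2]
      have hlt : (-g).degree < h.degree := by rw [hdh, degree_neg]; exact hgk
      refine ⟨h + -g, ?_, by simp⟩
      rw [mem_monics]
      refine ⟨hh.1.add_of_left hlt, ?_⟩
      rw [natDegree_add_eq_left_of_degree_lt hlt, hh.2]
    · intro h _
      rw [map_add (aeval a), hgy]
  have h1 : ∑ _y : K, ∑ h ∈ monics F k, χ (aeval a h) = 0 := by
    rw [Finset.sum_congr rfl (fun y _ => key y), Finset.sum_comm]
    refine Finset.sum_eq_zero (fun h _ => ?_)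
    have : ∑ y : K, χ (aeval a h + y) = ∑ y : K, χ y :=
      Equiv.sum_comp (Equiv.addLeft (aeval a h)) (fun y => χ y)
    rw [this]
    exact MulChar.sum_eq_zero_of_ne_one hχ
  rw [Finset.sum_const, nsmul_eq_mul] at h1
  rcases mul_eq_zero.mp h1 with h2 | h2
  · exfalso
    have : (Finset.univ : Finset K).card = 0 := by exact_mod_cast h2
    rw [Finset.card_univ] at this
    exact Fintype.card_ne_zero this
  · exact h2

end Pool.Agent.OPG.Katz
end

section

set_option autoImplicit false

namespace Pool.Agent.OPG.Katz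

open Polynomial

/-- The value of a power of the minimal polynomial as a product over the Frobenius orbit. -/
theorem minpoly_pow {F E : Type} [Field F] [Fintype F] [Field E] [Fintype E] [Algebra F E]
    (r : ℕ) (hr : Module.finrank F E = r) (a v : E) :
    (aeval a (minpoly F v)) ^ (r / (minpoly F v).natDegree)
      = ∏ s ∈ Finset.range r, (a - v ^ (Fintype.card F) ^ s) := by
  classical
  have hint : IsIntegral F v := Algebra.IsIntegral.isIntegral v
  have hd : Module.finrank F (IntermediateField.adjoin F {v}) = (minpoly F v).natDegree :=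
    IntermediateField.adjoin.finrank hint
  have hdvd : (minpoly F v).natDegree ∣ r := hr ▸ minpoly.degree_dvd hint
  have hdpos : 0 < (minpoly F v).natDegree := minpoly.natDegree_pos hint
  have hL : Finite (IntermediateField.adjoin F {v}) := inferInstance
  -- powers of the Frobenius of `L`
  have h1 : ∀ (l : ℕ) (y : IntermediateField.adjoin F {v}),
      (FiniteField.frobeniusAlgHom F (IntermediateField.adjoin F {v}) ^ l) y =
        y ^ (Fintype.card F ^ l) := by
    intro l y
    rw [AlgHom.coe_pow, FiniteField.coe_frobeniusAlgHom, pow_iterate]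
  have hgen : ((IntermediateField.AdjoinSimple.gen F v :
      IntermediateField.adjoin F {v}) : E) = v := IntermediateField.AdjoinSimple.coe_gen F v
  have hinj : ∀ i < (minpoly F v).natDegree, ∀ j < (minpoly F v).natDegree,
      v ^ (Fintype.card F ^ i) = v ^ (Fintype.card F ^ j) → i = j := by
    intro i hi j hj hij
    have h2 : FiniteField.frobeniusAlgHom F (IntermediateField.adjoin F {v}) ^ i =
        FiniteField.frobeniusAlgHom F (IntermediateField.adjoin F {v}) ^ j := by
      refine IntermediateField.algHom_ext_of_eq_adjoin _ rfl ?_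
      intro x hx
      have hx' : x = v := hx
      subst hx'
      apply Subtype.ext
      rw [h1, h1]
      push_cast
      exact hij
    have h3 := (FiniteField.bijective_frobeniusAlgHom_pow F
      (IntermediateField.adjoin F {v})).1
    have h4 := @h3 ⟨i, by rw [hd]; exact hi⟩ ⟨j, by rw [hd]; exact hj⟩ h2
    simpa using h4
  have hper : v ^ (Fintype.card F ^ (minpoly F v).natDegree) = v := by
    have h2 : FiniteField.frobeniusAlgHom F (IntermediateField.adjoin F {v}) ^
        (minpoly F v).natDegree = 1 := by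
      rw [← hd, ← FiniteField.orderOf_frobeniusAlgHom F (IntermediateField.adjoin F {v})]
      exact pow_orderOf_eq_one _
    have h3 := h1 (minpoly F v).natDegree (IntermediateField.AdjoinSimple.gen F v)
    rw [h2] at h3
    have h4 := congrArg (Subtype.val) h3
    simp only [AlgHom.one_apply] at h4
    push_cast at h4
    rw [hgen] at h4
    exact h4.symm
  -- the minimal polynomial
  have hroot : ∀ s : ℕ, (aeval (v ^ (Fintype.card F ^ s))) (minpoly F v) = 0 := by
    intro s
    have h2 : (FiniteField.frobeniusAlgHom F E ^ s) v = v ^ (Fintype.card F ^ s) := by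
      rw [AlgHom.coe_pow, FiniteField.coe_frobeniusAlgHom, pow_iterate]
    rw [← h2, aeval_algHom_apply, minpoly.aeval, map_zero]
  have hmon : ((minpoly F v).map (algebraMap F E)).Monic := (minpoly.monic hint).map _
  have hdeg : ((minpoly F v).map (algebraMap F E)).natDegree = (minpoly F v).natDegree :=
    natDegree_map _
  set S : Finset E := (Finset.range (minpoly F v).natDegree).image
    (fun s => v ^ (Fintype.card F ^ s)) with hS
  have hScard : S.card = (minpoly F v).natDegree := by
    rw [hS, Finset.card_image_of_injOn, Finset.card_range]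
    intro i hi j hj hij
    exact hinj i (by simpa using hi) j (by simpa using hj) hij
  have hle : S.val ≤ ((minpoly F v).map (algebraMap F E)).roots := by
    rw [Multiset.le_iff_subset S.nodup]
    intro x hx
    rw [mem_roots hmon.ne_zero, IsRoot.def, eval_map_algebraMap]
    have hx' : x ∈ S := hx
    rw [hS, Finset.mem_image] at hx'
    obtain ⟨s, -, rfl⟩ := hx'
    exact hroot s
  have heq : S.val = ((minpoly F v).map (algebraMap F E)).roots := by
    refine Multiset.eq_of_le_of_card_le hle ?_
    refine (card_roots' _).trans ?_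
    rw [hdeg]
    exact hScard.ge
  have hprod := prod_multiset_X_sub_C_of_monic_of_roots_card_eq hmon
    (by rw [← heq, hdeg]; exact hScard)
  have hval : aeval a (minpoly F v) =
      ∏ s ∈ Finset.range (minpoly F v).natDegree, (a - v ^ (Fintype.card F ^ s)) := by
    rw [← eval_map_algebraMap, ← hprod, ← heq]
    have h5 : (S.val.map fun x => X - C x).prod = ∏ x ∈ S, (X - C x) := rfl
    rw [h5, eval_prod]
    simp only [eval_sub, eval_X, eval_C]
    rw [hS, Finset.prod_image]
    intro i hi j hj hij
    exact hinj i (by simpa using hi) j (by simpa using hj) hij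
  rw [hval]
  obtain ⟨k, rfl⟩ := hdvd
  rw [Nat.mul_div_cancel_left _ hdpos]
  have hperk : ∀ k : ℕ, v ^ (Fintype.card F ^ ((minpoly F v).natDegree * k)) = v := by
    intro k
    induction k with
    | zero => simp
    | succ k ih => rw [Nat.mul_succ, pow_add, pow_mul, ih, hper]
  clear hr
  induction k with
  | zero => simp
  | succ k ih =>
    rw [pow_succ, ih, Nat.mul_succ, Finset.prod_range_add]
    congr 1
    refine Finset.prod_congr rfl fun s _ => ?_
    rw [pow_add, pow_mul, hperk]

end Pool.Agent.OPG.Katz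
end

section

set_option autoImplicit false

namespace Pool.Agent.OPG.Katz

open Polynomial

/-- The norm of the first `n` factors is the product of all factors. -/
theorem norm_prod {F K E : Type} [Field F] [Fintype F] [Field K] [Fintype K] [Field E]
    [Fintype E] [Algebra F K] [Algebra K E] (n j : ℕ) (hn : Module.finrank F K = n)
    (hj : Module.finrank K E = j) (a : K) (v : E) :
    algebraMap K E (Algebra.norm K
        (∏ i ∈ Finset.range n, (algebraMap K E a - v ^ (Fintype.card F) ^ i)))
      = ∏ s ∈ Finset.range (n * j), (algebraMap K E a - v ^ (Fintype.card F) ^ s) := by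
  rw [FiniteField.algebraMap_norm_eq_prod_pow, hj]
  have hcard : Nat.card K = (Fintype.card F) ^ n := by
    rw [Nat.card_eq_fintype_card, ← hn]
    exact Module.card_eq_pow_finrank
  have key : ∀ l : ℕ, (∏ i ∈ Finset.range n, (algebraMap K E a - v ^ (Fintype.card F) ^ i)) ^
      (Nat.card K ^ l) = ∏ i ∈ Finset.range n,
        (algebraMap K E a - v ^ (Fintype.card F) ^ (n * l + i)) := by
    intro l
    have h1 : ∀ y : E, (FiniteField.frobeniusAlgHom K E ^ l) y = y ^ (Nat.card K ^ l) := by
      intro y
      rw [AlgHom.coe_pow, FiniteField.coe_frobeniusAlgHom, pow_iterate,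
        Nat.card_eq_fintype_card]
    rw [← h1, map_prod]
    refine Finset.prod_congr rfl fun i _ => ?_
    rw [map_sub, AlgHom.commutes, map_pow, h1, hcard, ← pow_mul, ← pow_mul, ← pow_add]
  rw [Finset.prod_congr rfl fun l _ => key l]
  clear key
  clear hj
  induction j with
  | zero => simp
  | succ j ih =>
    rw [Finset.prod_range_succ, ih, Nat.mul_succ, Finset.prod_range_add]

end Pool.Agent.OPG.Katz
end

section

set_option autoImplicit false

namespace Pool.Agent.OPG.Katz

open Finset

/-- The kernel of the absolute trace is the image of `v ↦ v ^ 2 + v`, which is two-to-one. -/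
theorem sum_ker_trace {F : Type} [Field F] [Fintype F] [DecidableEq F] [Algebra (ZMod 2) F]
    (G : F → ℂ) :
    ∑ v : F, G (v ^ 2 + v) = 2 * ∑ u : {u : F // Algebra.trace (ZMod 2) F u = 0}, G u := by
  have h10 : ¬ (0 : ZMod 2) + 1 = 0 := by decide
  have h3 : ∀ z : ZMod 2, ¬ z = 0 → z + 1 = 0 := by decide
  classical
  have _i1 : Fact (Nat.Prime 2) := ⟨Nat.prime_two⟩
  have _i2 : CharP F 2 := charP_of_injective_algebraMap (algebraMap (ZMod 2) F).injective 2
  -- the trace of the square is the trace
  have hfrob : ∀ v : F, Algebra.trace (ZMod 2) F (v ^ 2) = Algebra.trace (ZMod 2) F v := by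
    intro v
    have h := Algebra.trace_eq_of_algEquiv
      (FiniteField.frobeniusAlgEquivOfAlgebraic (ZMod 2) F) v
    rw [FiniteField.coe_frobeniusAlgEquivOfAlgebraic] at h
    simpa [ZMod.card] using h
  have htr0 : ∀ v : F, Algebra.trace (ZMod 2) F (v ^ 2 + v) = 0 := by
    intro v
    rw [map_add, hfrob]
    exact CharTwo.add_self_eq_zero _
  set T : Finset F := Finset.univ.filter (fun u : F => Algebra.trace (ZMod 2) F u = 0) with hT
  have hmaps : ∀ v ∈ (Finset.univ : Finset F), v ^ 2 + v ∈ T := by
    intro v _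
    rw [hT, Finset.mem_filter]
    exact ⟨Finset.mem_univ _, htr0 v⟩
  -- half of the elements have trace zero
  obtain ⟨a, ha⟩ : ∃ a : F, Algebra.trace (ZMod 2) F a = 1 :=
    Algebra.trace_surjective (ZMod 2) F 1
  have hT2 : Fintype.card F = 2 * T.card := by
    have h1 : T.card = (Finset.univ.filter
        (fun u : F => ¬ Algebra.trace (ZMod 2) F u = 0)).card := by
      refine Finset.card_bij (fun u _ => u + a) ?_ ?_ ?_
      · intro u hu
        rw [hT, Finset.mem_filter] at hu
        rw [Finset.mem_filter]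
        refine ⟨Finset.mem_univ _, ?_⟩
        rw [map_add, hu.2, ha]
        exact h10
      · intro u _ v _ h
        exact add_right_cancel h
      · intro u hu
        rw [Finset.mem_filter] at hu
        refine ⟨u + a, ?_, ?_⟩
        · rw [hT, Finset.mem_filter]
          refine ⟨Finset.mem_univ _, ?_⟩
          rw [map_add, ha]
          exact h3 _ hu.2
        · rw [add_assoc, CharTwo.add_self_eq_zero, add_zero]
    have h2 := Finset.card_filter_add_card_filter_not (s := (Finset.univ : Finset F))
      (fun u : F => Algebra.trace (ZMod 2) F u = 0)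
    rw [Finset.card_univ] at h2
    rw [← h2, ← h1]
    ring
  have hfib : ∀ u ∈ T, (Finset.univ.filter (fun v : F => v ^ 2 + v = u)).card ≤ 2 := by
    intro u _
    by_cases hne : (Finset.univ.filter (fun v : F => v ^ 2 + v = u)).Nonempty
    · obtain ⟨v₀, hv₀⟩ := hne
      rw [Finset.mem_filter] at hv₀
      have hsub : (Finset.univ.filter (fun v : F => v ^ 2 + v = u)) ⊆ {v₀, -v₀ - 1} := by
        intro v hv
        rw [Finset.mem_filter] at hv
        rw [Finset.mem_insert, Finset.mem_singleton]
        have h : (v - v₀) * (v - (-v₀ - 1)) = 0 := by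
          have h1 := hv.2
          have h2 := hv₀.2
          linear_combination h1 - h2
        rcases mul_eq_zero.1 h with h | h
        · left; exact sub_eq_zero.1 h
        · right; exact sub_eq_zero.1 h
      exact (Finset.card_le_card hsub).trans Finset.card_le_two
    · rw [Finset.not_nonempty_iff_eq_empty] at hne
      rw [hne]
      simp
  have hsum : ∑ u ∈ T, (Finset.univ.filter (fun v : F => v ^ 2 + v = u)).card = ∑ u ∈ T, 2 := by
    rw [Finset.sum_const, smul_eq_mul, mul_comm, ← hT2]
    rw [← Finset.card_univ]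
    exact (Finset.card_eq_sum_card_fiberwise (fun v _ => hmaps v (Finset.mem_univ _))).symm
  have hall := (Finset.sum_eq_sum_iff_of_le hfib).1 hsum
  rw [← Finset.sum_fiberwise_of_maps_to hmaps, Finset.mul_sum]
  have hR : ∑ u : {u : F // Algebra.trace (ZMod 2) F u = 0}, 2 * G u = ∑ u ∈ T, 2 * G u := by
    rw [hT, Finset.sum_filter, ← Finset.sum_filter]
    exact (Finset.sum_subtype (Finset.univ.filter
      (fun u : F => Algebra.trace (ZMod 2) F u = 0)) (by intro x; simp) (fun u => 2 * G u)).symm
  rw [hR]
  apply Finset.sum_congr rfl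
  intro u hu
  have h1 : ∑ v ∈ Finset.univ.filter (fun v : F => v ^ 2 + v = u), G (v ^ 2 + v)
      = ∑ v ∈ Finset.univ.filter (fun v : F => v ^ 2 + v = u), G u := by
    apply Finset.sum_congr rfl
    intro v hv
    rw [(Finset.mem_filter.1 hv).2]
  rw [h1, Finset.sum_const, hall u hu, nsmul_eq_mul]
  push_cast
  ring

end Pool.Agent.OPG.Katz
end
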