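import Pool.Agent.OPG.Mg_MP_fce80c_co.G006
import Pool.Agent.OPG.Mg_MP_fce80c_co.G001
import Pool.Agent.OPG.Mg_MP_fce80c_co.G003
import Pool.Agent.OPG.Mg_MP_fce80c_co.G004

section

set_option autoImplicit false
set_option linter.unusedSectionVars false

namespace Pool.Agent.OPG

open Finset Polynomial

section

variable {F K : Type} [Field F] [Fintype F] [DecidableEq F] [CharP F 2] [Field K] [Fintype K]
  [DecidableEq K] [CharP K 2] [Algebra F K]

/-- Vertices of the graph for even cliques. -/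
abbrev EV (K : Type) [Field K] (k : ℕ) : Type := Kˣ × K × (Fin k → K × K)

/-- The graph for even cliques. -/
def evenGraph (l : F →+ ZMod 2) (θ : K) (hne : ∀ c : F, θ - algebraMap F K c ≠ 0) (k : ℕ) :
    SimpleGraph (EV K k) where
  Adj v v' := ∃ b : KX l, (v.1 : K) * (v'.1 : K) * (v.2.1 + v'.2.1 + sp v.2.2 v'.2.2) = xm l θ b
  symm := ⟨fun v v' h => by
    obtain ⟨b, hb⟩ := h
    refine ⟨b, ?_⟩
    rw [← hb, sp_comm v.2.2]
    ring⟩
  loopless := ⟨fun v h => by
    obtain ⟨b, hb⟩ := h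
    rw [sp_self, add_zero, CharTwo.add_self_eq_zero, mul_zero] at hb
    exact hne b hb.symm⟩

/-- The vector attached to a vertex. -/
def evec {k : ℕ} (v : EV K k) : Fin (k + 1) → K × K :=
  Fin.cons ((v.1 : K), (v.1 : K) * v.2.1)
    (fun i => ((v.1 : K) * (v.2.2 i).1, (v.1 : K) * (v.2.2 i).2))

theorem sp_evec {k : ℕ} (v v' : EV K k) :
    sp (evec v) (evec v')
      = (v.1 : K) * (v'.1 : K) * (v.2.1 + v'.2.1 + sp v.2.2 v'.2.2) := by
  unfold sp evec
  rw [Fin.sum_univ_succ]
  simp only [Fin.cons_zero, Fin.cons_succ]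
  rw [mul_add, Finset.mul_sum]
  congr 1
  · ring
  · apply Finset.sum_congr rfl
    intro i _
    ring

theorem evenGraph_cliqueFree (l : F →+ ZMod 2) (θ : K)
    (hne : ∀ c : F, θ - algebraMap F K c ≠ 0) (k : ℕ) (f : F[X]) (hf : f.Monic)
    (hdeg : f.natDegree = k + 2)
    (hmin : ∀ g : F[X], aeval θ g = 0 → f ∣ g) (hsurj : ∀ y : K, ∃ g : F[X], aeval θ g = y)
    (hl : l (f.coeff (k + 1)) ≠ 0) : (evenGraph l θ hne k).CliqueFree (2 * k + 4) := by
  classical
  by_contra hcon
  rw [SimpleGraph.not_cliqueFree_iff_top_isContained] at hcon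
  obtain ⟨φ⟩ := hcon
  have hφ : ∀ i j, i ≠ j → (evenGraph l θ hne k).Adj (φ i) (φ j) := by
    intro i j hij
    exact φ.toHom.map_adj hij
  have hU : f.coeff (k + 1) ∉ l.ker := hl
  have key : ∀ i j, i ≠ j → ∃ u ∈ l.ker, sp (evec (φ i)) (evec (φ j)) = θ + algebraMap F K u := by
    intro i j hij
    obtain ⟨b, hb⟩ := hφ i j hij
    refine ⟨b, b.2, ?_⟩
    rw [sp_evec, hb]
    unfold xm
    rw [CharTwo.sub_eq_add]
  exact no_gram θ k f hf hdeg hmin hsurj l.ker hU (fun i => evec (φ i)) key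

theorem evenGraph_degree (l : F →+ ZMod 2) (θ : K)
    (hne : ∀ c : F, θ - algebraMap F K c ≠ 0) (k : ℕ) (v : EV K k)
    [Fintype ((evenGraph l θ hne k).neighborSet v)] :
    (evenGraph l θ hne k).degree v
      = Fintype.card Kˣ * Fintype.card (KX l) * Fintype.card (Fin k → K × K) := by
  classical
  have h2 : (2 : K) = 0 := CharTwo.two_eq_zero
  have e : (evenGraph l θ hne k).neighborFinset v
      = (univ : Finset (Kˣ × KX l × (Fin k → K × K))).image
        (fun p => (p.1, xm l θ p.2.1 / ((v.1 : K) * (p.1 : K)) + v.2.1 + sp v.2.2 p.2.2,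
          p.2.2)) := by
    ext v'
    rw [SimpleGraph.mem_neighborFinset, mem_image]
    have hxx : (v.1 : K) * (v'.1 : K) ≠ 0 := mul_ne_zero v.1.ne_zero v'.1.ne_zero
    constructor
    · rintro ⟨b, hb⟩
      refine ⟨(v'.1, b, v'.2.2), mem_univ _, ?_⟩
      refine Prod.ext rfl (Prod.ext ?_ rfl)
      change xm l θ b / ((v.1 : K) * (v'.1 : K)) + v.2.1 + sp v.2.2 v'.2.2 = v'.2.1
      rw [← hb, mul_div_cancel_left₀ _ hxx]
      linear_combination (v.2.1 + sp v.2.2 v'.2.2) * h2
    · rintro ⟨⟨j, b, ω⟩, _, rfl⟩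
      refine ⟨b, ?_⟩
      change (v.1 : K) * (j : K) * (v.2.1 + (xm l θ b / ((v.1 : K) * (j : K)) + v.2.1
        + sp v.2.2 ω) + sp v.2.2 ω) = xm l θ b
      have hxx : (v.1 : K) * (j : K) ≠ 0 := mul_ne_zero v.1.ne_zero j.ne_zero
      have e1 : v.2.1 + (xm l θ b / ((v.1 : K) * (j : K)) + v.2.1
        + sp v.2.2 ω) + sp v.2.2 ω = xm l θ b / ((v.1 : K) * (j : K)) := by
        linear_combination (v.2.1 + sp v.2.2 ω) * h2
      rw [e1, mul_div_cancel₀ _ hxx]
  rw [← SimpleGraph.card_neighborFinset_eq_degree, e, card_image_of_injective, card_univ,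
    Fintype.card_prod, Fintype.card_prod, mul_assoc]
  intro p p' h
  simp only [Prod.mk.injEq] at h
  obtain ⟨h1, h2, h3⟩ := h
  rw [h1, h3] at h2
  have hxx : (v.1 : K) * (p'.1 : K) ≠ 0 := mul_ne_zero v.1.ne_zero p'.1.ne_zero
  have h4 : xm l θ p.2.1 / ((v.1 : K) * (p'.1 : K))
      = xm l θ p'.2.1 / ((v.1 : K) * (p'.1 : K)) := by
    linear_combination h2
  have h5 := (div_left_inj' hxx).1 h4
  exact Prod.ext h1 (Prod.ext (xm_inj l θ h5) h3)

theorem evenGraph_spectral (l : F →+ ZMod 2) (v₀ : F) (hv₀ : l v₀ ≠ 0) (θ : K)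
    (L : K →ₗ[F] F) (hL : L ≠ 0)
    (hne : ∀ c : F, θ - algebraMap F K c ≠ 0) (T : ℝ)
    (hT : ∀ χ : MulChar K ℂ, χ ≠ 1 → ‖∑ b : KX l, χ (xm l θ b)‖ ≤ T)
    (k : ℕ) (g : EV K k → ℝ) (hg : ∑ v, g v = 0)
    [∀ v v', Decidable ((evenGraph l θ hne k).Adj v v')] :
    |∑ v, ∑ v', (if (evenGraph l θ hne k).Adj v v' then g v * g v' else 0)| ≤
      max (T * Real.sqrt (Fintype.card K)) (Fintype.card (KX l))
        * Real.sqrt (Fintype.card (Fin k → K × K)) * ∑ v, g v ^ 2 := by
  have hv : ∃ y : K, (l.comp L.toAddMonoidHom) y ≠ 0 := by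
    obtain ⟨y, hy⟩ : ∃ y, L y ≠ 0 := by
      by_contra h
      push Not at h
      exact hL (LinearMap.ext h)
    refine ⟨(v₀ / L y) • y, ?_⟩
    change l (L ((v₀ / L y) • y)) ≠ 0
    rw [map_smul, smul_eq_mul, div_mul_cancel₀ _ hy]
    exact hv₀
  obtain ⟨y₀, hy₀⟩ := hv
  have c1 : ∀ c : K, c ≠ 0 → ∑ a, sg (l (L (c * a))) = 0 := by
    intro c hc
    exact sum_sg ((l.comp L.toAddMonoidHom).comp (AddMonoidHom.mulLeft c)) (c⁻¹ * y₀) (by
      change l (L (c * (c⁻¹ * y₀))) ≠ 0
      rw [← mul_assoc, mul_inv_cancel₀ hc, one_mul]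
      exact hy₀)
  have c2 : ∀ c : K, c ≠ 0 → ∀ ω ω' : Fin k → K × K,
      ∑ ω'', sg (l (L (c * sp ω ω''))) * sg (l (L (c * sp ω' ω'')))
        = if ω = ω' then (Fintype.card (Fin k → K × K) : ℝ) else 0 := by
    intro c hc ω ω'
    exact sp_orth (l.comp L.toAddMonoidHom) y₀ hy₀ c hc ω ω'
  have hadd : ∀ a b : K, sg (l (L (a + b))) = sg (l (L a)) * sg (l (L b)) := fun a b => by
    rw [map_add, map_add, sg_add]
  have h0 : sg (l (L (0 : K))) = 1 := by simp [sg_zero]
  have c3 : ∀ c : K, c ≠ 0 → ∀ g h : Kˣ → ℝ,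
      |∑ i : Kˣ, ∑ j : Kˣ, (∑ b, sg (l (L (c / ((i : K) * (j : K)) * xm l θ b)))) * g i * h j|
        ≤ max (T * Real.sqrt (Fintype.card K)) (Fintype.card (KX l))
          * Real.sqrt (∑ i, g i ^ 2) * Real.sqrt (∑ i, h i ^ 2) := by
    intro c hc g h
    have hH := Katz.conv_bound
      (fun y : K => ((∑ b, sg (l (L (y * xm l θ b))) : ℝ) : ℂ))
      (max (T * Real.sqrt (Fintype.card K)) (Fintype.card (KX l)))
      (fun χ => Katz.H_bound (fun y => sg (l (L y))) h0 hadd c1 (xm l θ) (xm_ne l θ hne) T hT χ)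
      c hc g h
    rw [← Real.norm_eq_abs, ← Complex.norm_real]
    refine le_trans (le_of_eq ?_) hH
    congr 1
    push_cast
    rfl
  have hR0 : 0 ≤ max (T * Real.sqrt (Fintype.card K)) ((Fintype.card (KX l) : ℝ)) :=
    le_trans (by positivity) (le_max_right _ _)
  have key := central_bound_op (fun y => sg (l (L y))) h0 hadd c1 (fun i : Kˣ => (i : K))
    (fun i => i.ne_zero) (xm l θ) (xm_inj l θ)
    (fun ω ω' => sp ω ω') c2 (max (T * Real.sqrt (Fintype.card K)) (Fintype.card (KX l))) hR0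
    c3 g hg
  convert key
  exact Iff.rfl

end

end Pool.Agent.OPG
end

section

set_option autoImplicit false

namespace Pool.Agent.OPG.Katz

open Polynomial

open Classical in
theorem sum_dvd {F : Type} [Field F] [Fintype F] (lam : F[X] →* ℂ) (k r a : ℕ) (hr : r ≤ k)
    (P : F[X]) (hP : P.Monic) (hdeg : (P ^ a).natDegree = r) (d : ℂ) :
    ∑ h ∈ monics F k, (if P ^ a ∣ h then d * lam h else 0)
      = d * lam P ^ a * ∑ h ∈ monics F (k - r), lam h := by
  rw [← Finset.sum_filter, Finset.mul_sum]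
  symm
  apply Finset.sum_bij (fun h _ => P ^ a * h)
  · intro h hh
    rw [mem_monics] at hh
    rw [Finset.mem_filter, mem_monics]
    refine ⟨⟨(hP.pow a).mul hh.1, ?_⟩, dvd_mul_right _ _⟩
    rw [(hP.pow a).natDegree_mul hh.1, hdeg, hh.2]
    omega
  · intro h _ h' _ heq
    exact mul_left_cancel₀ (hP.pow a).ne_zero heq
  · intro h hh
    rw [Finset.mem_filter, mem_monics] at hh
    obtain ⟨⟨hm, hk⟩, g, hg⟩ := hh
    have hgm : g.Monic := by
      apply (hP.pow a).of_mul_monic_left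
      rw [← hg]
      exact hm
    refine ⟨g, ?_, hg.symm⟩
    rw [mem_monics]
    refine ⟨hgm, ?_⟩
    have h1 : (P ^ a * g).natDegree = r + g.natDegree := by
      rw [(hP.pow a).natDegree_mul hgm, hdeg]
    rw [← hg, hk] at h1
    omega
  · intro h _
    rw [map_mul, map_pow]
    ring

/-- The logarithmic derivative of the L-function of a completely multiplicative function. -/
theorem log_deriv {F : Type} [Field F] [Fintype F] (lam : F[X] →* ℂ) (k : ℕ) :
    (k : ℂ) * ∑ h ∈ monics F k, lam h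
      = ∑ r ∈ Finset.Icc 1 k, Ssum lam r * ∑ h ∈ monics F (k - r), lam h := by
  classical
  have h1 : ∀ h ∈ monics F k, (k : ℂ) * lam h
      = ∑ r ∈ Finset.Icc 1 k, ∑ d ∈ r.divisors, ∑ P ∈ irrs F d,
        (if P ^ (r / d) ∣ h then (d : ℂ) * lam h else 0) := by
    intro h hh
    rw [mem_monics] at hh
    have h2 := degree_eq_sum k h hh.1 hh.2
    have h3 : (k : ℂ) = ∑ r ∈ Finset.Icc 1 k, ∑ d ∈ r.divisors, ∑ P ∈ irrs F d,
        (if P ^ (r / d) ∣ h then (d : ℂ) else 0) := by
      conv_lhs => rw [h2]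
      push_cast
      rfl
    rw [h3, Finset.sum_mul]
    apply Finset.sum_congr rfl
    intro r _
    rw [Finset.sum_mul]
    apply Finset.sum_congr rfl
    intro d _
    rw [Finset.sum_mul]
    apply Finset.sum_congr rfl
    intro P _
    rw [ite_mul, zero_mul]
  rw [Finset.mul_sum, Finset.sum_congr rfl h1, Finset.sum_comm]
  apply Finset.sum_congr rfl
  intro r hr
  rw [Finset.mem_Icc] at hr
  rw [Finset.sum_comm, Ssum, Finset.sum_mul]
  apply Finset.sum_congr rfl
  intro d hd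
  rw [Finset.sum_comm, Finset.sum_mul]
  apply Finset.sum_congr rfl
  intro P hP
  rw [mem_irrs] at hP
  apply sum_dvd lam k r (r / d) hr.2 P hP.1
  rw [hP.1.natDegree_pow, hP.2.1]
  exact Nat.div_mul_cancel (Nat.dvd_of_mem_divisors hd)

end Pool.Agent.OPG.Katz
end

section

set_option autoImplicit false

namespace Pool.Agent.OPG.Katz

open Polynomial Finset

/-- The constant `B₀`. -/
def B0 (N D : ℕ) : ℕ := N ^ 2 * (D - 1) + N + 1

/-- The numerical inequality which makes Stepanov's construction possible. -/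
theorem stepanov_ineq (N D e b : ℕ) (hN : 1 ≤ N) (hD : 1 ≤ D) (hQ : N * e + 1 = b ^ 2)
    (hb : B0 N D < b) :
    (N * (b - B0 N D)) * (e - 1 + (N * (b - B0 N D)) * (D - 1) + b) < N * b * e := by
  obtain ⟨D', rfl⟩ : ∃ D', D = D' + 1 := ⟨D - 1, by omega⟩
  rw [Nat.add_sub_cancel]
  obtain ⟨β, hβ⟩ : ∃ β, b = B0 N (D' + 1) + β := ⟨b - B0 N (D' + 1), by omega⟩
  have hβ' : b - B0 N (D' + 1) = β := by omega
  rw [hβ']
  have hβ1 : 1 ≤ β := by omega
  have hB : B0 N (D' + 1) = N ^ 2 * D' + N + 1 := by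
    unfold B0
    rw [Nat.add_sub_cancel]
  set B := B0 N (D' + 1) with hBdef
  have he1 : 1 ≤ e := by
    by_contra h
    have h0 : e = 0 := by omega
    rw [h0, mul_zero] at hQ
    have h2 : 2 ≤ b := by
      rw [hβ, hB]
      omega
    nlinarith
  obtain ⟨e', rfl⟩ : ∃ e', e = e' + 1 := ⟨e - 1, by omega⟩
  rw [Nat.add_sub_cancel]
  -- work over the integers
  have hQz : (N : ℤ) * ((e' : ℤ) + 1) + 1 = (b : ℤ) ^ 2 := by exact_mod_cast hQ
  have hBz : (B : ℤ) = (N : ℤ) ^ 2 * D' + N + 1 := by exact_mod_cast hB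
  have hbz : (b : ℤ) = B + β := by exact_mod_cast hβ
  have hNz : (1 : ℤ) ≤ N := by exact_mod_cast hN
  have hβz : (1 : ℤ) ≤ β := by exact_mod_cast hβ1
  have hD'z : (0 : ℤ) ≤ D' := by positivity
  have hgoal : (β : ℤ) * (N * e' + N * (N * β * D') + N * b) < b * (N * (e' + 1)) := by
    have e1 : (N : ℤ) * e' = b ^ 2 - 1 - N := by linarith
    have e2 : (N : ℤ) * (e' + 1) = b ^ 2 - 1 := by linarith
    rw [e1, e2]
    have hc0 : (0 : ℤ) ≤ (N : ℤ) ^ 2 * D' := by positivity
    -- `β ≤ b - 1`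
    have hβb : (β : ℤ) ≤ b - 1 := by
      rw [hbz, hBz]
      linarith
    have hb2 : (2 : ℤ) ≤ b := by linarith
    have key : (β : ℤ) * ((N : ℤ) ^ 2 * D' * β + N * (b - 1)) < B * (b ^ 2 - 1) := by
      have k1 : (β : ℤ) * ((N : ℤ) ^ 2 * D' * β + N * (b - 1))
          ≤ (b - 1) * ((N : ℤ) ^ 2 * D' * (b - 1) + N * (b - 1)) := by
        apply mul_le_mul hβb _ _ (by linarith)
        · have := mul_le_mul_of_nonneg_left hβb hc0
          linarith
        · have h1 : (0 : ℤ) ≤ (N : ℤ) ^ 2 * D' * β := by positivity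
          have h2 : (0 : ℤ) ≤ N * (b - 1) := mul_nonneg (by linarith) (by linarith)
          linarith
      have k2 : ((b : ℤ) - 1) * ((N : ℤ) ^ 2 * D' * (b - 1) + N * (b - 1))
          = (B - 1) * (b - 1) ^ 2 := by
        rw [hBz]
        ring
      have k3 : ((B : ℤ) - 1) * (b - 1) ^ 2 < B * (b - 1) ^ 2 := by
        have : 0 < ((b : ℤ) - 1) ^ 2 := by
          have : (0 : ℤ) < b - 1 := by linarith
          positivity
        linarith
      have k4 : (B : ℤ) * (b - 1) ^ 2 ≤ B * (b ^ 2 - 1) := by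
        apply mul_le_mul_of_nonneg_left _ (by positivity)
        nlinarith
      linarith
    have hβB : (β : ℤ) = b - B := by linarith
    nlinarith [key, hβB]
  have hfin : (N : ℤ) * β * (e' + N * β * D' + b) < N * b * (e' + 1) := by
    have e3 : (N : ℤ) * β * (e' + N * β * D' + b)
        = β * (N * e' + N * (N * β * D') + N * b) := by ring
    have e4 : (N : ℤ) * b * (e' + 1) = b * (N * (e' + 1)) := by ring
    rw [e3, e4]
    exact hgoal
  exact_mod_cast hfin

/-- Existence of Stepanov's auxiliary polynomial. -/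
theorem exists_aux {E : Type} [Field E] [Fintype E] [DecidableEq E] (f g : E[X])
    (hf : f = X * g) (hg : g.eval 0 ≠ 0) (D : ℕ) (hD : 1 ≤ D) (hfD : f.natDegree ≤ D)
    (N e b : ℕ) (hN : 1 ≤ N) (he : 1 ≤ e) (hQ : N * e + 1 = Fintype.card E)
    (hb : b ^ 2 = Fintype.card E) (hbB : B0 N D < b) (ζ : E) (hζ : ζ ≠ 0) :
    ∃ P : E[X], P ≠ 0 ∧
      P.natDegree ≤ D * (N * (b - B0 N D) + (N - 1) * e) + (e - 1) + Fintype.card E * (b - 1) ∧
      ∀ x : E, f.eval x ^ e = ζ → (X - C x) ^ (N * (b - B0 N D)) ∣ P := by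
  set Q := Fintype.card E with hQdef
  set l := N * (b - B0 N D) with hl
  have hineq := stepanov_ineq N D e b hN hD (by rw [hQ, hb]) hbB
  rw [← hl] at hineq
  have hNb : N < b := by
    refine lt_of_le_of_lt ?_ hbB
    unfold B0
    omega
  have hlQ : l ≤ Q := by
    rw [← hb, pow_two, hl]
    exact Nat.mul_le_mul hNb.le (Nat.sub_le _ _)
  choose T hT1 hT2 using fun (i : ℕ) (k : ℕ) => exists_T f D hD hfD (l + i * e) k
  -- the unknown polynomials
  set r : Fin N → Fin b → ((Fin N × Fin b × Fin e → E) →ₗ[E] E[X]) := fun i j =>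
    ∑ c : Fin e, (monomial (c : ℕ)).comp (LinearMap.proj (i, j, c)) with hr
  have hrapp : ∀ i j a, r i j a = ∑ c : Fin e, monomial (c : ℕ) (a (i, j, c)) := by
    intro i j a
    rw [hr]
    simp only [LinearMap.sum_apply, LinearMap.comp_apply, LinearMap.proj_apply]
  have hrdeg : ∀ i j a, (r i j a).natDegree ≤ e - 1 := by
    intro i j a
    rw [hrapp]
    apply natDegree_sum_le_of_forall_le
    intro c _
    refine (natDegree_monomial_le _).trans ?_
    have := c.2
    omega
  set Φ : ℕ → ((Fin N × Fin b × Fin e → E) →ₗ[E] E[X]) := fun k =>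
    ∑ i : Fin N, ∑ j : Fin b,
      (LinearMap.mulLeft E (C (ζ ^ (i : ℕ)) * X ^ (j : ℕ))).comp ((T i k).comp (r i j)) with hΦ
  have hΦapp : ∀ k a, Φ k a = ∑ i : Fin N, ∑ j : Fin b,
      C (ζ ^ (i : ℕ)) * X ^ (j : ℕ) * T i k (r i j a) := by
    intro k a
    rw [hΦ]
    simp only [LinearMap.sum_apply, LinearMap.comp_apply, LinearMap.mulLeft_apply]
  have hΦdeg : ∀ k < l, ∀ a c, e - 1 + l * (D - 1) + b ≤ c → (Φ k a).coeff c = 0 := by
    intro k hk a c hc
    apply coeff_eq_zero_of_natDegree_lt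
    refine lt_of_lt_of_le ?_ hc
    rw [hΦapp]
    have hb1 : 1 ≤ b := by omega
    refine lt_of_le_of_lt (b := e - 1 + l * (D - 1) + (b - 1)) ?_ (by omega)
    apply natDegree_sum_le_of_forall_le
    intro i _
    apply natDegree_sum_le_of_forall_le
    intro j _
    refine natDegree_mul_le.trans ?_
    have h1 : (C (ζ ^ (i : ℕ)) * X ^ (j : ℕ) : E[X]).natDegree ≤ j := natDegree_C_mul_X_pow_le _ _
    have h2 := hT2 i k (r i j a) (e - 1) (hrdeg i j a)
    have h3 : k * (D - 1) ≤ l * (D - 1) := Nat.mul_le_mul_right _ hk.le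
    have h4 := j.2
    omega
  obtain ⟨a, ha0, ha⟩ := exists_ker l (e - 1 + l * (D - 1) + b) Φ hΦdeg (by
    rw [Fintype.card_prod, Fintype.card_prod, Fintype.card_fin, Fintype.card_fin,
      Fintype.card_fin, ← mul_assoc]
    exact hineq)
  set P : E[X] := ∑ i : Fin N, ∑ j : Fin b,
    (X * g) ^ (l + (i : ℕ) * e) * r i j a * X ^ (Q * (j : ℕ)) with hP
  refine ⟨P, ?_, ?_, ?_⟩
  · apply aux_ne_zero g hg N b e Q l (by omega) (fun i j => r i j a)
      (fun i j => lt_of_le_of_lt (hrdeg i j a) (by omega))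
    by_contra hcon
    push Not at hcon
    apply ha0
    funext p
    obtain ⟨i, j, c⟩ := p
    have h1 := hcon i j
    rw [hrapp] at h1
    have h2 := congrArg (fun p => coeff p (c : ℕ)) h1
    simp only [finsetSum_coeff, coeff_monomial, coeff_zero] at h2
    rw [Finset.sum_eq_single c] at h2
    · simpa using h2
    · intro c' _ hc'
      rw [if_neg]
      intro h3
      exact hc' (Fin.ext h3)
    · intro h3
      exact absurd (Finset.mem_univ c) h3
  · rw [hP]
    apply natDegree_sum_le_of_forall_le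
    intro i _
    apply natDegree_sum_le_of_forall_le
    intro j _
    refine natDegree_mul_le.trans ?_
    have h1 : ((X * g) ^ (l + (i : ℕ) * e) * r i j a).natDegree
        ≤ D * (l + (N - 1) * e) + (e - 1) := by
      refine natDegree_mul_le.trans (add_le_add ?_ (hrdeg i j a))
      rw [← hf]
      refine natDegree_pow_le.trans ?_
      rw [mul_comm]
      apply Nat.mul_le_mul hfD
      apply Nat.add_le_add_left
      apply Nat.mul_le_mul_right
      have := i.2
      omega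
    have h2 : (X ^ (Q * (j : ℕ)) : E[X]).natDegree ≤ Q * (b - 1) := by
      rw [natDegree_X_pow]
      apply Nat.mul_le_mul_left
      have := j.2
      omega
    exact add_le_add h1 h2
  · intro x hx
    have hfx : f.eval x ≠ 0 := by
      intro h0
      apply hζ
      rw [← hx, h0, zero_pow (by omega)]
    apply pow_dvd_of_taylor
    intro k hk
    have hcoef : (taylor x P).coeff k = ∑ i : Fin N, ∑ j : Fin b,
        (hasseDeriv k (f ^ (l + (i : ℕ) * e) * r i j a)).eval x * x ^ (j : ℕ) := by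
      rw [hP, map_sum, finsetSum_coeff]
      apply Finset.sum_congr rfl
      intro i _
      rw [map_sum, finsetSum_coeff]
      apply Finset.sum_congr rfl
      intro j _
      rw [coeff_taylor x _ _ k (lt_of_lt_of_le hk hlQ), taylor_coeff, ← hf]
    have hmain : f.eval x ^ k * (taylor x P).coeff k = f.eval x ^ l * (Φ k a).eval x := by
      rw [hcoef, hΦapp, Finset.mul_sum, eval_finsetSum, Finset.mul_sum]
      apply Finset.sum_congr rfl
      intro i _
      rw [Finset.mul_sum, eval_finsetSum, Finset.mul_sum]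
      apply Finset.sum_congr rfl
      intro j _
      have h1 := congrArg (eval x) (hT1 i k (r i j a))
      have h5 : f.eval x ^ (l + (i : ℕ) * e) = f.eval x ^ l * ζ ^ (i : ℕ) := by
        rw [pow_add, mul_comm (i : ℕ) e, pow_mul (f.eval x) e, hx]
      rw [eval_mul, eval_mul, eval_pow, eval_pow, h5] at h1
      rw [eval_mul, eval_mul, eval_C, eval_pow, eval_X, ← mul_assoc, h1]
      ring
    rw [ha k hk, eval_zero, mul_zero] at hmain
    exact (mul_eq_zero.1 hmain).resolve_left (pow_ne_zero _ hfx)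

/-- The numerical inequality at the end of Stepanov's argument. -/
theorem stepanov_final (N D e b S : ℕ) (hN : 1 ≤ N) (hD : 1 ≤ D) (hQ : N * e + 1 = b ^ 2)
    (hS : S ≤ b ^ 2)
    (h : B0 N D < b → S * (N * (b - B0 N D))
      ≤ D * (N * (b - B0 N D) + (N - 1) * e) + (e - 1) + b ^ 2 * (b - 1)) :
    (S : ℝ) ≤ (b : ℝ) ^ 2 / N + (2 * D + 4 * B0 N D + 2 * B0 N D * D) * b := by
  set B := B0 N D with hB
  have hB2 : 2 ≤ B := by
    rw [hB]
    unfold B0
    omega
  have hNr : (1 : ℝ) ≤ N := by exact_mod_cast hN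
  have hDr : (1 : ℝ) ≤ D := by exact_mod_cast hD
  have hBr : (2 : ℝ) ≤ B := by exact_mod_cast hB2
  have hb0 : (0 : ℝ) ≤ b := by positivity
  have hN0 : (0 : ℝ) < N := by linarith
  have hpos : 0 ≤ (b : ℝ) ^ 2 / N := by positivity
  by_cases hcase : b ≤ 2 * B
  · have h1 : (S : ℝ) ≤ (b : ℝ) ^ 2 := by exact_mod_cast hS
    have h2 : (b : ℝ) ≤ 2 * B := by exact_mod_cast hcase
    have h3 : (b : ℝ) ^ 2 ≤ 2 * B * b := by nlinarith
    have h4 : (2 * B : ℝ) * b ≤ (2 * D + 4 * B + 2 * B * D) * b := by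
      apply mul_le_mul_of_nonneg_right _ hb0
      have : (0 : ℝ) ≤ 2 * B * D := by positivity
      linarith
    linarith
  · push Not at hcase
    have hBb : B < b := by omega
    have h0 := h hBb
    obtain ⟨β, hβ⟩ : ∃ β, b = B + β := ⟨b - B, by omega⟩
    have hβ' : b - B = β := by omega
    rw [hβ'] at h0
    have hβb : (b : ℝ) ≤ 2 * β := by exact_mod_cast (by omega : b ≤ 2 * β)
    have hβ0 : (0 : ℝ) < β := by
      have : 0 < β := by omega
      exact_mod_cast this
    have hb1 : 1 ≤ b := by omega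
    have hb1r : (1 : ℝ) ≤ b := by exact_mod_cast hb1
    -- weaken the bound
    have h1 : S * (N * β) ≤ D * (N * β) + D * b ^ 2 + b ^ 3 := by
      refine h0.trans ?_
      have e1 : D * (N * β + (N - 1) * e) + (e - 1) ≤ D * (N * β) + D * b ^ 2 := by
        rw [← hQ]
        obtain ⟨N', rfl⟩ : ∃ N', N = N' + 1 := ⟨N - 1, by omega⟩
        rw [Nat.add_sub_cancel]
        have e2 : e - 1 ≤ D * e := by
          have := Nat.le_mul_of_pos_left e (by omega : 0 < D)
          omega
        calc D * ((N' + 1) * β + N' * e) + (e - 1)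
            ≤ D * ((N' + 1) * β + N' * e) + D * e := by omega
          _ = D * ((N' + 1) * β) + D * ((N' + 1) * e) := by ring
          _ ≤ D * ((N' + 1) * β) + D * ((N' + 1) * e + 1) := by
              apply Nat.add_le_add_left
              apply Nat.mul_le_mul_left
              omega
      have e3 : b ^ 2 * (b - 1) ≤ b ^ 3 := by
        rw [pow_succ b 2]
        exact Nat.mul_le_mul_left _ (Nat.sub_le _ _)
      omega
    have h2 : (S : ℝ) * (N * β) ≤ D * (N * β) + D * (b : ℝ) ^ 2 + (b : ℝ) ^ 3 := by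
      exact_mod_cast h1
    have hbβ : (b : ℝ) = B + β := by exact_mod_cast hβ
    -- the target multiplied by `N β`
    have h3 : (D : ℝ) * (N * β) + D * (b : ℝ) ^ 2 + (b : ℝ) ^ 3
        ≤ ((b : ℝ) ^ 2 / N + (3 * D + 2 * B) * b) * (N * β) := by
      have e1 : ((b : ℝ) ^ 2 / N + (3 * D + 2 * B) * b) * (N * β)
          = (b : ℝ) ^ 2 * β + (3 * D + 2 * B) * b * (N * β) := by
        field_simp
      rw [e1]
      have e2 : (b : ℝ) ^ 3 = (b : ℝ) ^ 2 * β + (b : ℝ) ^ 2 * B := by
        rw [hbβ]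
        ring
      rw [e2]
      have hDβ : (D : ℝ) * (N * β) ≤ D * b * (N * β) := by
        have : 0 ≤ (D : ℝ) * (N * β) := by positivity
        nlinarith
      have hNβ : (b : ℝ) ≤ 2 * (N * β) := by nlinarith
      have hDb2 : (D : ℝ) * (b : ℝ) ^ 2 ≤ 2 * D * b * (N * β) := by
        have : (D : ℝ) * (b : ℝ) ^ 2 = D * b * b := by ring
        rw [this]
        calc (D : ℝ) * b * b ≤ D * b * (2 * (N * β)) :=
              mul_le_mul_of_nonneg_left hNβ (by positivity)
          _ = _ := by ring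
      have hBb2 : (b : ℝ) ^ 2 * B ≤ 2 * B * b * (N * β) := by
        have : (b : ℝ) ^ 2 * B = B * b * b := by ring
        rw [this]
        calc (B : ℝ) * b * b ≤ B * b * (2 * (N * β)) :=
              mul_le_mul_of_nonneg_left hNβ (by positivity)
          _ = _ := by ring
      nlinarith
    have h4 : (S : ℝ) ≤ (b : ℝ) ^ 2 / N + (3 * D + 2 * B) * b :=
      le_of_mul_le_mul_right (h2.trans h3) (by positivity)
    have h5 : (3 * D + 2 * B : ℝ) * b ≤ (2 * D + 4 * B + 2 * B * D) * b := by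
      apply mul_le_mul_of_nonneg_right _ hb0
      nlinarith
    linarith

/-- Stepanov's theorem. -/
theorem stepanov {E : Type} [Field E] [Fintype E] [DecidableEq E] (f g : E[X])
    (hf : f = X * g) (hg : g.eval 0 ≠ 0) (D : ℕ) (hD : 1 ≤ D) (hfD : f.natDegree ≤ D)
    (N e b : ℕ) (hN : 1 ≤ N) (he : 1 ≤ e) (hQ : N * e + 1 = Fintype.card E)
    (hb : b ^ 2 = Fintype.card E) (ζ : E) (hζ : ζ ≠ 0) :
    (((univ : Finset E).filter (fun x => f.eval x ^ e = ζ)).card : ℝ)
      ≤ (b : ℝ) ^ 2 / N + (2 * D + 4 * B0 N D + 2 * B0 N D * D) * b := by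
  apply stepanov_final N D e b _ hN hD (by rw [hQ, hb])
  · rw [hb]
    exact Finset.card_le_univ _
  · intro hbB
    obtain ⟨P, hP0, hPdeg, hPdvd⟩ := exists_aux f g hf hg D hD hfD N e b hN he hQ hb hbB ζ hζ
    rw [hb]
    refine le_trans ?_ hPdeg
    apply card_mul_le P hP0
    intro x hx
    rw [Finset.mem_filter] at hx
    exact hPdvd x hx.2

end Pool.Agent.OPG.Katz
end

section

set_option autoImplicit false

namespace Pool.Agent.OPG.Katz

open Polynomial Finset

/-- The Weil bound (with some constant) for the sums `∑ χ (Norm (f x))` over large extensions. -/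
theorem weil_weak {K : Type} [Field K] [Fintype K] (f g : K[X]) (hf : f = X * g)
    (hg : g.eval 0 ≠ 0) (χ : MulChar K ℂ) (hχ : χ ≠ 1) :
    ∃ C : ℝ, ∀ (E : Type) (_ : Field E) (_ : Fintype E) (_ : Algebra K E) (b : ℕ),
      b ^ 2 = Fintype.card E →
        ‖∑ x : E, χ (Algebra.norm K ((f.map (algebraMap K E)).eval x))‖ ≤ C * b := by
  classical
  have hg0 : g ≠ 0 := by rintro rfl; simp at hg
  have hf0 : f ≠ 0 := by rw [hf]; exact mul_ne_zero X_ne_zero hg0
  have hD : 1 ≤ f.natDegree := by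
    rw [hf, natDegree_X_mul hg0]; omega
  obtain ⟨D, hDdef⟩ : ∃ D, D = f.natDegree := ⟨_, rfl⟩
  obtain ⟨N, hNdef⟩ : ∃ N, N = Fintype.card K - 1 := ⟨_, rfl⟩
  have hq : 1 < Fintype.card K := Fintype.one_lt_card
  have hN : 1 ≤ N := by omega
  obtain ⟨C1, hC1⟩ : ∃ C1 : ℝ, C1 = 2 * D + 4 * B0 N D + 2 * B0 N D * D := ⟨_, rfl⟩
  have hC1' : 0 ≤ C1 := by rw [hC1]; positivity
  refine ⟨N * C1 + D, ?_⟩
  intro E _ _ _ b hb
  have hEc : Fintype.card E = Fintype.card K ^ Module.finrank K E :=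
    Module.card_eq_pow_finrank
  have hdvd : N ∣ Fintype.card E - 1 := by
    rw [hNdef, hEc]
    simpa using Nat.sub_one_dvd_pow_sub_one _ _
  obtain ⟨e, he⟩ := hdvd
  have hE1 : 1 < Fintype.card E := Fintype.one_lt_card
  have hNe : N * e + 1 = Fintype.card E := by omega
  have he1 : 1 ≤ e := by
    rcases Nat.eq_zero_or_pos e with h | h
    · subst h; simp at hNe; omega
    · exact h
  have hb1 : 1 ≤ b := by
    rcases Nat.eq_zero_or_pos b with h | h
    · subst h; simp at hb; omega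
    · exact h
  set fE : E[X] := f.map (algebraMap K E) with hfE
  set gE : E[X] := g.map (algebraMap K E) with hgE
  have hfgE : fE = X * gE := by rw [hfE, hf, Polynomial.map_mul, map_X]
  have hgE0 : gE.eval 0 ≠ 0 := by
    rw [hgE, eval_map, eval₂_at_zero]
    intro h
    apply hg
    rw [← coeff_zero_eq_eval_zero]
    exact (algebraMap K E).injective (by rw [h, map_zero])
  have hfED : fE.natDegree ≤ D := by rw [hfE, natDegree_map, hDdef]
  have hfE0 : fE ≠ 0 := (Polynomial.map_ne_zero_iff (algebraMap K E).injective).mpr hf0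
  have hnorm : ∀ y : E, algebraMap K E (Algebra.norm K y) = y ^ e := by
    intro y
    rw [FiniteField.algebraMap_norm_eq_pow]
    congr 1
    rw [Nat.card_eq_fintype_card, Nat.card_eq_fintype_card, ← hNdef, he]
    exact Nat.mul_div_cancel_left _ hN
  -- the numbers n_ζ
  set n : K → ℕ := fun ζ =>
    ((univ : Finset E).filter (fun x => Algebra.norm K (fE.eval x) = ζ)).card with hn
  have hsum : ∑ x : E, χ (Algebra.norm K (fE.eval x)) = ∑ ζ : K, (n ζ : ℂ) * χ ζ := by
    rw [← Finset.sum_fiberwise_of_maps_to (s := (univ : Finset E)) (t := (univ : Finset K))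
      (g := fun x => Algebra.norm K (fE.eval x)) (fun _ _ => Finset.mem_univ _)]
    refine Finset.sum_congr rfl (fun ζ _ => ?_)
    rw [hn]
    simp only
    rw [← nsmul_eq_mul, ← Finset.sum_const]
    refine Finset.sum_congr rfl (fun x hx => ?_)
    rw [(Finset.mem_filter.mp hx).2]
  have htot : ∑ ζ : K, n ζ = Fintype.card E := by
    rw [hn, ← Finset.card_eq_sum_card_fiberwise (s := (univ : Finset E)) (t := (univ : Finset K))
      (f := fun x => Algebra.norm K (fE.eval x)) (fun _ _ => Finset.mem_univ _), Finset.card_univ]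
  have hbound : ∀ ζ : K, ζ ≠ 0 → (n ζ : ℝ) ≤ (b : ℝ) ^ 2 / N + C1 * b := by
    intro ζ hζ
    have h1 := stepanov fE gE hfgE hgE0 D (by omega) hfED N e b hN he1 hNe hb (algebraMap K E ζ)
      (by simpa using hζ)
    rw [← hC1] at h1
    refine le_trans (le_of_eq ?_) h1
    rw [hn]
    simp only
    congr 2
    ext x
    simp only [Finset.mem_filter, Finset.mem_univ, true_and]
    rw [← hnorm]
    exact ((algebraMap K E).injective.eq_iff).symm
  have hzero : n 0 ≤ D := by
    have h1 : ((univ : Finset E).filter (fun x => Algebra.norm K (fE.eval x) = 0))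
        ⊆ fE.roots.toFinset := by
      intro x hx
      rw [Finset.mem_filter] at hx
      rw [Multiset.mem_toFinset, mem_roots hfE0, IsRoot.def]
      have := hnorm (fE.eval x)
      rw [hx.2, map_zero] at this
      exact pow_eq_zero_iff (by omega) |>.mp this.symm
    calc n 0 ≤ fE.roots.toFinset.card := Finset.card_le_card h1
      _ ≤ Multiset.card fE.roots := Multiset.toFinset_card_le _
      _ ≤ fE.natDegree := card_roots' _
      _ ≤ D := hfED
  have hχ0 : ∑ ζ : K, χ ζ = 0 := MulChar.sum_eq_zero_of_ne_one hχ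
  obtain ⟨T, hT⟩ : ∃ T : ℝ, T = (b : ℝ) ^ 2 / N + C1 * b := ⟨_, rfl⟩
  have hsum2 : ∑ ζ : K, (n ζ : ℂ) * χ ζ
      = ∑ ζ ∈ (univ : Finset K).erase 0, ((n ζ : ℂ) - T) * χ ζ := by
    have h1 : ∑ ζ : K, (n ζ : ℂ) * χ ζ = ∑ ζ : K, ((n ζ : ℂ) - T) * χ ζ := by
      simp only [sub_mul]
      rw [Finset.sum_sub_distrib, ← Finset.mul_sum, hχ0, mul_zero, sub_zero]
    rw [h1, ← Finset.add_sum_erase _ _ (Finset.mem_univ (0 : K))]
    rw [MulChar.map_zero, mul_zero, zero_add]
  rw [hsum, hsum2]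
  have hχn : ∀ ζ : K, ‖χ ζ‖ ≤ 1 := by
    intro ζ
    by_cases hu : IsUnit ζ
    · obtain ⟨u, rfl⟩ := hu
      exact (Complex.norm_eq_one_of_mem_rootsOfUnity (χ.apply_mem_rootsOfUnity u)).le
    · rw [χ.map_nonunit hu, norm_zero]
      exact zero_le_one
  calc ‖∑ ζ ∈ (univ : Finset K).erase 0, ((n ζ : ℂ) - T) * χ ζ‖
      ≤ ∑ ζ ∈ (univ : Finset K).erase 0, ‖((n ζ : ℂ) - T) * χ ζ‖ := norm_sum_le _ _
    _ ≤ ∑ ζ ∈ (univ : Finset K).erase 0, (T - n ζ) := by
        refine Finset.sum_le_sum (fun ζ hζ => ?_)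
        rw [Finset.mem_erase] at hζ
        have h1 := hbound ζ hζ.1
        rw [← hT] at h1
        rw [norm_mul]
        have h2 : ‖((n ζ : ℂ) - T)‖ = T - n ζ := by
          rw [show ((n ζ : ℂ) - T) = (((n ζ : ℝ) - T : ℝ) : ℂ) by push_cast; ring,
            Complex.norm_real, Real.norm_eq_abs, abs_of_nonpos (by linarith)]
          ring
        rw [h2]
        calc (T - n ζ) * ‖χ ζ‖ ≤ (T - n ζ) * 1 :=
              mul_le_mul_of_nonneg_left (hχn ζ) (by linarith)
          _ = _ := mul_one _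
    _ = (N * T - b ^ 2 + n 0 : ℝ) := by
        rw [Finset.sum_sub_distrib, Finset.sum_const, Finset.card_erase_of_mem (Finset.mem_univ _),
          Finset.card_univ, ← hNdef, nsmul_eq_mul]
        have h1 : (∑ ζ ∈ (univ : Finset K).erase 0, (n ζ : ℝ)) + n 0 = (b : ℝ) ^ 2 := by
          rw [add_comm, Finset.add_sum_erase _ (fun ζ => (n ζ : ℝ)) (Finset.mem_univ (0 : K))]
          rw [← Nat.cast_sum, htot, ← hb]
          push_cast
          ring
        linarith
    _ ≤ (N * C1 + D) * b := by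
        rw [hT]
        have hN0 : (N : ℝ) ≠ 0 := by positivity
        have h2 : (N : ℝ) * ((b : ℝ) ^ 2 / N + C1 * b) = b ^ 2 + N * C1 * b := by
          field_simp
        rw [h2]
        have h3 : (n 0 : ℝ) ≤ D := by exact_mod_cast hzero
        have h4 : (D : ℝ) ≤ D * b := by
          have : (1 : ℝ) ≤ b := by exact_mod_cast hb1
          nlinarith [Nat.cast_nonneg (α := ℝ) D]
        linarith

end Pool.Agent.OPG.Katz
end
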