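import Pool.Agent.OPG.Mg_MP_fce80c_co.G001
import Pool.Agent.OPG.Mg_MP_fce80c_co.G004
import Pool.Agent.OPG.Mg_MP_fce80c_co.G002
import Pool.Agent.OPG.Mg_MP_fce80c_co.G003
import Pool.Agent.OPG.Katz.E4c

section

set_option autoImplicit false

namespace Pool.Agent.OPG.Katz

open Polynomial Finset

/-- The multiplicative function `h ↦ χ (h (a))`. -/
noncomputable def lam {F K : Type} [Field F] [Field K] [Algebra F K] (a : K)
    (χ : MulChar K ℂ) : F[X] →* ℂ where
  toFun h := χ (aeval a h)
  map_one' := by rw [map_one, map_one]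
  map_mul' x y := by rw [map_mul, map_mul]

/-- The polynomial whose norms are summed. -/
noncomputable def fpoly {K : Type} [Field K] (q n : ℕ) (a : K) : K[X] :=
  ∏ i ∈ range n, (C (a - a ^ q ^ i) - X ^ q ^ i)

/-- The sums `S_(n j)` as sums over the points of the extension of degree `j` of `K`. -/
theorem bridge {F K : Type} [Field F] [Fintype F] [Field K] [Fintype K] [Algebra F K]
    (a : K) (n : ℕ) (hn : Module.finrank F K = n) (χ : MulChar K ℂ) (j : ℕ) (hj1 : 1 ≤ j)
    (E : Type) [Field E] [Fintype E] [Algebra K E] (hj : Module.finrank K E = j) :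
    Ssum (lam (F := F) a χ) (n * j)
      = ∑ x : E, χ (Algebra.norm K
          (((fpoly (Fintype.card F) n a).map (algebraMap K E)).eval x)) := by
  let _ : Algebra F E := ((algebraMap K E).comp (algebraMap F K)).toAlgebra
  have : IsScalarTower F K E := IsScalarTower.of_algebraMap_eq' rfl
  have : Module.Finite F K := Module.Finite.of_finite
  have : Module.Finite K E := Module.Finite.of_finite
  have hr : Module.finrank F E = n * j := by
    rw [← Module.finrank_mul_finrank F K E, hn, hj]
  have hinj : Function.Injective (algebraMap K E) := (algebraMap K E).injective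
  -- the power of the Frobenius is additive
  obtain ⟨p, hp⟩ := CharP.exists F
  have hpp : Fact p.Prime := ⟨CharP.char_is_prime F p⟩
  obtain ⟨k, -, hk⟩ := FiniteField.card F p
  have hpE : CharP E p := charP_of_injective_algebraMap (algebraMap F E).injective p
  -- the sums
  have key : ∀ x : E, χ (Algebra.norm K
      (((fpoly (Fintype.card F) n a).map (algebraMap K E)).eval x))
      = (lam (F := F) a χ (minpoly F (algebraMap K E a + x)))
        ^ ((n * j) / (minpoly F (algebraMap K E a + x)).natDegree) := by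
    intro x
    have h1 : (lam (F := F) a χ (minpoly F (algebraMap K E a + x)))
        ^ ((n * j) / (minpoly F (algebraMap K E a + x)).natDegree)
        = χ ((aeval a (minpoly F (algebraMap K E a + x)))
          ^ ((n * j) / (minpoly F (algebraMap K E a + x)).natDegree)) := by
      rw [map_pow]; rfl
    rw [h1]
    congr 1
    apply hinj
    rw [map_pow, ← aeval_algebraMap_apply, minpoly_pow (n * j) hr, ← norm_prod n j hn hj]
    congr 2
    rw [fpoly, Polynomial.map_prod, eval_prod]
    refine Finset.prod_congr rfl fun i _ => ?_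
    simp only [Polynomial.map_sub, Polynomial.map_pow, map_C, map_X, eval_sub, eval_pow, eval_C,
      eval_X, map_sub, map_pow]
    have h2 : (algebraMap K E a + x) ^ Fintype.card F ^ i
        = (algebraMap K E a) ^ Fintype.card F ^ i + x ^ Fintype.card F ^ i := by
      rw [hk, ← pow_mul, add_pow_char_pow]
    rw [h2]
    ring
  rw [Finset.sum_congr rfl fun x _ => key x]
  rw [Fintype.sum_equiv (Equiv.addLeft (algebraMap K E a))
    (fun x => (lam (F := F) a χ (minpoly F (algebraMap K E a + x)))
        ^ ((n * j) / (minpoly F (algebraMap K E a + x)).natDegree))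
    (fun v => (lam (F := F) a χ (minpoly F v)) ^ ((n * j) / (minpoly F v).natDegree))
    (fun x => rfl)]
  rw [sum_minpoly (n * j) hr (fun P => (lam (F := F) a χ P) ^ ((n * j) / P.natDegree)), Ssum]
  refine Finset.sum_congr rfl fun d _ => Finset.sum_congr rfl fun P hP => ?_
  have hdeg : P.natDegree = d := ((mem_irrs d P).1 hP).2.1
  rw [hdeg]

end Pool.Agent.OPG.Katz
end

section

set_option autoImplicit false

namespace Pool.Agent.OPG.Katz

open Polynomial Finset

/-- `fpoly` has a simple zero at `0`. -/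
theorem fpoly_eq {F K : Type} [Field F] [Fintype F] [Field K] [Fintype K] [Algebra F K]
    (a : K) (n : ℕ) (hn : Module.finrank F K = n)
    (ha : ∀ y : K, ∃ g : F[X], g.natDegree < n ∧ aeval a g = y) :
    ∃ g : K[X], fpoly (Fintype.card F) n a = X * g ∧ g.eval 0 ≠ 0 := by
  classical
  have hn0 : 0 < n := by rw [← hn]; exact Module.finrank_pos
  obtain ⟨m, rfl⟩ : ∃ m, n = m + 1 := ⟨n - 1, by omega⟩
  have hcard : Fintype.card K = Fintype.card F ^ (m + 1) := by
    rw [Module.card_eq_pow_finrank (K := F) (V := K), hn]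
  have hq : 1 < Fintype.card F := Fintype.one_lt_card
  refine ⟨-∏ i ∈ range m, (C (a - a ^ Fintype.card F ^ (i + 1)) - X ^ Fintype.card F ^ (i + 1)),
    ?_, ?_⟩
  · unfold fpoly
    rw [Finset.prod_range_succ']
    simp
    ring
  · rw [eval_neg, neg_ne_zero, eval_prod]
    rw [Finset.prod_ne_zero_iff]
    intro i hi
    rw [Finset.mem_range] at hi
    have hpos : Fintype.card F ^ (i + 1) ≠ 0 := by positivity
    simp only [eval_sub, eval_C, eval_pow, eval_X, zero_pow hpos, sub_zero]
    intro h
    have h' : a ^ Fintype.card F ^ (i + 1) = a := (sub_eq_zero.mp h).symm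
    -- every element is fixed
    have hfix : ∀ y : K, y ^ Fintype.card F ^ (i + 1) = y := by
      intro y
      obtain ⟨g, -, rfl⟩ := ha y
      have hF : ∀ k : ℕ, ∀ g : F[X], (aeval a g) ^ Fintype.card F ^ k
          = aeval (a ^ Fintype.card F ^ k) g := by
        intro k
        induction k with
        | zero => intro g; simp
        | succ k ih =>
          intro g
          rw [pow_succ, pow_mul, ih g, pow_mul, ← map_pow, ← FiniteField.expand_card, expand_aeval]
          
      rw [hF, h']
    have hX : (X ^ Fintype.card F ^ (i + 1) - X : K[X]) ≠ 0 :=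
      FiniteField.X_pow_card_pow_sub_X_ne_zero K (by omega) hq
    have hdeg : (X ^ Fintype.card F ^ (i + 1) - X : K[X]).natDegree = Fintype.card F ^ (i + 1) :=
      FiniteField.X_pow_card_pow_sub_X_natDegree_eq K (by omega) hq
    have hroots : (Finset.univ : Finset K).val ⊆ (X ^ Fintype.card F ^ (i + 1) - X : K[X]).roots := by
      intro y _
      rw [mem_roots hX, IsRoot.def]
      simp [hfix y]
    have hle : Fintype.card K ≤ Fintype.card F ^ (i + 1) := by
      have h1 : (Finset.univ : Finset K).card
          ≤ (X ^ Fintype.card F ^ (i + 1) - X : K[X]).natDegree := by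
        apply card_le_degree_of_subset_roots hroots
      rw [hdeg] at h1
      exact h1
    rw [hcard] at hle
    have : Fintype.card F ^ (i + 1) < Fintype.card F ^ (m + 1) :=
      Nat.pow_lt_pow_right hq (by omega)
    omega

end Pool.Agent.OPG.Katz
end

section

set_option autoImplicit false

namespace Pool.Agent.OPG.Katz

open Polynomial Finset

/-- Katz's bound. -/
theorem katz {F K : Type} [Field F] [Fintype F] [Field K] [Fintype K] [Algebra F K]
    (a : K) (n : ℕ) (hn : Module.finrank F K = n)
    (ha : ∀ y : K, ∃ g : F[X], g.natDegree < n ∧ aeval a g = y)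
    (χ : MulChar K ℂ) (hχ : χ ≠ 1) :
    ‖∑ c : F, χ (a + algebraMap F K c)‖ ≤ ((n : ℝ) - 1) * Real.sqrt (Fintype.card F) := by
  classical
  have hn1 : 1 ≤ n := by
    obtain ⟨g, hg, _⟩ := ha 0
    omega
  set q : ℕ := Fintype.card F with hq
  have hq0 : 0 < (q : ℝ) := by
    rw [hq]
    exact_mod_cast Fintype.card_pos
  set L : ℕ → ℂ := fun k => ∑ h ∈ monics F k, lam (F := F) a χ h with hL
  set S : ℕ → ℂ := fun r => Ssum (lam (F := F) a χ) r with hS
  have hL0 : L 0 = 1 := L_zero _
  have hLv : ∀ k : ℕ, n ≤ k → L k = 0 := fun k hk =>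
    L_vanish a n ha χ hχ k hk (hn1.trans hk)
  have hid : ∀ k : ℕ, 1 ≤ k → (k : ℂ) * L k = ∑ r ∈ Finset.Icc 1 k, S r * L (k - r) :=
    fun k _ => log_deriv _ k
  obtain ⟨ω, hω⟩ := newton_roots n hn1 L S hL0 hLv hid
  -- the first coefficient
  have hL1 : L 1 = ∑ c : F, χ (a + algebraMap F K c) := by
    rw [hL]
    beta_reduce
    rw [L_one (fun h => lam (F := F) a χ h)]
    apply Finset.sum_congr rfl
    intro c _
    change χ (aeval a (X + C c)) = _
    rw [map_add, aeval_X, aeval_C]
  have hS1 : S 1 = L 1 := by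
    have h1 := hid 1 le_rfl
    rw [Finset.Icc_self, Finset.sum_singleton, Nat.sub_self, hL0, Nat.cast_one, one_mul,
      mul_one] at h1
    exact h1.symm
  -- the weak Weil bound
  obtain ⟨g, hfg, hg0⟩ := fpoly_eq a n hn ha
  obtain ⟨C, hC⟩ := weil_weak (fpoly q n a) g hfg hg0 χ hχ
  have hcardK : Fintype.card K = q ^ n := by
    rw [hq, ← hn]
    exact Module.card_eq_pow_finrank
  have hSb : ∀ j : ℕ, 1 ≤ j → ‖S (n * (2 * j))‖ ≤ C * ((q : ℝ) ^ n) ^ j := by
    intro j hj
    obtain ⟨p, hp⟩ := CharP.exists K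
    have : Fact p.Prime := ⟨CharP.char_is_prime K p⟩
    have : NeZero (2 * j) := ⟨by omega⟩
    let E := FiniteField.Extension K p (2 * j)
    let _ : Fintype E := Fintype.ofFinite E
    have hfr : Module.finrank K E = 2 * j := FiniteField.finrank_extension K p (2 * j)
    have hcE : ((q ^ n) ^ j) ^ 2 = Fintype.card E := by
      rw [Fintype.card_eq_nat_card, FiniteField.natCard_extension, ← Fintype.card_eq_nat_card,
        hcardK, ← pow_mul, ← pow_mul, ← pow_mul]
      congr 1
      ring
    have h1 := hC E inferInstance inferInstance inferInstance ((q ^ n) ^ j) hcE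
    have h2 := bridge (F := F) a n hn χ (2 * j) (by omega) E hfr
    rw [hS]
    beta_reduce
    rw [h2]
    refine h1.trans (le_of_eq ?_)
    push_cast
    rfl
  -- bounded power sums
  have hωb : ∀ i, ‖ω i‖ ≤ Real.sqrt q := by
    intro i
    have h1 : ‖ω i ^ (2 * n) / (q : ℂ) ^ n‖ ≤ 1 := by
      apply norm_le_one_of_bounded (fun i => ω i ^ (2 * n) / (q : ℂ) ^ n) C _ i
      intro j hj
      have h2 : ∑ i, (ω i ^ (2 * n) / (q : ℂ) ^ n) ^ j
          = - S (n * (2 * j)) / ((q : ℂ) ^ n) ^ j := by
        rw [hω (n * (2 * j)) (Nat.one_le_iff_ne_zero.2 (Nat.mul_ne_zero (by omega) (by omega))),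
          neg_neg, Finset.sum_div]
        apply Finset.sum_congr rfl
        intro i _
        rw [div_pow, ← pow_mul]
        congr 2
        ring
      rw [h2, norm_div, norm_neg, norm_pow, norm_pow, Complex.norm_natCast,
        div_le_iff₀ (by positivity)]
      exact hSb j hj
    rw [norm_div, norm_pow, norm_pow, Complex.norm_natCast, div_le_one (by positivity)] at h1
    have h3 : ‖ω i‖ ^ 2 ≤ (q : ℝ) := by
      rw [pow_mul] at h1
      exact le_of_pow_le_pow_left₀ (by omega) hq0.le h1
    exact Real.le_sqrt_of_sq_le h3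
  rw [← hL1, ← hS1, hω 1 le_rfl, norm_neg]
  refine (norm_sum_le _ _).trans ?_
  simp only [pow_one]
  refine (Finset.sum_le_sum fun i _ => hωb i).trans ?_
  rw [Finset.sum_const, Finset.card_univ, Fintype.card_fin, nsmul_eq_mul, Nat.cast_sub hn1,
    Nat.cast_one]

end Pool.Agent.OPG.Katz
end

section

set_option autoImplicit false

namespace Pool.Agent.OPG.Katz

open Polynomial

/-- Character sums over `θ + ker (trace)`. -/
theorem line_sum {F K : Type} [Field F] [Fintype F] [DecidableEq F] [Algebra (ZMod 2) F]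
    [Field K] [Fintype K] [Algebra F K] (θ : K) (m : ℕ) (hm : 1 ≤ m)
    (hfr : Module.finrank F K = m)
    (hθ : ∀ y : K, ∃ g : F[X], g.natDegree < m ∧ aeval θ g = y)
    (htr : Algebra.trace (ZMod 2) F (Algebra.trace F K θ) = 1)
    (χ : MulChar K ℂ) (hχ : χ ≠ 1) :
    ‖∑ u : {u : F // Algebra.trace (ZMod 2) F u = 0}, χ (θ + algebraMap F K u)‖
      ≤ (m : ℝ) * Real.sqrt (Fintype.card F) := by
  classical
  obtain ⟨L, _, _, _, _, _, α, hL, hα, hnorm⟩ := exists_quadratic θ m hm hfr hθ htr
  obtain ⟨χ', hχ', hval⟩ := exists_norm_char (K := K) (L := L) χ hχ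
  have h1 := katz (F := F) α (2 * m) hL hα χ' hχ'
  have h2 : ∑ c : F, χ' (α + algebraMap F L c)
      = ∑ v : F, χ (θ + algebraMap F K (v ^ 2 + v)) := by
    apply Finset.sum_congr rfl
    intro v _
    rw [hval, hnorm]
  have h3 := sum_ker_trace (F := F) (fun u => χ (θ + algebraMap F K u))
  rw [h2, h3, norm_mul] at h1
  have h4 : ‖(2 : ℂ)‖ = 2 := by norm_num
  rw [h4] at h1
  have h5 : 0 ≤ Real.sqrt (Fintype.card F) := Real.sqrt_nonneg _
  push_cast at h1
  linarith

end Pool.Agent.OPG.Katz
end
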